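import Pool.Agent.Helper391_TT.Conv

set_option autoImplicit false

/-!
The cone spanned by the classes of a compatible family of rigid objects is contained in the cone
of one `τ`-rigid pair.
-/

namespace Pool.Agent.Helper391_TT

universe u

variable {k A : Type u} [Field k] [Ring A] [Algebra k A] {ι : Type} [Fintype ι]

theorem mem_cone_of_family [Module.Finite k A] (B : ProjBasis k A ι) {I : Type} [Fintype I]
    (Z : I → Obj k A) (hZ : ∀ i j, ee (Z i) (Z j).M = 0) (z : I → ι → ℤ)
    (hz : ∀ i, B.Cls (Z i) (z i)) :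
    ∃ V P : FM k A, IsTauRigidPair V P ∧
      ∀ s : I → ℝ, (∀ i, 0 ≤ s i) → (fun l => ∑ i, s i * (z i l : ℝ)) ∈ B.cone V P := by
  classical
  choose J fJ V hV eV using fun i => exists_decomp (Z i).M
  have S : (i : I) → (j : J i) → MinPres (V i j) := fun i j =>
    Classical.choice (exists_minPres (V i j))
  let Z' : (i : I) → MinPres (Z i).M := fun i =>
    (MinPres.pi (S i)).congr (V := FM.pi (V i)) (W := (Z i).M) (Classical.choice (eV i)).symm
  have hZ' : ∀ i X, chi (Z' i).obj X = ∑ j, chi (S i j).obj X := fun i X =>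
    chi_pi (fun j => (S i j).obj) X
  choose R hRp hRc hRe using fun i => chi_decomp (Z' i) (Z i) (LinearEquiv.refl A (Z i).M.X)
  choose J' fJ' P hP eP using fun i => exists_decomp (R i)
  have hretV : ∀ i j, Retract A (V i j).X (Z i).M.X := fun i j => by
    obtain ⟨e⟩ := eV i
    exact (retract_pi (V i) j).trans (Retract.of_equiv e.symm)
  have hretP : ∀ i j, Retract A (P i j).X (R i).X := fun i j => by
    obtain ⟨e⟩ := eP i
    exact (retract_pi (P i) j).trans (Retract.of_equiv e.symm)
  have hPp : ∀ i j, Module.Projective A (P i j).X := fun i j => proj_of_retract (hretP i j)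
  let VV : FM k A := FM.pi fun p : (Σ i, J i) => V p.1 p.2
  let PP : FM k A := FM.pi fun p : (Σ i, J' i) => P p.1 p.2
  -- the minimal presentation of `VV`
  let SS : MinPres VV := MinPres.pi fun p : (Σ i, J i) => S p.1 p.2
  have hSS : ee SS.obj VV = 0 := by
    have h1 : ∀ p : (Σ i, J i), ee (S p.1 p.2).obj VV = 0 := by
      intro p
      refine ee_pi_zero _ _ fun q => ?_
      refine ee_of_retract _ (hretV q.1 q.2) ?_
      exact (S p.1 p.2).ee_zero' (Z p.1) (hretV p.1 p.2) _ (hZ p.1 q.1)
    exact (ee_pi_iff (fun p : (Σ i, J i) => (S p.1 p.2).obj) VV).mpr h1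
  have hRM : ∀ i j, ∀ φ : (R i).X →ₗ[A] (Z j).M.X, φ = 0 := fun i j => hRe i _ (hZ i j)
  have hPV : ∀ φ : PP.X →ₗ[A] VV.X, φ = 0 := by
    intro φ
    refine LinearMap.pi_ext' fun p => LinearMap.ext fun x => funext fun q => ?_
    have h1 := hom_zero_retract (P := R p.1) (V := (Z q.1).M) (P' := P p.1 p.2)
      (V' := V q.1 q.2) (hRM p.1 q.1) (hretP p.1 p.2) (hretV q.1 q.2)
      (LinearMap.proj q ∘ₗ φ ∘ₗ LinearMap.single A (fun p : (Σ i, J' i) => (P p.1 p.2).X) p)
    exact LinearMap.congr_fun h1 x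
  choose g hg using fun i (j : J i) => B.exists_gvec (V i j)
  choose h hh using fun i (j : J' i) => B.exists_gvec (P i j)
  refine ⟨VV, PP, ⟨(isTauRigid_iff VV).mpr ⟨SS, hSS⟩, ?_, hPV⟩, fun s hs => ?_⟩
  · have := fun p : (Σ i, J' i) => hPp p.1 p.2
    exact projPi fun p : (Σ i, J' i) => (P p.1 p.2).X
  · refine ⟨(Σ i, J i), (Σ i, J' i), inferInstance, inferInstance, fun p => V p.1 p.2,
      fun p => P p.1 p.2, fun p => g p.1 p.2, fun p => h p.1 p.2, fun p => s p.1,
      fun p => s p.1, fun p => hV p.1 p.2, ⟨LinearEquiv.refl _ _⟩, fun p => hg p.1 p.2,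
      fun p => hP p.1 p.2, ⟨LinearEquiv.refl _ _⟩, fun p => hh p.1 p.2, fun p => hs p.1,
      fun p => hs p.1, fun l => ?_⟩
    -- compare the two sides by injectivity
    have key := B.inj_real (fun l => ∑ i, s i * (z i l : ℝ) -
      (∑ p : (Σ i, J i), s p.1 * (g p.1 p.2 l : ℝ) -
        ∑ p : (Σ i, J' i), s p.1 * (h p.1 p.2 l : ℝ))) (fun X => ?_) l
    · have h2 := sub_eq_zero.mp key
      exact h2
    · have e1 : ∑ l, (∑ i, s i * (z i l : ℝ)) * (dd (B.P l) X : ℝ) =
          ∑ i, s i * (chi (Z i) X : ℝ) := by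
        rw [Finset.sum_congr rfl fun l _ => Finset.sum_mul _ _ _, Finset.sum_comm]
        refine Finset.sum_congr rfl fun i _ => ?_
        rw [hz i X]
        push_cast
        rw [Finset.mul_sum]
        exact Finset.sum_congr rfl fun l _ => by ring
      have e2 : ∑ l, (∑ p : (Σ i, J i), s p.1 * (g p.1 p.2 l : ℝ)) * (dd (B.P l) X : ℝ) =
          ∑ i, s i * ∑ j, (chi (S i j).obj X : ℝ) := by
        rw [Finset.sum_congr rfl fun l _ => Finset.sum_mul _ _ _, Finset.sum_comm,
          Fintype.sum_sigma]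
        refine Finset.sum_congr rfl fun i _ => ?_
        rw [Finset.mul_sum]
        refine Finset.sum_congr rfl fun j _ => ?_
        rw [(hg i j).cls (S i j) X]
        push_cast
        rw [Finset.mul_sum]
        exact Finset.sum_congr rfl fun l _ => by ring
      have e3 : ∑ l, (∑ p : (Σ i, J' i), s p.1 * (h p.1 p.2 l : ℝ)) * (dd (B.P l) X : ℝ) =
          ∑ i, s i * ∑ j, (dd (P i j) X : ℝ) := by
        rw [Finset.sum_congr rfl fun l _ => Finset.sum_mul _ _ _, Finset.sum_comm,
          Fintype.sum_sigma]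
        refine Finset.sum_congr rfl fun i _ => ?_
        rw [Finset.mul_sum]
        refine Finset.sum_congr rfl fun j _ => ?_
        have e4 := (hh i j).cls (MinPres.ofProj (P i j) (hPp i j)) X
        rw [MinPres.chi_proj _ (hPp i j)] at e4
        have e5 := congrArg (fun z : ℤ => (z : ℝ)) e4
        push_cast at e5
        rw [e5, Finset.mul_sum]
        exact Finset.sum_congr rfl fun l _ => by ring
      simp only [sub_mul]
      rw [Finset.sum_sub_distrib, Finset.sum_sub_distrib, e1, e2, e3, ← Finset.sum_sub_distrib,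
        ← Finset.sum_sub_distrib]
      refine Finset.sum_eq_zero fun i _ => ?_
      rw [hRc i X, hZ' i X]
      have e6 : dd (R i) X = ∑ j, dd (P i j) X := by
        obtain ⟨e⟩ := eP i
        rw [dd_congr_left (V := R i) (W := FM.pi (P i)) e, dd_pi_left]
      rw [e6]
      push_cast
      ring

theorem mem_cone_of_cmp [Module.Finite k A] (B : ProjBasis k A ι) (F G : Obj k A) (hF : Rigid F)
    (hG : Rigid G) (hc : Cmp F G) (v w : ι → ℤ) (hv : B.Cls F v) (hw : B.Cls G w) :
    ∃ V P : FM k A, IsTauRigidPair V P ∧ ∀ s t : ℝ, 0 ≤ s → 0 ≤ t →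
      (fun i => s * (v i : ℝ) + t * (w i : ℝ)) ∈ B.cone V P := by
  obtain ⟨V, P, hVP, h⟩ := mem_cone_of_family B (I := Bool) (fun b => if b then F else G)
    (by
      rintro (_ | _) (_ | _)
      · exact hG
      · exact hc.2
      · exact hc.1
      · exact hF)
    (fun b => if b then v else w) (by
      rintro (_ | _)
      · exact hw
      · exact hv)
  refine ⟨V, P, hVP, fun s t hs ht => ?_⟩
  have h1 := h (fun b => if b then s else t) (by
    rintro (_ | _)
    · exact ht
    · exact hs)
  have h2 : (fun l => ∑ i : Bool, (if i then s else t) * (((if i then v else w) l : ℤ) : ℝ)) =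
      (fun i => s * (v i : ℝ) + t * (w i : ℝ)) := by
    funext l
    simp
  rw [h2] at h1
  exact h1

end Pool.Agent.Helper391_TT
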