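import Pool.Agent.Helper391_TT.Core

set_option autoImplicit false

/-!
Finite dimensional modules over an algebra: indecomposable modules, the Fitting dichotomy,
retracts, decompositions.
-/

namespace Pool.Agent.Helper391_TT

universe u

section hom

variable (k A : Type u) [Field k] [Ring A] [Algebra k A]
  (M N : Type u) [AddCommGroup M] [Module k M] [Module A M] [IsScalarTower k A M]
  [AddCommGroup N] [Module k N] [Module A N] [IsScalarTower k A N]

instance homFinite [Module.Finite k M] [Module.Finite k N] : Module.Finite k (M →ₗ[A] N) :=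
  Module.Finite.of_injective (LinearMap.restrictScalarsₗ k A M N k)
    (LinearMap.restrictScalars_injective k)

instance subFinite [Module.Finite k M] (S : Submodule A M) : Module.Finite k S :=
  Module.Finite.of_injective (S.subtype.restrictScalars k) S.subtype_injective

instance quotFinite [Module.Finite k M] (S : Submodule A M) : Module.Finite k (M ⧸ S) :=
  Module.Finite.of_surjective (S.mkQ.restrictScalars k) S.mkQ_surjective

end hom

section fitting

variable {k A : Type u} [Field k] [Ring A] [Algebra k A]
  {M : Type u} [AddCommGroup M] [Module k M] [Module A M] [IsScalarTower k A M]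
  [Module.Finite k M]

theorem noeth (k : Type u) {A : Type u} [Field k] [Ring A] [Algebra k A]
    (M : Type u) [AddCommGroup M] [Module k M] [Module A M] [IsScalarTower k A M]
    [Module.Finite k M] : IsNoetherian A M := isNoetherian_of_tower k inferInstance

theorem artin (k : Type u) {A : Type u} [Field k] [Ring A] [Algebra k A]
    (M : Type u) [AddCommGroup M] [Module k M] [Module A M] [IsScalarTower k A M]
    [Module.Finite k M] : IsArtinian A M := isArtinian_of_tower k inferInstance

/-- an endomorphism of an indecomposable module is bijective or nilpotent -/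
theorem bij_or_nil (k : Type u) {A : Type u} [Field k] [Ring A] [Algebra k A]
    {M : Type u} [AddCommGroup M] [Module k M] [Module A M] [IsScalarTower k A M]
    [Module.Finite k M] (hM : Indec A M) (f : M →ₗ[A] M) :
    Function.Bijective f ∨ IsNilpotent (f : Module.End A M) := by
  have := noeth k (A := A) M
  have := artin k (A := A) M
  have h := LinearMap.eventually_isCompl_ker_pow_range_pow (R := A) (M := M) f
  obtain ⟨n, hn⟩ := Filter.eventually_atTop.mp h
  have h1 := hn (n + 1) (by omega)
  rcases hM.2 _ _ h1 with h2 | h2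
  · left
    have hinj : Function.Injective ((f : Module.End A M) ^ (n + 1)) := LinearMap.ker_eq_bot.mp h2
    have hinj' : Function.Injective f := by
      intro x y hxy
      apply hinj
      rw [pow_succ, Module.End.mul_apply, Module.End.mul_apply]
      exact congrArg _ hxy
    exact IsArtinian.bijective_of_injective_endomorphism f hinj'
  · right
    exact ⟨n + 1, LinearMap.range_eq_bot.mp h2⟩

/-- the endomorphism ring of an indecomposable module is local -/
theorem bij_of_add (k : Type u) {A : Type u} [Field k] [Ring A] [Algebra k A]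
    {M : Type u} [AddCommGroup M] [Module k M] [Module A M] [IsScalarTower k A M]
    [Module.Finite k M] (hM : Indec A M) (f g : M →ₗ[A] M)
    (h : Function.Bijective ⇑(f + g : M →ₗ[A] M)) : Function.Bijective f ∨ Function.Bijective g := by
  let e : M ≃ₗ[A] M := LinearEquiv.ofBijective (f + g) h
  rcases bij_or_nil k hM (e.symm.toLinearMap ∘ₗ f) with h1 | h1
  · left
    have : f = e.toLinearMap ∘ₗ (e.symm.toLinearMap ∘ₗ f) := by
      ext x; simp
    rw [this, LinearMap.coe_comp]
    exact e.bijective.comp h1
  · right
    have h2 : IsUnit (1 - (e.symm.toLinearMap ∘ₗ f : Module.End A M)) := h1.isUnit_one_sub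
    have h3 : (1 - (e.symm.toLinearMap ∘ₗ f : Module.End A M)) = e.symm.toLinearMap ∘ₗ g := by
      ext x
      have : e.symm ((f + g) x) = x := by
        have : (f + g) x = e x := rfl
        rw [this, e.symm_apply_apply]
      simp only [LinearMap.sub_apply, Module.End.one_apply, LinearMap.comp_apply,
        LinearEquiv.coe_coe]
      rw [LinearMap.add_apply, map_add] at this
      exact sub_eq_iff_eq_add'.mpr this.symm
    rw [h3] at h2
    have h4 : Function.Bijective (e.symm.toLinearMap ∘ₗ g) := (Module.End.isUnit_iff _).mp h2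
    have : g = e.toLinearMap ∘ₗ (e.symm.toLinearMap ∘ₗ g) := by
      ext x; simp
    rw [this, LinearMap.coe_comp]
    exact e.bijective.comp h4

theorem bij_of_sum (k : Type u) {A : Type u} [Field k] [Ring A] [Algebra k A]
    {M : Type u} [AddCommGroup M] [Module k M] [Module A M] [IsScalarTower k A M]
    [Module.Finite k M] (hM : Indec A M) {J : Type*} (s : Finset J) (f : J → M →ₗ[A] M)
    (h : Function.Bijective ⇑(∑ j ∈ s, f j : M →ₗ[A] M)) : ∃ j ∈ s, Function.Bijective (f j) := by
  classical
  induction s using Finset.induction_on with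
  | empty =>
    exfalso
    obtain ⟨x, y, hxy⟩ := hM.1
    exact hxy (h.1 (by simp))
  | insert a s ha ih =>
    rw [Finset.sum_insert ha] at h
    rcases bij_of_add k hM _ _ h with h1 | h1
    · exact ⟨a, Finset.mem_insert_self _ _, h1⟩
    · obtain ⟨j, hj, h2⟩ := ih h1
      exact ⟨j, Finset.mem_insert_of_mem hj, h2⟩

end fitting

section retract

variable {A : Type u} [Ring A]

/-- `V` is isomorphic to a direct summand of `W` -/
def Retract (A : Type u) [Ring A] (V W : Type u) [AddCommGroup V] [Module A V]
    [AddCommGroup W] [Module A W] : Prop :=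
  ∃ (i : V →ₗ[A] W) (r : W →ₗ[A] V), r ∘ₗ i = LinearMap.id

variable {V W U : Type u} [AddCommGroup V] [Module A V] [AddCommGroup W] [Module A W]
  [AddCommGroup U] [Module A U]

theorem Retract.refl : Retract A V V := ⟨LinearMap.id, LinearMap.id, rfl⟩

theorem Retract.of_equiv (e : V ≃ₗ[A] W) : Retract A V W :=
  ⟨e.toLinearMap, e.symm.toLinearMap, by ext x; simp⟩

theorem Retract.trans (h : Retract A V W) (h' : Retract A W U) : Retract A V U := by
  obtain ⟨i, r, hir⟩ := h
  obtain ⟨i', r', hir'⟩ := h'
  refine ⟨i' ∘ₗ i, r ∘ₗ r', ?_⟩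
  rw [LinearMap.comp_assoc, ← LinearMap.comp_assoc i i' r', hir', LinearMap.id_comp, hir]

/-- a nonzero retract of an indecomposable module is the whole module -/
theorem Retract.equiv (hW : Indec A W) (hV : Nontrivial V) (h : Retract A V W) :
    Nonempty (V ≃ₗ[A] W) := by
  obtain ⟨i, r, hir⟩ := h
  have hinj : Function.Injective i := LinearMap.injective_of_comp_eq_id _ _ hir
  have hc : IsCompl (LinearMap.range i) (LinearMap.ker r) := by
    constructor
    · rw [Submodule.disjoint_def]
      rintro _ ⟨y, rfl⟩ hy
      have : r (i y) = y := by simpa using LinearMap.congr_fun hir y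
      rw [LinearMap.mem_ker, this] at hy
      rw [hy, map_zero]
    · rw [codisjoint_iff, eq_top_iff]
      intro x _
      rw [Submodule.mem_sup]
      refine ⟨i (r x), ⟨_, rfl⟩, x - i (r x), ?_, by abel⟩
      have : r (i (r x)) = r x := by simpa using LinearMap.congr_fun hir (r x)
      rw [LinearMap.mem_ker, map_sub, this, sub_self]
  rcases hW.2 _ _ hc with h1 | h1
  · exfalso
    obtain ⟨x, y, hxy⟩ := hV
    rw [LinearMap.range_eq_bot] at h1
    apply hxy
    apply hinj
    rw [h1]; simp
  · have h2 : LinearMap.range i = ⊤ := by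
      have := hc.sup_eq_top
      rwa [h1, sup_bot_eq] at this
    exact ⟨LinearEquiv.ofBijective i ⟨hinj, LinearMap.range_eq_top.mp h2⟩⟩

/-- an indecomposable retract of a finite product is a retract of one of the factors -/
theorem Retract.of_pi (k : Type u) [Field k] [Algebra k A] [Module k V] [IsScalarTower k A V]
    [Module.Finite k V] (hV : Indec A V) {J : Type*} [Fintype J] {W : J → Type u}
    [∀ j, AddCommGroup (W j)] [∀ j, Module A (W j)] (i : V →ₗ[A] ((j : J) → W j))
    (r : ((j : J) → W j) →ₗ[A] V) (hir : r ∘ₗ i = LinearMap.id) :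
    ∃ j, Retract A V (W j) := by
  classical
  have h : (∑ j : J, (r ∘ₗ LinearMap.single A W j) ∘ₗ (LinearMap.proj j ∘ₗ i)) =
      LinearMap.id := by
    rw [← hir]
    ext x
    simp only [LinearMap.sum_apply, LinearMap.comp_apply]
    rw [← map_sum]
    congr 1
    ext j
    rw [Finset.sum_apply]
    simp only [LinearMap.coe_single, LinearMap.proj_apply]
    rw [Finset.sum_eq_single j]
    · simp
    · intro b _ hb
      rw [Pi.single_eq_of_ne (Ne.symm hb)]
    · simp
  have hb : Function.Bijective ⇑(∑ j : J, (r ∘ₗ LinearMap.single A W j) ∘ₗ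
      (LinearMap.proj j ∘ₗ i) : V →ₗ[A] V) := by
    rw [h]; exact Function.bijective_id
  obtain ⟨j, _, hj⟩ := bij_of_sum k hV _ _ hb
  let e := LinearEquiv.ofBijective _ hj
  refine ⟨j, LinearMap.proj j ∘ₗ i, e.symm.toLinearMap ∘ₗ (r ∘ₗ LinearMap.single A W j), ?_⟩
  ext x
  have : e x = ((r ∘ₗ LinearMap.single A W j) ∘ₗ (LinearMap.proj j ∘ₗ i)) x := rfl
  have h3 := e.symm_apply_apply x
  rw [this] at h3
  exact h3

end retract

end Pool.Agent.Helper391_TT
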