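import Pool.Agent.Helper391_TT.Small

set_option autoImplicit false

/-!
Comparison of presentations.
-/

namespace Pool.Agent.Helper391_TT

universe u

variable {k A : Type u} [Field k] [Ring A] [Algebra k A]

theorem exists_lift (F H : Obj k A) {V W : FM k A} (πF : F.P.X →ₗ[A] V.X)
    (πH : H.P.X →ₗ[A] W.X) (hF : ∀ x, πF (F.f x) = 0) (hH : ∀ x, πH x = 0 → ∃ y, H.f y = x)
    (hs : Function.Surjective πH) (u : V.X →ₗ[A] W.X) :
    ∃ (b₀ : F.P.X →ₗ[A] H.P.X) (b₁ : F.Q.X →ₗ[A] H.Q.X),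
      (∀ x, πH (b₀ x) = u (πF x)) ∧ ∀ x, H.f (b₁ x) = b₀ (F.f x) := by
  obtain ⟨b₀, hb₀⟩ := Module.projective_lifting_property πH (u ∘ₗ πF) hs
  have h0 : ∀ x, πH (b₀ x) = u (πF x) := fun x => LinearMap.congr_fun hb₀ x
  have hd : ∀ q, (b₀ ∘ₗ F.f) q ∈ LinearMap.range H.f := by
    intro q
    obtain ⟨y, hy⟩ := hH (b₀ (F.f q)) (by rw [h0, hF, map_zero])
    exact ⟨y, hy⟩
  obtain ⟨b₁, hb₁⟩ := Module.projective_lifting_property H.f.rangeRestrict
    ((b₀ ∘ₗ F.f).codRestrict (LinearMap.range H.f) hd) H.f.surjective_rangeRestrict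
  refine ⟨b₀, b₁, h0, fun x => ?_⟩
  exact congrArg Subtype.val (LinearMap.congr_fun hb₁ x)

/-- endomorphisms of a minimal presentation over the identity are bijective -/
theorem MinPres.auto {W : FM k A} (S : MinPres W) (c₀ : S.P₀.X →ₗ[A] S.P₀.X)
    (c₁ : S.P₁.X →ₗ[A] S.P₁.X) (h0 : ∀ x, S.π (c₀ x) = S.π x)
    (h1 : ∀ x, S.f (c₁ x) = c₀ (S.f x)) :
    Function.Bijective c₀ ∧ Function.Bijective c₁ := by
  have hc0 : Function.Bijective c₀ := by
    apply bij_of_surj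
    apply surj_of_small S.π S.min₀
    intro y
    obtain ⟨x, rfl⟩ := S.surj y
    exact ⟨x, h0 x⟩
  refine ⟨hc0, ?_⟩
  apply bij_of_surj
  have hk : LinearMap.ker S.f.rangeRestrict = LinearMap.ker S.f := LinearMap.ker_rangeRestrict _
  apply surj_of_small S.f.rangeRestrict (hk ▸ S.min₁)
  -- the restriction of `c₀` to the range of `f`
  have hd : ∀ x ∈ LinearMap.range S.f, c₀ x ∈ LinearMap.range S.f := by
    intro x hx
    rw [S.exact, LinearMap.mem_ker] at hx ⊢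
    rw [h0, hx]
  let c : (S.P₀.sub (LinearMap.range S.f)).X →ₗ[A] (S.P₀.sub (LinearMap.range S.f)).X :=
    c₀.restrict hd
  have hc : Function.Bijective c := by
    apply bij_of_inj
    intro x y hxy
    apply Subtype.ext
    apply hc0.1
    exact congrArg Subtype.val hxy
  intro y
  obtain ⟨⟨_, ⟨x, rfl⟩⟩, hy⟩ := hc.2 y
  refine ⟨x, ?_⟩
  apply Subtype.ext
  rw [← hy]
  exact h1 x

/-- comparison of a presentation of `V` with a minimal presentation of a retract of `V` -/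
theorem MinPres.compare {V W : FM k A} (S : MinPres W) (H : Obj k A) (πH : H.P.X →ₗ[A] V.X)
    (h0 : ∀ x, πH (H.f x) = 0) (h1 : ∀ x, πH x = 0 → ∃ y, H.f y = x)
    (hs : Function.Surjective πH) (i : W.X →ₗ[A] V.X) (r : V.X →ₗ[A] W.X)
    (hir : r ∘ₗ i = LinearMap.id) :
    ∃ (b₀ : S.P₀.X →ₗ[A] H.P.X) (b₁ : S.P₁.X →ₗ[A] H.Q.X)
      (a₀ : H.P.X →ₗ[A] S.P₀.X) (a₁ : H.Q.X →ₗ[A] S.P₁.X),
      (∀ x, πH (b₀ x) = i (S.π x)) ∧ (∀ x, H.f (b₁ x) = b₀ (S.f x)) ∧
      (∀ x, S.π (a₀ x) = r (πH x)) ∧ (∀ x, S.f (a₁ x) = a₀ (H.f x)) ∧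
      Function.Bijective (a₀ ∘ₗ b₀) ∧ Function.Bijective (a₁ ∘ₗ b₁) := by
  have e0 : ∀ x, S.π (S.obj.f x) = 0 := by
    intro x
    have : S.f x ∈ LinearMap.ker S.π := S.exact ▸ ⟨x, rfl⟩
    exact this
  have e1 : ∀ x, S.π x = 0 → ∃ y, S.obj.f y = x := by
    intro x hx
    have : x ∈ LinearMap.ker S.π := hx
    rw [← S.exact] at this
    exact this
  obtain ⟨b₀, b₁, hb0, hb1⟩ := exists_lift S.obj H S.π πH e0 h1 hs i
  obtain ⟨a₀, a₁, ha0, ha1⟩ := exists_lift H S.obj πH S.π h0 e1 S.surj r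
  have hc := S.auto (a₀ ∘ₗ b₀) (a₁ ∘ₗ b₁) (fun x => by
    have h2 : r (i (S.π x)) = S.π x := LinearMap.congr_fun hir (S.π x)
    rw [LinearMap.comp_apply, ha0, hb0, h2]) (fun x => by
    have h2 : S.f (a₁ (b₁ x)) = a₀ (H.f (b₁ x)) := ha1 _
    rw [LinearMap.comp_apply, h2, hb1]
    rfl)
  exact ⟨b₀, b₁, a₀, a₁, hb0, hb1, ha0, ha1, hc.1, hc.2⟩

/-- `E` vanishes on the minimal presentation of a retract -/
theorem MinPres.ee_zero {V W : FM k A} (S : MinPres W) (H : Obj k A) (πH : H.P.X →ₗ[A] V.X)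
    (h0 : ∀ x, πH (H.f x) = 0) (h1 : ∀ x, πH x = 0 → ∃ y, H.f y = x)
    (hs : Function.Surjective πH) (hr : Retract A W.X V.X) (X : FM k A) (hX : ee H X = 0) :
    ee S.obj X = 0 := by
  obtain ⟨i, r, hir⟩ := hr
  obtain ⟨b₀, b₁, a₀, a₁, hb0, hb1, ha0, ha1, hc0, hc1⟩ :=
    S.compare H πH h0 h1 hs i r hir
  rw [ee_eq_zero_iff] at hX ⊢
  intro φ
  let e := LinearEquiv.ofBijective (a₁ ∘ₗ b₁) hc1
  obtain ⟨ψ, hψ⟩ := hX (φ ∘ₗ e.symm.toLinearMap ∘ₗ a₁)
  refine ⟨ψ ∘ₗ b₀, ?_⟩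
  refine LinearMap.ext fun x => ?_
  have h2 : ψ (H.f (b₁ x)) = φ (e.symm (a₁ (b₁ x))) := LinearMap.congr_fun hψ (b₁ x)
  have h3 : e.symm (a₁ (b₁ x)) = x := e.symm_apply_apply x
  rw [h3] at h2
  rw [LinearMap.comp_apply, LinearMap.comp_apply, ← hb1]
  exact h2

/-- a version for the cokernel -/
theorem MinPres.ee_zero' {W : FM k A} (S : MinPres W) (H : Obj k A) (hr : Retract A W.X H.M.X)
    (X : FM k A) (hX : ee H X = 0) : ee S.obj X = 0 :=
  S.ee_zero H H.pr (fun x => LinearMap.congr_fun H.pr_comp x) H.pr_ker H.pr_surj hr X hX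

/-- uniqueness of minimal presentations -/
theorem MinPres.unique {V W : FM k A} (S : MinPres W) (T : MinPres V) (e : W.X ≃ₗ[A] V.X) :
    Nonempty (S.P₀.X ≃ₗ[A] T.P₀.X) ∧ Nonempty (S.P₁.X ≃ₗ[A] T.P₁.X) := by
  have e0 : ∀ x, T.π (T.obj.f x) = 0 := by
    intro x
    have : T.f x ∈ LinearMap.ker T.π := T.exact ▸ ⟨x, rfl⟩
    exact this
  have e1 : ∀ x, T.π x = 0 → ∃ y, T.obj.f y = x := by
    intro x hx
    have : x ∈ LinearMap.ker T.π := hx
    rw [← T.exact] at this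
    exact this
  obtain ⟨b₀, b₁, a₀, a₁, hb0, hb1, ha0, ha1, hc0, hc1⟩ :=
    S.compare T.obj T.π e0 e1 T.surj e.toLinearMap e.symm.toLinearMap (by ext x; simp)
  have hc := T.auto (b₀ ∘ₗ a₀) (b₁ ∘ₗ a₁) (fun x => by
    have h2 : T.π (b₀ (a₀ x)) = e (S.π (a₀ x)) := hb0 _
    rw [LinearMap.comp_apply, h2, ha0]
    simp) (fun x => by
    have h2 : T.f (b₁ (a₁ x)) = b₀ (S.f (a₁ x)) := hb1 _
    rw [LinearMap.comp_apply, h2, ha1]
    rfl)
  refine ⟨⟨LinearEquiv.ofBijective b₀ ⟨?_, ?_⟩⟩, ⟨LinearEquiv.ofBijective b₁ ⟨?_, ?_⟩⟩⟩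
  · exact Function.Injective.of_comp (f := a₀) hc0.1
  · exact Function.Surjective.of_comp (g := a₀) hc.1.2
  · exact Function.Injective.of_comp (f := a₁) hc1.1
  · exact Function.Surjective.of_comp (g := a₁) hc.2.2

theorem dd_congr_left {V W : FM k A} (e : V.X ≃ₗ[A] W.X) (X : FM k A) : dd V X = dd W X :=
  le_antisymm (dd_le_of_surj e.symm.toLinearMap e.symm.surjective)
    (dd_le_of_surj e.toLinearMap e.surjective)

theorem dd_prod (V W X : FM k A) : dd (V.prod W) X = dd V X + dd W X := by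
  unfold dd
  rw [← Module.finrank_prod]
  exact (LinearEquiv.finrank_eq (LinearMap.coprodEquiv (R := A) k (M := V.X) (M₂ := W.X)
    (M₃ := X.X))).symm

/-- a projective module mapping onto `K` contains the projective cover of `K` -/
theorem cover_retract {K : Type u} [AddCommGroup K] [Module A K] (Q Q₀ : FM k A)
    [Module.Projective A Q.X] [Module.Projective A Q₀.X] (π : Q.X →ₗ[A] K)
    (π₀ : Q₀.X →ₗ[A] K) (h : Function.Surjective π) (h₀ : Function.Surjective π₀)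
    (hs : Small (LinearMap.ker π₀)) :
    ∃ (a : Q.X →ₗ[A] Q₀.X) (c : Q₀.X →ₗ[A] Q.X), (∀ x, π₀ (a x) = π x) ∧
      (∀ x, π (c x) = π₀ x) ∧ (∀ x, a (c x) = x) := by
  obtain ⟨a, ha⟩ := Module.projective_lifting_property π₀ π h₀
  have ha' : ∀ x, π₀ (a x) = π x := fun x => LinearMap.congr_fun ha x
  have hsurj : Function.Surjective a := surj_of_small π₀ hs a (by rw [ha]; exact h)
  obtain ⟨c, hc⟩ := Module.projective_lifting_property a LinearMap.id hsurj
  have hc' : ∀ x, a (c x) = x := fun x => LinearMap.congr_fun hc x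
  refine ⟨a, c, ha', fun x => ?_, hc'⟩
  rw [← ha', hc']

/-- a retraction with kernel `S` -/
theorem dd_retract {Q Q₀ : FM k A} (a : Q.X →ₗ[A] Q₀.X) (c : Q₀.X →ₗ[A] Q.X)
    (h : ∀ x, a (c x) = x) (X : FM k A) : dd Q X = dd Q₀ X + dd (Q.sub (LinearMap.ker a)) X := by
  rw [← dd_prod]
  refine dd_congr_left (V := Q) (W := Q₀.prod (Q.sub (LinearMap.ker a))) ?_ X
  exact
    { toFun := fun x => (a x, ⟨x - c (a x), by rw [LinearMap.mem_ker, map_sub, h, sub_self]⟩)
      map_add' := fun x y => by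
        refine Prod.ext (map_add a x y) (Subtype.ext ?_)
        simp only [map_add]
        change _ = (x - c (a x)) + (y - c (a y))
        abel
      map_smul' := fun s x => by
        refine Prod.ext (map_smul a s x) (Subtype.ext ?_)
        simp only [map_smul, RingHom.id_apply]
        change _ = s • (x - c (a x))
        rw [smul_sub]
      invFun := fun y => c y.1 + y.2.1
      left_inv := fun x => by
        change c (a x) + (x - c (a x)) = x
        abel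
      right_inv := fun y => by
        have h1 : a (c y.1 + y.2.1) = y.1 := by
          rw [map_add, h, LinearMap.mem_ker.mp y.2.2, add_zero]
        refine Prod.ext h1 (Subtype.ext ?_)
        change (c y.1 + y.2.1) - c (a (c y.1 + y.2.1)) = y.2.1
        rw [h1]
        abel }

theorem proj_retract {Q : FM k A} [Module.Projective A Q.X] {Q₀ : FM k A}
    (a : Q.X →ₗ[A] Q₀.X) (c : Q₀.X →ₗ[A] Q.X) (h : ∀ x, a (c x) = x) :
    Module.Projective A (Q.sub (LinearMap.ker a)).X := by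
  refine Module.Projective.of_split (M := Q.X) (LinearMap.ker a).subtype
    ((LinearMap.id - c ∘ₗ a).codRestrict (LinearMap.ker a) (fun x => by
      rw [LinearMap.mem_ker, LinearMap.sub_apply, map_sub, LinearMap.comp_apply, h]
      simp)) ?_
  refine LinearMap.ext fun x => Subtype.ext ?_
  change x.1 - c (a x.1) = x.1
  rw [LinearMap.mem_ker.mp x.2, map_zero, sub_zero]

/-- decomposition of the class of a presentation -/
theorem chi_decomp {V : FM k A} (Z : MinPres V) (F : Obj k A) (e : F.M.X ≃ₗ[A] V.X) :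
    ∃ S : FM k A, Module.Projective A S.X ∧
      (∀ X, chi F X = chi Z.obj X - dd S X) ∧
      (∀ X, ee F X = 0 → ∀ φ : S.X →ₗ[A] X.X, φ = 0) := by
  let πF : F.P.X →ₗ[A] V.X := e.toLinearMap ∘ₗ F.pr
  have hπF : Function.Surjective πF := e.surjective.comp F.pr_surj
  have hker : ∀ x, πF x = 0 → ∃ y, F.f y = x := by
    intro x hx
    apply F.pr_ker
    have : e (F.pr x) = 0 := hx
    exact e.map_eq_zero_iff.mp this
  have hcomp : ∀ x, πF (F.f x) = 0 := by
    intro x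
    change e (F.pr (F.f x)) = 0
    have : F.pr (F.f x) = 0 := LinearMap.congr_fun F.pr_comp x
    rw [this, map_zero]
  obtain ⟨a, c, ha, hc, hac⟩ := cover_retract F.P Z.P₀ πF Z.π hπF Z.surj Z.min₀
  let S₁ : FM k A := F.P.sub (LinearMap.ker a)
  have hS₁ : Module.Projective A S₁.X := proj_retract a c hac
  -- the kernel of `πF`
  let K : Submodule A F.P.X := LinearMap.ker πF
  have hfK : ∀ x, F.f x ∈ K := hcomp
  let g : F.Q.X →ₗ[A] K := F.f.codRestrict K hfK
  have hg : Function.Surjective g := by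
    rintro ⟨x, hx⟩
    obtain ⟨y, hy⟩ := hker x hx
    exact ⟨y, Subtype.ext hy⟩
  -- the comparison map
  have hd : ∀ x, (LinearMap.coprod (c ∘ₗ Z.f) (LinearMap.ker a).subtype :
      Z.P₁.X × S₁.X →ₗ[A] F.P.X) x ∈ K := by
    rintro ⟨q, s⟩
    change πF (c (Z.f q) + s.1) = 0
    have h1 : Z.f q ∈ LinearMap.ker Z.π := Z.exact ▸ ⟨q, rfl⟩
    rw [map_add, hc, LinearMap.mem_ker.mp h1, ← ha, LinearMap.mem_ker.mp s.2, map_zero, add_zero]
  let π₀ : (Z.P₁.prod S₁).X →ₗ[A] K := (LinearMap.coprod (c ∘ₗ Z.f)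
    (LinearMap.ker a).subtype).codRestrict K hd
  have hval : ∀ y : (Z.P₁.prod S₁).X, (π₀ y).1 = c (Z.f y.1) + y.2.1 := fun y => rfl
  have hπ₀ : Function.Surjective π₀ := by
    rintro ⟨x, hx⟩
    have h1 : Z.π (a x) = 0 := by rw [ha]; exact hx
    have h2 : a x ∈ LinearMap.ker Z.π := h1
    rw [← Z.exact] at h2
    obtain ⟨q, hq⟩ := h2
    refine ⟨(q, ⟨x - c (a x), by rw [LinearMap.mem_ker, map_sub, hac, sub_self]⟩), ?_⟩
    apply Subtype.ext
    rw [hval]
    change c (Z.f q) + (x - c (a x)) = x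
    rw [hq]
    abel
  have hsm : Small (LinearMap.ker π₀) := by
    refine (Z.min₁.map (LinearMap.inl A Z.P₁.X S₁.X)).mono ?_
    intro y hy
    have h1 : c (Z.f y.1) + y.2.1 = 0 := by
      rw [← hval, LinearMap.mem_ker.mp hy]; rfl
    have h2 : Z.f y.1 = 0 := by
      have := congrArg a h1
      rwa [map_add, hac, LinearMap.mem_ker.mp y.2.2, add_zero, map_zero] at this
    have h3 : y.2 = 0 := by
      apply Subtype.ext
      rw [h2, map_zero, zero_add] at h1
      exact h1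
    refine ⟨y.1, h2, ?_⟩
    exact Prod.ext rfl h3.symm
  have : Module.Projective A (Z.P₁.prod S₁).X :=
    inferInstanceAs (Module.Projective A (Z.P₁.X × S₁.X))
  obtain ⟨a', c', ha', hc', hac'⟩ := cover_retract F.Q (Z.P₁.prod S₁) g π₀ hg hπ₀ hsm
  refine ⟨F.Q.sub (LinearMap.ker a'), proj_retract a' c' hac', fun X => ?_, fun X hX φ => ?_⟩
  · unfold chi
    have e1 := dd_retract a c hac X
    have e2 := dd_retract a' c' hac' X
    rw [dd_prod] at e2
    change (dd F.P X : ℤ) - dd F.Q X = (dd Z.P₀ X : ℤ) - dd Z.P₁ X - _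
    have e3 : dd S₁ X = dd (F.P.sub (LinearMap.ker a)) X := rfl
    omega
  · -- extend `φ` by zero
    obtain ⟨ψ, hψ⟩ := (ee_eq_zero_iff F X).mp hX (φ ∘ₗ
      ((LinearMap.id - c' ∘ₗ a').codRestrict (LinearMap.ker a') (fun x => by
      rw [LinearMap.mem_ker, LinearMap.sub_apply, map_sub, LinearMap.comp_apply, hac']
      simp)))
    refine LinearMap.ext fun x => ?_
    have h1 := LinearMap.congr_fun hψ x.1
    have h2 : F.f x.1 = 0 := by
      have h3 : g x.1 = 0 := by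
        rw [← ha', LinearMap.mem_ker.mp x.2, map_zero]
      exact congrArg Subtype.val h3
    have h4 : ((LinearMap.id - c' ∘ₗ a').codRestrict (LinearMap.ker a') (fun x => by
      rw [LinearMap.mem_ker, LinearMap.sub_apply, map_sub, LinearMap.comp_apply, hac']
      simp)) x.1 = x := by
      apply Subtype.ext
      change x.1 - c' (a' x.1) = x.1
      rw [LinearMap.mem_ker.mp x.2, map_zero, sub_zero]
    rw [LinearMap.comp_apply, LinearMap.comp_apply, h2, map_zero, h4] at h1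
    rw [← h1]
    rfl

end Pool.Agent.Helper391_TT
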