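import Pool.Agent.Helper391_TT.Back

set_option autoImplicit false

/-!
Finiteness of the indecomposable modules compatible with a given `τ`-rigid pair, from a finite
cover modulo the span of its cone.
-/

namespace Pool.Agent.Helper391_TT

universe u

section linalg

variable {ι : Type} [Fintype ι]

theorem one_more (D : Submodule ℝ (ι → ℝ)) (h : D ≠ ⊤) :
    ∃ v : ι → ℤ, Module.finrank ℝ D + 1 ≤
      Module.finrank ℝ (D ⊔ Submodule.span ℝ {fun i => (v i : ℝ)} : Submodule ℝ (ι → ℝ)) := by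
  classical
  have h1 : ∃ i, (Pi.single i (1 : ℝ) : ι → ℝ) ∉ D := by
    by_contra hcon
    push Not at hcon
    apply h
    rw [eq_top_iff]
    intro x _
    have h2 : x = ∑ i, x i • (Pi.single i (1 : ℝ) : ι → ℝ) := by
      ext j
      rw [Finset.sum_apply]
      simp [Pi.single_apply]
    rw [h2]
    exact Submodule.sum_mem _ fun i _ => D.smul_mem _ (hcon i)
  obtain ⟨i, hi⟩ := h1
  refine ⟨Pi.single i 1, ?_⟩
  have h3 : (fun j => ((Pi.single i 1 : ι → ℤ) j : ℝ)) = (Pi.single i (1 : ℝ) : ι → ℝ) := by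
    ext j
    by_cases hj : j = i
    · subst hj; simp
    · rw [Pi.single_eq_of_ne hj, Pi.single_eq_of_ne hj]; simp
  rw [h3]
  have h4 : D < D ⊔ Submodule.span ℝ {(Pi.single i (1 : ℝ) : ι → ℝ)} := by
    refine lt_of_le_of_ne le_sup_left fun h5 => hi ?_
    rw [h5]
    exact Submodule.mem_sup_right (Submodule.mem_span_singleton_self _)
  exact Submodule.finrank_lt_finrank_of_lt h4

theorem two_more (D : Submodule ℝ (ι → ℝ)) (h : Fintype.card ι ≤ Module.finrank ℝ D + 2) :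
    ∃ v w : ι → ℤ, ∀ x : ι → ℝ, ∃ a b : ℝ,
      (fun i => x i - a * (v i : ℝ) - b * (w i : ℝ)) ∈ D := by
  -- from a pair of vectors spanning together with `D`
  have key : ∀ v w : ι → ℤ, (D ⊔ Submodule.span ℝ {fun i => (v i : ℝ)}) ⊔
      Submodule.span ℝ {fun i => (w i : ℝ)} = ⊤ →
      ∀ x : ι → ℝ, ∃ a b : ℝ, (fun i => x i - a * (v i : ℝ) - b * (w i : ℝ)) ∈ D := by
    intro v w hvw x
    have hx : x ∈ (D ⊔ Submodule.span ℝ {fun i => (v i : ℝ)}) ⊔
      Submodule.span ℝ {fun i => (w i : ℝ)} := by rw [hvw]; trivial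
    obtain ⟨y, hy, z, hz, rfl⟩ := Submodule.mem_sup.mp hx
    obtain ⟨d, hd, y', hy', rfl⟩ := Submodule.mem_sup.mp hy
    obtain ⟨a, rfl⟩ := Submodule.mem_span_singleton.mp hy'
    obtain ⟨b, rfl⟩ := Submodule.mem_span_singleton.mp hz
    refine ⟨a, b, ?_⟩
    have : (fun i => (d + a • (fun i => (v i : ℝ)) + b • (fun i => (w i : ℝ)) : ι → ℝ) i -
        a * (v i : ℝ) - b * (w i : ℝ)) = d := by
      ext i
      simp only [Pi.add_apply, Pi.smul_apply, smul_eq_mul]
      ring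
    rw [this]
    exact hd
  by_cases h0 : D = ⊤
  · refine ⟨0, 0, key _ _ ?_⟩
    rw [h0, top_sup_eq, top_sup_eq]
  · obtain ⟨v, hv⟩ := one_more D h0
    by_cases h1 : D ⊔ Submodule.span ℝ {fun i => (v i : ℝ)} = ⊤
    · refine ⟨v, 0, key _ _ ?_⟩
      rw [h1, top_sup_eq]
    · obtain ⟨w, hw⟩ := one_more _ h1
      refine ⟨v, w, key _ _ ?_⟩
      apply Submodule.eq_top_of_finrank_eq
      refine le_antisymm (Submodule.finrank_le _) ?_
      rw [Module.finrank_fintype_fun_eq_card]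
      omega

end linalg

variable {k A : Type u} [Field k] [Ring A] [Algebra k A] {ι : Type} [Fintype ι]

theorem ProjBasis.cls_unique (B : ProjBasis k A ι) {F : Obj k A} {x y : ι → ℤ}
    (hx : B.Cls F x) (hy : B.Cls F y) : x = y := by
  funext i
  have h := B.inj_real (fun i => (x i : ℝ) - (y i : ℝ)) (fun X => by
    have h1 := congrArg (fun z : ℤ => (z : ℝ)) ((hx X).symm.trans (hy X))
    push_cast at h1
    simp only [sub_mul]
    rw [Finset.sum_sub_distrib, h1, sub_self]) i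
  have h2 : (x i : ℝ) = y i := by linarith
  exact_mod_cast h2

theorem ProjBasis.gvec_unique [Module.Finite k A] (B : ProjBasis k A ι) {V W : FM k A}
    {g h : ι → ℤ} (hg : B.IsGVec V g) (hh : B.IsGVec W h) (e : V.X ≃ₗ[A] W.X) : g = h := by
  obtain ⟨S⟩ := exists_minPres V
  have h1 := hg.cls S
  have h2 : B.Cls (S.congr e).obj h := hh.cls _
  exact B.cls_unique h1 h2

/-- a module is a retract of one of finitely many indecomposable modules -/
theorem iso_of_retract_pi {J : Type} [Fintype J] {V : J → FM k A} (hV : ∀ j, Indec A (V j).X)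
    {W : FM k A} (hW : Indec A W.X) (h : Retract A W.X ((j : J) → (V j).X)) :
    ∃ j, Nonempty (W.X ≃ₗ[A] (V j).X) := by
  obtain ⟨i, r, hir⟩ := h
  obtain ⟨j, hj⟩ := Retract.of_pi k hW i r hir
  exact ⟨j, hj.equiv (hV j) hW.1⟩

/-- the cone of a pair is contained in the span of the `g`-vectors of a fixed decomposition -/
theorem cone_le_span [Module.Finite k A] (B : ProjBasis k A ι) {V P : FM k A} {J J' : Type}
    [Fintype J] [Fintype J'] {V' : J → FM k A} {P' : J' → FM k A} {g : J → ι → ℤ}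
    {h : J' → ι → ℤ} (hV' : ∀ i, Indec A (V' i).X) (eV : V.X ≃ₗ[A] ((i : J) → (V' i).X))
    (hg : ∀ i, B.IsGVec (V' i) (g i)) (hP' : ∀ j, Indec A (P' j).X)
    (eP : P.X ≃ₗ[A] ((j : J') → (P' j).X)) (hh : ∀ j, B.IsGVec (P' j) (h j)) :
    Submodule.span ℝ (B.cone V P) ≤
      Submodule.span ℝ (Set.range fun j : J ⊕ J' => fun i => ((Sum.elim g h j i : ℤ) : ℝ)) := by
  classical
  rw [Submodule.span_le]
  rintro x ⟨I, I', fI, fI', V'', P'', g', h', α, β, hV'', ⟨eV'⟩, hg', hP'', ⟨eP'⟩, hh', hα, hβ, hx⟩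
  have h1 : ∀ i, ∃ j, g' i = g j := by
    intro i
    obtain ⟨j, ⟨e⟩⟩ := iso_of_retract_pi hV' (hV'' i)
      ((retract_pi V'' i).trans (Retract.of_equiv (eV'.symm ≪≫ₗ eV)))
    exact ⟨j, B.gvec_unique (hg' i) (hg j) e⟩
  have h2 : ∀ i, ∃ j, h' i = h j := by
    intro i
    obtain ⟨j, ⟨e⟩⟩ := iso_of_retract_pi hP' (hP'' i)
      ((retract_pi P'' i).trans (Retract.of_equiv (eP'.symm ≪≫ₗ eP)))
    exact ⟨j, B.gvec_unique (hh' i) (hh j) e⟩
  have h3 : x = ∑ i, α i • (fun l => (g' i l : ℝ)) - ∑ j, β j • (fun l => (h' j l : ℝ)) := by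
    funext l
    rw [hx l, Pi.sub_apply, Finset.sum_apply, Finset.sum_apply]
    rfl
  rw [h3]
  refine Submodule.sub_mem _ (Submodule.sum_mem _ fun i _ => Submodule.smul_mem _ _ ?_)
    (Submodule.sum_mem _ fun i _ => Submodule.smul_mem _ _ ?_)
  · obtain ⟨j, hj⟩ := h1 i
    rw [hj]
    exact Submodule.subset_span ⟨Sum.inl j, rfl⟩
  · obtain ⟨j, hj⟩ := h2 i
    rw [hj]
    exact Submodule.subset_span ⟨Sum.inr j, rfl⟩

/-- finiteness from a finite cover modulo the classes of a compatible family `Z` -/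
theorem fin_of_cover [Module.Finite k A] {J : Type} [Fintype J] (Z : J → Obj k A)
    (hZ : ∀ i j, ee (Z i) (Z j).M = 0) (L : List (Obj k A × Obj k A))
    (hL : ∀ p ∈ L, Rigid p.1 ∧ Rigid p.2 ∧ Cmp p.1 p.2 ∧ ∀ j, Cmp (Z j) p.1 ∧ Cmp (Z j) p.2) :
    ∃ (n : ℕ) (W : Fin n → FM k A), ∀ (X : FM k A) (S : MinPres X), Indec A X.X →
      ee S.obj X = 0 → (∀ j, Cmp (Z j) S.obj) →
      (∃ p ∈ L, ∃ s t : ℝ, 0 ≤ s ∧ 0 ≤ t ∧ ∃ c : J → ℝ, ∀ Y,
        (chi S.obj Y : ℝ) = s * chi p.1 Y + t * chi p.2 Y + ∑ j, c j * (chi (Z j) Y : ℝ)) →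
      ∃ i, Nonempty (X.X ≃ₗ[A] (W i).X) := by
  classical
  -- the list of all objects
  let T := (Fin L.length × Bool) ⊕ J
  let O : T → Obj k A := Sum.elim (fun q => if q.2 then (L.get q.1).1 else (L.get q.1).2) Z
  choose I fI V hV eV using fun q : T => exists_decomp (O q).M
  let TT := Σ q : T, I q
  let e : TT ≃ Fin (Fintype.card TT) := Fintype.equivFin TT
  refine ⟨Fintype.card TT, fun i => V (e.symm i).1 (e.symm i).2, ?_⟩
  intro X S hX hS hcmp ⟨p, hp, s, t, hs, ht, c, hc⟩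
  obtain ⟨l, rfl⟩ := List.get_of_mem hp
  obtain ⟨h1, h2, h3, h4⟩ := hL _ hp
  -- it suffices to find an object in the list of which `X` is a summand
  suffices h : ∃ q : T, Retract A X.X (O q).M.X by
    obtain ⟨q, hq⟩ := h
    obtain ⟨eq⟩ := eV q
    obtain ⟨i, hi⟩ := iso_of_retract_pi (hV q) hX (hq.trans (Retract.of_equiv eq))
    refine ⟨e ⟨q, i⟩, ?_⟩
    change Nonempty (X.X ≃ₗ[A] (V (e.symm (e ⟨q, i⟩)).1 (e.symm (e ⟨q, i⟩)).2).X)
    rw [Equiv.symm_apply_apply]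
    exact hi
  obtain ⟨N, hN⟩ : ∃ N : ℕ, ∀ j, |c j| ≤ N := by
    obtain ⟨N, hN⟩ := exists_nat_ge (∑ j, |c j|)
    exact ⟨N, fun j => (Finset.single_le_sum (f := fun j => |c j|)
      (fun i _ => abs_nonneg (c i)) (Finset.mem_univ j)).trans hN⟩
  -- the left hand side: `X ⊕ N U`
  let F : Obj k A := Obj.comb (Sum.elim (fun _ : Unit => S.obj) Z)
    (Sum.elim (fun _ => 1) fun _ => N)
  have hSX : ∀ G : Obj k A, ee G X = 0 ↔ ee G S.obj.M = 0 := fun G => by
    rw [ee_congr G (X := S.obj.M) (Y := X) S.iso]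
  have hF : Rigid F := by
    apply rigid_comb
    rintro (i | i) (j | j)
    · exact (hSX _).mp hS
    · exact (hcmp j).2
    · exact (hcmp i).1
    · exact hZ i j
  have hchiF : ∀ Y, chi F Y = chi S.obj Y + N * ∑ j, chi (Z j) Y := by
    intro Y
    rw [chi_comb, Fintype.sum_sum_type, Finset.mul_sum]
    simp
  have hXF : Retract A X.X F.M.X := by
    obtain ⟨eF⟩ := pi_M fun j : (Σ i : (Unit ⊕ J), Fin ((Sum.elim (fun _ => 1) fun _ => N :
      Unit ⊕ J → ℕ) i)) => (Sum.elim (fun _ : Unit => S.obj) Z : Unit ⊕ J → Obj k A) j.1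
    refine (Retract.of_equiv S.iso.symm).trans (Retract.trans ?_ (Retract.of_equiv eF.symm))
    exact retract_pi (fun j : (Σ i : (Unit ⊕ J), Fin ((Sum.elim (fun _ => 1) fun _ => N :
      Unit ⊕ J → ℕ) i)) => ((Sum.elim (fun _ : Unit => S.obj) Z : Unit ⊕ J → Obj k A) j.1).M)
      ⟨Sum.inl (), (⟨0, Nat.one_pos⟩ : Fin 1)⟩
  -- the right hand side
  let Z' : Bool ⊕ J → Obj k A := Sum.elim (fun b => if b then (L.get l).1 else (L.get l).2) Z
  let α : Bool ⊕ J → ℝ := Sum.elim (fun b => if b then s else t) fun j => N + c j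
  obtain ⟨q, hq⟩ := retract_cone Z' (by
    rintro ((_ | _) | i) ((_ | _) | j)
    · exact h2
    · exact h3.2
    · exact (h4 j).2.2
    · exact h3.1
    · exact h1
    · exact (h4 j).1.2
    · exact (h4 i).2.1
    · exact (h4 i).1.1
    · exact hZ i j) α (by
    rintro ((_ | _) | j)
    · exact ht
    · exact hs
    · change 0 ≤ (N : ℝ) + c j
      have := neg_le_of_abs_le (hN j)
      linarith) F hF (by
    intro Y
    rw [hchiF, Fintype.sum_sum_type]
    push_cast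
    rw [hc Y, Finset.mul_sum]
    have e1 : ∑ b : Bool, α (Sum.inl b) * (chi (Z' (Sum.inl b)) Y : ℝ) =
        s * chi (L.get l).1 Y + t * chi (L.get l).2 Y := by
      rw [Fintype.sum_bool]
      rfl
    rw [e1]
    have e2 : ∑ j, α (Sum.inr j) * (chi (Z' (Sum.inr j)) Y : ℝ) =
        ∑ j, (N : ℝ) * (chi (Z j) Y : ℝ) + ∑ j, c j * (chi (Z j) Y : ℝ) := by
      rw [← Finset.sum_add_distrib]
      refine Finset.sum_congr rfl fun j _ => ?_
      change ((N : ℝ) + c j) * (chi (Z j) Y : ℝ) = _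
      ring
    rw [e2]
    ring) X hX hXF
  rcases q with b | j
  · exact ⟨Sum.inl (l, b), hq⟩
  · exact ⟨Sum.inr j, hq⟩

end Pool.Agent.Helper391_TT
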