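import Pool.Agent.Helper391_TT.Sums

set_option autoImplicit false

/-!
Rigid objects whose class lies in the real cone spanned by compatible rigid objects.
-/

namespace Pool.Agent.Helper391_TT

universe u

variable {k A : Type u} [Field k] [Ring A] [Algebra k A]

theorem hh_pi_zero {J : Type} [Fintype J] (Z : J → Obj k A) (X : FM k A)
    (h : hh (Obj.pi Z) X = 0) (j : J) : hh (Z j) X = 0 := by
  classical
  rw [hh_eq] at h ⊢
  obtain ⟨e⟩ := pi_M Z
  have h2 : dd (Z j).M X ≤ dd (Obj.pi Z).M X := by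
    refine dd_le_of_surj (X := (Obj.pi Z).M) (Y := (Z j).M)
      ((LinearMap.proj j) ∘ₗ e.toLinearMap) ?_
    intro y
    refine ⟨e.symm (Pi.single j y), ?_⟩
    simp
  omega

/-- the torsion class of `F` is contained in that of the `Zⱼ` -/
theorem cone_tors {J : Type} [Fintype J] (Z : J → Obj k A)
    (hZ : ∀ i j, ee (Z i) (Z j).M = 0) (α : J → ℝ) (hα : ∀ j, 0 < α j) (F : Obj k A)
    (hc : ∀ X, (chi F X : ℝ) = ∑ j, α j * chi (Z j) X) (X : FM k A)
    (hX : ee F X = 0) : ee (Obj.pi Z) X = 0 := by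
  obtain ⟨K, hK, hQ⟩ := exists_torsion (Obj.pi Z) (rigid_pi Z hZ) X
  refine ee_zero_of_ext _ X K hK ?_
  rw [ee_pi_iff]
  have h1 : ∀ j, (chi (Z j) (X.quo K) : ℝ) = - (ee (Z j) (X.quo K) : ℝ) := by
    intro j
    have e1 := hh_sub_ee (Z j) (X.quo K)
    have e2 := hh_pi_zero Z _ hQ j
    rw [← e1, e2]
    push_cast
    ring
  have h2 : (0 : ℝ) ≤ chi F (X.quo K) := by
    have e1 := hh_sub_ee F (X.quo K)
    have e2 := ee_le_of_surj F (X := X) (Y := X.quo K) K.mkQ K.mkQ_surjective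
    have : (0 : ℤ) ≤ chi F (X.quo K) := by omega
    exact_mod_cast this
  rw [hc] at h2
  intro j
  by_contra hj
  have h3 : ∑ j, α j * (chi (Z j) (X.quo K) : ℝ) < 0 := by
    have h4 : ∀ i ∈ Finset.univ, α i * (chi (Z i) (X.quo K) : ℝ) ≤ 0 := by
      intro i _
      rw [h1]
      have : (0 : ℝ) ≤ ee (Z i) (X.quo K) := Nat.cast_nonneg _
      nlinarith [hα i]
    refine Finset.sum_neg' h4 ⟨j, Finset.mem_univ _, ?_⟩
    rw [h1]
    have : (0 : ℝ) < ee (Z j) (X.quo K) := by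
      exact_mod_cast Nat.pos_of_ne_zero hj
    nlinarith [hα j]
  linarith

theorem retract_of_cone {J : Type} [Fintype J] (Z : J → Obj k A)
    (hZ : ∀ i j, ee (Z i) (Z j).M = 0) (α : J → ℝ) (hα : ∀ j, 0 < α j) (F : Obj k A)
    (hF : Rigid F) (hc : ∀ X, (chi F X : ℝ) = ∑ j, α j * chi (Z j) X) :
    ∃ r : ℕ, Retract A F.M.X (Fin r → (Obj.pi Z).M.X) := by
  have hT : ∀ X, ee (Obj.pi Z) X = 0 → ee F X = 0 := by
    intro X hX
    rw [ee_pi_iff] at hX
    refine ee_zero_of_chi F hF X fun K => ?_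
    have h1 : (0 : ℝ) ≤ chi F (X.quo K) := by
      rw [hc]
      refine Finset.sum_nonneg fun j _ => ?_
      have e1 := hh_sub_ee (Z j) (X.quo K)
      have e2 := ee_le_of_surj (Z j) (X := X) (Y := X.quo K) K.mkQ K.mkQ_surjective
      have e3 := hX j
      have : (0 : ℤ) ≤ chi (Z j) (X.quo K) := by omega
      have : (0 : ℝ) ≤ chi (Z j) (X.quo K) := by exact_mod_cast this
      exact mul_nonneg (hα j).le this
    exact_mod_cast h1
  refine retract_of F (Obj.pi Z) hF (rigid_pi Z hZ) (cone_tors Z hZ α hα F hc _ hF) hT ?_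
  intro X hX hX'
  have h2 := hT X hX
  have h3 : (chi F X : ℝ) = 0 := by
    rw [hc]
    refine Finset.sum_eq_zero fun j _ => ?_
    have e1 := hh_sub_ee (Z j) X
    have e2 := hh_pi_zero Z _ hX' j
    rw [ee_pi_iff] at hX
    have e3 := hX j
    have : chi (Z j) X = 0 := by omega
    rw [this]
    simp
  have h4 : chi F X = 0 := by exact_mod_cast h3
  have e1 := hh_sub_ee F X
  omega

/-- an indecomposable summand of a rigid object in the real cone of the `Zⱼ` is a summand of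
one of the `M_{Zⱼ}` -/
theorem retract_cone {J : Type} [Fintype J] (Z : J → Obj k A)
    (hZ : ∀ i j, ee (Z i) (Z j).M = 0) (α : J → ℝ) (hα : ∀ j, 0 ≤ α j) (F : Obj k A)
    (hF : Rigid F) (hc : ∀ X, (chi F X : ℝ) = ∑ j, α j * chi (Z j) X)
    (V : FM k A) (hV : Indec A V.X) (h : Retract A V.X F.M.X) :
    ∃ j, Retract A V.X (Z j).M.X := by
  classical
  let J' := {j : J // 0 < α j}
  let _ : Fintype J' := Fintype.ofFinite _
  obtain ⟨r, hr⟩ := retract_of_cone (fun j : J' => Z j.1) (fun i j => hZ i.1 j.1)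
    (fun j => α j.1) (fun j => j.2) F hF (by
      intro X
      rw [hc]
      have h1 : ∑ j ∈ Finset.univ.filter (fun j => 0 < α j), α j * (chi (Z j) X : ℝ) =
          ∑ j, α j * (chi (Z j) X : ℝ) := by
        refine Finset.sum_filter_of_ne fun j _ hj => ?_
        refine lt_of_le_of_ne (hα j) fun h0 => hj ?_
        rw [← h0, zero_mul]
      rw [← h1]
      refine Finset.sum_subtype _ (fun j => ?_) _
      simp)
  obtain ⟨i₁, r₁, h₁⟩ := h.trans hr
  obtain ⟨-, hr⟩ := Retract.of_pi k hV i₁ r₁ h₁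
  obtain ⟨e⟩ := pi_M fun j : J' => Z j.1
  obtain ⟨i₂, r₂, h₂⟩ := hr.trans (Retract.of_equiv e)
  obtain ⟨j, hj⟩ := Retract.of_pi k hV i₂ r₂ h₂
  exact ⟨j.1, hj⟩

end Pool.Agent.Helper391_TT
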