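import Pool.Agent.Helper391_TT.Lattice

set_option autoImplicit false

/-!
Passing between points of the fan and rigid objects.
-/

namespace Pool.Agent.Helper391_TT

universe u

variable {k A : Type u} [Field k] [Ring A] [Algebra k A]

/-- the zero module -/
abbrev FM.zero (k A : Type u) [Field k] [Ring A] [Algebra k A] : FM k A := ⟨PUnit.{u + 1}⟩

/-- the object `P → 0` -/
abbrev Obj.shift (P : FM k A) (hP : Module.Projective A P.X) : Obj k A where
  Q := P
  P := FM.zero k A
  f := 0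
  pQ := hP
  pP := inferInstance

/-- the object `0 → P` -/
abbrev Obj.stalk (P : FM k A) (hP : Module.Projective A P.X) : Obj k A where
  Q := FM.zero k A
  P := P
  f := 0
  pQ := inferInstance
  pP := hP

theorem dd_zero_left (X : FM k A) : dd (FM.zero k A) X = 0 := by
  apply dd_eq_zero_of
  intro φ
  ext x
  rw [Subsingleton.elim x 0, map_zero, map_zero]

theorem chi_shift (P : FM k A) (hP : Module.Projective A P.X) (X : FM k A) :
    chi (Obj.shift P hP) X = - (dd P X : ℤ) := by
  unfold chi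
  rw [dd_zero_left]
  simp

theorem chi_stalk (P : FM k A) (hP : Module.Projective A P.X) (X : FM k A) :
    chi (Obj.stalk P hP) X = (dd P X : ℤ) := by
  unfold chi
  rw [dd_zero_left]
  simp

theorem ee_shift (P : FM k A) (hP : Module.Projective A P.X) (X : FM k A)
    (h : dd P X = 0) : ee (Obj.shift P hP) X = 0 := by
  rw [ee_eq_zero_iff]
  intro φ
  exact ⟨0, by rw [dd_eq_zero h φ]; rfl⟩

theorem ee_stalk (P : FM k A) (hP : Module.Projective A P.X) (X : FM k A) :
    ee (Obj.stalk P hP) X = 0 := by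
  rw [ee_eq_zero_iff]
  intro φ
  refine ⟨0, ?_⟩
  ext x
  rw [Subsingleton.elim x 0, map_zero, map_zero]

theorem ee_subsingleton (F : Obj k A) (X : FM k A) (h : Subsingleton X.X) : ee F X = 0 := by
  rw [ee_eq_zero_iff]
  intro φ
  exact ⟨0, LinearMap.ext fun x => Subsingleton.elim _ _⟩

theorem shift_M (P : FM k A) (hP : Module.Projective A P.X) :
    Subsingleton (Obj.shift P hP).M.X := by
  constructor
  intro a b
  obtain ⟨x, rfl⟩ := (Obj.shift P hP).pr_surj a
  obtain ⟨y, rfl⟩ := (Obj.shift P hP).pr_surj b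
  congr 1

/-- the minimal presentation of a projective module -/
def MinPres.ofProj (P : FM k A) (hP : Module.Projective A P.X) : MinPres P where
  P₁ := FM.zero k A
  P₀ := P
  pP₁ := inferInstance
  pP₀ := hP
  f := 0
  π := LinearMap.id
  surj := Function.surjective_id
  exact := by rw [LinearMap.range_zero, LinearMap.ker_id]
  min₀ := by rw [LinearMap.ker_id]; exact small_bot
  min₁ := by
    intro K _
    rw [eq_top_iff]
    intro x _
    rw [Subsingleton.elim x 0]
    exact K.zero_mem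

theorem MinPres.chi_proj {P : FM k A} (S : MinPres P) (hP : Module.Projective A P.X)
    (X : FM k A) : chi S.obj X = dd P X := by
  rw [S.chi_unique (MinPres.ofProj P hP) (LinearEquiv.refl A P.X) X]
  exact chi_stalk P hP X

theorem isTauRigid_iff [Module.Finite k A] (V : FM k A) :
    IsTauRigid V ↔ ∃ S : MinPres V, ee S.obj V = 0 := by
  unfold IsTauRigid
  refine exists_congr fun S => ?_
  rw [ee_eq_dd]
  constructor
  · intro h
    exact dd_eq_zero_of h
  · intro h φ
    exact dd_eq_zero (X := V) (Y := S.obj.N) h φ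

theorem MinPres.comp_zero {V : FM k A} (S : MinPres V) (x : S.P₁.X) : S.π (S.f x) = 0 := by
  have : S.f x ∈ LinearMap.ker S.π := S.exact ▸ ⟨x, rfl⟩
  exact this

theorem MinPres.ex {V : FM k A} (S : MinPres V) (x : S.P₀.X) (h : S.π x = 0) :
    ∃ y, S.f y = x := by
  have : x ∈ LinearMap.ker S.π := h
  rw [← S.exact] at this
  exact this

/-- retracts of a module without `E` -/
theorem MinPres.ee_retract {V W : FM k A} (S : MinPres V) (T : MinPres W)
    (hr : Retract A W.X V.X) (X : FM k A) (hX : ee S.obj X = 0) : ee T.obj X = 0 :=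
  T.ee_zero S.obj S.π S.comp_zero S.ex S.surj hr X hX

theorem ee_of_retract (F : Obj k A) {X Y : FM k A} (hr : Retract A Y.X X.X) (h : ee F X = 0) :
    ee F Y = 0 := by
  obtain ⟨i, r, hir⟩ := hr
  have h1 := ee_le_of_surj F (X := X) (Y := Y) r fun y => ⟨i y, LinearMap.congr_fun hir y⟩
  omega

theorem hom_zero_retract {P V P' V' : FM k A} (h : ∀ φ : P.X →ₗ[A] V.X, φ = 0)
    (hP : Retract A P'.X P.X) (hV : Retract A V'.X V.X) : ∀ φ : P'.X →ₗ[A] V'.X, φ = 0 := by
  intro φ
  obtain ⟨i, r, hir⟩ := hP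
  obtain ⟨i', r', hir'⟩ := hV
  have h1 := h (i' ∘ₗ φ ∘ₗ r)
  refine LinearMap.ext fun x => ?_
  have h2 : i' (φ (r (i x))) = 0 := LinearMap.congr_fun h1 (i x)
  have h3 : r (i x) = x := LinearMap.congr_fun hir x
  have h4 : r' (i' (φ x)) = φ x := LinearMap.congr_fun hir' (φ x)
  rw [h3] at h2
  rw [← h4, h2, map_zero]
  rfl

variable {ι : Type} [Fintype ι]

/-- the class of `F` is `x` -/
def ProjBasis.Cls (B : ProjBasis k A ι) (F : Obj k A) (x : ι → ℤ) : Prop :=
  ∀ X, chi F X = ∑ i, x i * (dd (B.P i) X : ℤ)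

theorem ProjBasis.IsGVec.cls {B : ProjBasis k A ι} {V : FM k A} {g : ι → ℤ}
    (h : B.IsGVec V g) (S : MinPres V) : B.Cls S.obj g := by
  obtain ⟨T, a, b, ha, hb, hg⟩ := h
  intro X
  rw [S.chi_unique T (LinearEquiv.refl A V.X) X]
  unfold chi
  rw [ha.dd_eq, hb.dd_eq]
  push_cast
  rw [← Finset.sum_sub_distrib]
  exact Finset.sum_congr rfl fun i _ => by rw [hg]; ring

omit [Fintype ι] in
theorem ProjBasis.exists_gvec [Module.Finite k A] (B : ProjBasis k A ι) (V : FM k A) :
    ∃ g, B.IsGVec V g := by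
  obtain ⟨S⟩ := exists_minPres V
  obtain ⟨a, ha⟩ := B.exists_class S.P₀ S.pP₀
  obtain ⟨b, hb⟩ := B.exists_class S.P₁ S.pP₁
  exact ⟨fun i => (a i : ℤ) - b i, S, a, b, ha, hb, fun i => rfl⟩

/-- (C1) an integral point of the fan is the class of a rigid object -/
theorem rigid_of_mem [Module.Finite k A] (B : ProjBasis k A ι) (x : ι → ℤ)
    (hx : (fun i => (x i : ℝ)) ∈ B.gFan) : ∃ F : Obj k A, Rigid F ∧ B.Cls F x := by
  classical
  obtain ⟨V, P, ⟨hV, hP, hPV⟩, J, J', fJ, fJ', V', P', g, h, α, β, hV', ⟨eV⟩, hg, hP', ⟨eP⟩, hh,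
    hα, hβ, hsum⟩ := hx
  rw [isTauRigid_iff] at hV
  obtain ⟨S₀, hS₀⟩ := hV
  have S : (j : J) → MinPres (V' j) := fun j => Classical.choice (exists_minPres (V' j))
  have hretV : ∀ j, Retract A (V' j).X V.X := fun j =>
    (retract_pi V' j).trans (Retract.of_equiv eV.symm)
  have hretP : ∀ j, Retract A (P' j).X P.X := fun j =>
    (retract_pi P' j).trans (Retract.of_equiv eP.symm)
  have hcmp : ∀ i j, ee (S i).obj (V' j) = 0 := fun i j =>
    ee_of_retract _ (hretV j) (S₀.ee_retract (S i) (hretV i) V hS₀)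
  have hP'p : ∀ j, Module.Projective A (P' j).X := fun j => proj_of_retract (hretP j)
  choose c hc using fun j => B.all (P' j) (hP'p j) (hP' j)
  let β' : ι → ℝ := fun i => ∑ j, if c j = i then β j else 0
  have hβ' : ∀ i, 0 ≤ β' i := fun i => Finset.sum_nonneg fun j _ => by
    split_ifs
    · exact hβ j
    · exact le_rfl
  have hβ0 : ∀ i, β' i ≠ 0 → ∀ j, dd (B.P i) (V' j) = 0 := by
    intro i hi j
    obtain ⟨j', -, hj'⟩ := Finset.exists_ne_zero_of_sum_ne_zero hi
    have h1 : c j' = i := by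
      by_contra h2
      exact hj' (if_neg h2)
    obtain ⟨e⟩ := hc j'
    rw [h1] at e
    exact dd_eq_zero_of (hom_zero_retract (P := P) (V := V) (P' := B.P i) (V' := V' j) hPV
      ((Retract.of_equiv e.symm).trans (hretP j')) (hretV j))
  obtain ⟨n, m, hm, hnm⟩ := integral_aux B V' hV' S hcmp α hα β' hβ' hβ0
    (Finset.univ : Finset J).card Finset.univ x le_rfl (by
    intro X
    have h1 : ∑ i, β' i * (dd (B.P i) X : ℝ) = ∑ j, β j * (dd (P' j) X : ℝ) := by
      have h2 : ∀ i, β' i * (dd (B.P i) X : ℝ) =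
          ∑ j, (if c j = i then β j * (dd (B.P i) X : ℝ) else 0) := by
        intro i
        rw [Finset.sum_mul]
        refine Finset.sum_congr rfl fun j _ => ?_
        split_ifs
        · rfl
        · rw [zero_mul]
      rw [Finset.sum_congr rfl fun i _ => h2 i, Finset.sum_comm]
      refine Finset.sum_congr rfl fun j _ => ?_
      rw [Finset.sum_ite_eq Finset.univ (c j), if_pos (Finset.mem_univ _)]
      obtain ⟨e⟩ := hc j
      rw [dd_congr_left (V := P' j) (W := B.P (c j)) e]
    rw [h1]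
    have h3 : ∀ j, (chi (S j).obj X : ℝ) = ∑ i, (g j i : ℝ) * (dd (B.P i) X : ℝ) := by
      intro j
      rw [(hg j).cls (S j) X]
      push_cast
      rfl
    have h4 : ∀ j, (dd (P' j) X : ℝ) = ∑ i, (h j i : ℝ) * (dd (B.P i) X : ℝ) := by
      intro j
      have e1 := (hh j).cls (MinPres.ofProj (P' j) (hP'p j)) X
      rw [MinPres.chi_proj _ (hP'p j)] at e1
      have e2 := congrArg (fun z : ℤ => (z : ℝ)) e1
      push_cast at e2
      exact e2
    have h5 : ∀ i, (x i : ℝ) * (dd (B.P i) X : ℝ) = ∑ j, α j * ((g j i : ℝ) * dd (B.P i) X) -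
        ∑ j, β j * ((h j i : ℝ) * dd (B.P i) X) := by
      intro i
      have h6 : (x i : ℝ) = ∑ j, α j * (g j i : ℝ) - ∑ j, β j * (h j i : ℝ) := hsum i
      rw [h6, sub_mul, Finset.sum_mul, Finset.sum_mul]
      congr 1
      · exact Finset.sum_congr rfl fun j _ => by ring
      · exact Finset.sum_congr rfl fun j _ => by ring
    rw [Finset.sum_congr rfl fun i _ => h5 i, Finset.sum_sub_distrib, Finset.sum_comm,
      Finset.sum_comm (f := fun i j => β j * ((h j i : ℝ) * dd (B.P i) X))]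
    congr 1
    · refine Finset.sum_congr rfl fun j _ => ?_
      rw [h3, Finset.mul_sum]
    · refine Finset.sum_congr rfl fun j _ => ?_
      rw [h4, Finset.mul_sum])
  -- the object
  let L := {i : ι // β' i ≠ 0}
  let Z : J ⊕ L → Obj k A := Sum.elim (fun j => (S j).obj) fun i => Obj.shift (B.P i.1)
    (B.proj i.1)
  let N : J ⊕ L → ℕ := Sum.elim n fun i => m i.1
  have hZV : ∀ j, Nonempty ((Z (Sum.inl j)).M.X ≃ₗ[A] (V' j).X) := fun j => ⟨(S j).iso⟩
  refine ⟨Obj.comb Z N, rigid_comb Z N ?_, fun X => ?_⟩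
  · rintro (i | i) (j | j)
    · obtain ⟨e⟩ := hZV j
      rw [ee_congr (Z (Sum.inl i)) (X := (Z (Sum.inl j)).M) (Y := V' j) e]
      exact hcmp i j
    · exact ee_subsingleton _ _ (shift_M (B.P j.1) (B.proj j.1))
    · obtain ⟨e⟩ := hZV j
      rw [ee_congr (Z (Sum.inr i)) (X := (Z (Sum.inl j)).M) (Y := V' j) e]
      exact ee_shift _ (B.proj i.1) _ (hβ0 i.1 i.2 j)
    · exact ee_subsingleton _ _ (shift_M (B.P j.1) (B.proj j.1))
  · rw [chi_comb, Fintype.sum_sum_type, hnm X, sub_eq_add_neg]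
    congr 1
    have h1 : ∑ i ∈ Finset.univ.filter (fun i => β' i ≠ 0), (m i : ℤ) * (dd (B.P i) X : ℤ) =
        ∑ i, (m i : ℤ) * (dd (B.P i) X : ℤ) := by
      refine Finset.sum_filter_of_ne fun i _ hi => hm i fun h0 => hi ?_
      rw [h0]
      simp
    rw [← h1, Finset.sum_subtype (p := fun i => β' i ≠ 0) _ (fun i => by simp),
      ← Finset.sum_neg_distrib]
    refine Finset.sum_congr rfl fun i _ => ?_
    change (m i.1 : ℤ) * chi (Obj.shift (B.P i.1) (B.proj i.1)) X = _
    rw [chi_shift]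
    ring

end Pool.Agent.Helper391_TT
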