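import Mathlib

set_option autoImplicit false

/-!
The definitions used in the statements: finite dimensional modules, `τ`-rigid modules and pairs,
`g`-vectors, the cones `C(V, P)`, the `g`-vector fan, `τ`-tilting finiteness.
-/

namespace Pool.Agent.Helper391_TT

universe u

/-- a nonzero module without a nontrivial direct sum decomposition -/
def Indec (A : Type u) [Ring A] (M : Type u) [AddCommGroup M] [Module A M] : Prop :=
  Nontrivial M ∧ ∀ N₁ N₂ : Submodule A M, IsCompl N₁ N₂ → N₁ = ⊥ ∨ N₂ = ⊥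

/-- finite dimensional (equivalently, for a finite dimensional algebra `A`, finitely generated)
`A`-modules; the `k`-structure is the one induced by `k → A`, by `IsScalarTower k A X` -/
structure FM (k A : Type u) [Field k] [Ring A] [Algebra k A] : Type (u + 1) where
  X : Type u
  [ab : AddCommGroup X]
  [mk' : Module k X]
  [mA : Module A X]
  [tw : IsScalarTower k A X]
  [fd : Module.Finite k X]

attribute [instance] FM.ab FM.mk' FM.mA FM.tw FM.fd

section defs

variable (k : Type u) {A : Type u} [Field k] [Ring A] [Algebra k A]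
  {Q P : Type u} [AddCommGroup Q] [Module A Q] [AddCommGroup P] [Module A P]

/-- right multiplication by `a` on `Hom_A(Q, A)`: `h ↦ (x ↦ h(x) a)` -/
def rmul (Q : Type u) [AddCommGroup Q] [Module A Q] (a : A) : (Q →ₗ[A] A) →ₗ[k] (Q →ₗ[A] A) :=
  LinearMap.compRight k (LinearMap.toSpanSingleton A A a)

theorem rmul_apply (a : A) (h : Q →ₗ[A] A) (x : Q) : rmul k Q a h x = h x * a := rfl

variable (A) in
/-- `D Hom_A(Q, A)`, where `D` is the duality over the field `k` -/
def Nu (Q : Type u) [AddCommGroup Q] [Module A Q] : Type u := Module.Dual k (Q →ₗ[A] A)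

instance nuGroup : AddCommGroup (Nu k A Q) := LinearMap.addCommGroup

instance nuModule : Module k (Nu k A Q) := LinearMap.module

/-- evaluation of an element of `D Hom_A(Q, A)` -/
def Nu.ev (φ : Nu k A Q) (h : Q →ₗ[A] A) : k := (show Module.Dual k (Q →ₗ[A] A) from φ) h

theorem Nu.ext' {φ ψ : Nu k A Q} (h : ∀ x, Nu.ev k φ x = Nu.ev k ψ x) : φ = ψ :=
  LinearMap.ext h

theorem Nu.ev_add (φ : Nu k A Q) (h h' : Q →ₗ[A] A) :
    Nu.ev k φ (h + h') = Nu.ev k φ h + Nu.ev k φ h' :=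
  map_add (show Module.Dual k (Q →ₗ[A] A) from φ) h h'

theorem Nu.ev_smul (φ : Nu k A Q) (c : k) (h : Q →ₗ[A] A) :
    Nu.ev k φ (c • h) = c • Nu.ev k φ h :=
  map_smul (show Module.Dual k (Q →ₗ[A] A) from φ) c h

/-- the left action of `A` on `D Hom_A(Q, A)`: `(a φ)(h) = φ(h a)` -/
instance nuAction : Module A (Nu k A Q) where
  smul a φ := LinearMap.comp (show Module.Dual k (Q →ₗ[A] A) from φ) (rmul k Q a)
  one_smul φ := by
    refine Nu.ext' k fun h => ?_
    change Nu.ev k φ (rmul k Q 1 h) = Nu.ev k φ h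
    congr 1
    ext x
    simp [rmul_apply]
  mul_smul a b φ := by
    refine Nu.ext' k fun h => ?_
    change Nu.ev k φ (rmul k Q (a * b) h) = Nu.ev k φ (rmul k Q b (rmul k Q a h))
    congr 1
    ext x
    simp [rmul_apply, mul_assoc]
  smul_zero a := rfl
  smul_add a φ ψ := rfl
  add_smul a b φ := by
    refine Nu.ext' k fun h => ?_
    change Nu.ev k φ (rmul k Q (a + b) h) = Nu.ev k φ (rmul k Q a h) + Nu.ev k φ (rmul k Q b h)
    rw [← Nu.ev_add]
    congr 1
    ext x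
    simp [rmul_apply, mul_add]
  zero_smul φ := by
    refine Nu.ext' k fun h => ?_
    change Nu.ev k φ (rmul k Q 0 h) = 0
    have : rmul k Q 0 h = 0 := by
      ext x
      simp [rmul_apply]
    rw [this]
    exact map_zero (show Module.Dual k (Q →ₗ[A] A) from φ)

theorem Nu.ev_act (a : A) (φ : Nu k A Q) (h : Q →ₗ[A] A) :
    Nu.ev k (a • φ) h = Nu.ev k φ (rmul k Q a h) := rfl

instance : IsScalarTower k A (Nu k A Q) where
  smul_assoc c a φ := by
    refine Nu.ext' k fun h => ?_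
    change Nu.ev k φ (rmul k Q (c • a) h) = c • Nu.ev k φ (rmul k Q a h)
    rw [← Nu.ev_smul]
    congr 1
    ext x
    simp [rmul_apply]

/-- the kernel of `D Hom_A(Q, A) → D Hom_A(P, A)`, for `f : Q → P` -/
def tauSub (f : Q →ₗ[A] P) : Submodule A (Nu k A Q) where
  carrier := {φ | ∀ g : P →ₗ[A] A, Nu.ev k φ (g ∘ₗ f) = 0}
  zero_mem' := fun _ => rfl
  add_mem' := by
    intro φ ψ hφ hψ g
    change Nu.ev k φ (g ∘ₗ f) + Nu.ev k ψ (g ∘ₗ f) = 0
    rw [hφ g, hψ g, add_zero]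
  smul_mem' := by
    intro a φ hφ g
    exact hφ ((LinearMap.toSpanSingleton A A a) ∘ₗ g)

end defs

section small

variable {A : Type u} [Ring A]

/-- superfluous submodules -/
def Small {M : Type u} [AddCommGroup M] [Module A M] (N : Submodule A M) : Prop :=
  ∀ K : Submodule A M, N ⊔ K = ⊤ → K = ⊤

end small

variable {k A : Type u} [Field k] [Ring A] [Algebra k A]

/-- the product of two modules, as an object -/
abbrev FM.prod (X Y : FM k A) : FM k A := ⟨X.X × Y.X⟩

/-- a minimal projective presentation `P₁ → P₀ → V → 0` -/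
structure MinPres (V : FM k A) where
  P₁ : FM k A
  P₀ : FM k A
  pP₁ : Module.Projective A P₁.X
  pP₀ : Module.Projective A P₀.X
  f : P₁.X →ₗ[A] P₀.X
  π : P₀.X →ₗ[A] V.X
  surj : Function.Surjective π
  exact : LinearMap.range f = LinearMap.ker π
  min₀ : Small (LinearMap.ker π)
  min₁ : Small (LinearMap.ker f)

attribute [instance] MinPres.pP₁ MinPres.pP₀

/-- representatives of the indecomposable projective modules, indexed by `ι` -/
structure ProjBasis (k A : Type u) [Field k] [Ring A] [Algebra k A] (ι : Type) where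
  P : ι → FM k A
  proj : ∀ i, Module.Projective A (P i).X
  indec : ∀ i, Indec A (P i).X
  inj : ∀ i j, Nonempty ((P i).X ≃ₗ[A] (P j).X) → i = j
  all : ∀ W : FM k A, Module.Projective A W.X → Indec A W.X →
    ∃ i, Nonempty (W.X ≃ₗ[A] (P i).X)

variable {ι : Type}

/-- `Q ≅ P_{c 1} ⊕ ... ⊕ P_{c n}` where `c` takes the value `i` exactly `a i` times -/
def ProjBasis.HasClass (B : ProjBasis k A ι) (Q : FM k A) (a : ι → ℕ) : Prop :=
  ∃ (n : ℕ) (c : Fin n → ι), Nonempty (Q.X ≃ₗ[A] ((j : Fin n) → (B.P (c j)).X)) ∧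
    ∀ i, a i = Nat.card {j : Fin n // c j = i}

/-- `Hom_A(M, N) = 0` -/
def HomZero (A M N : Type u) [Ring A] [AddCommGroup M] [Module A M] [AddCommGroup N]
    [Module A N] : Prop := ∀ φ : M →ₗ[A] N, φ = 0

/-- `τ V`, computed from the minimal projective presentation `S : P₁ → P₀ → V → 0`: the kernel of
`D Hom_A(P₁, A) → D Hom_A(P₀, A)` -/
abbrev MinPres.tau {V : FM k A} (S : MinPres V) : Submodule A (Nu k A S.P₁.X) :=
  tauSub k S.f

/-- `V` is `τ`-rigid: `Hom_A(V, τ V) = 0` -/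
def IsTauRigid (V : FM k A) : Prop :=
  ∃ S : MinPres V, HomZero A V.X S.tau

/-- `(V, P)` is a `τ`-rigid pair: `V` is `τ`-rigid, `P` is projective and `Hom_A(P, V) = 0` -/
def IsTauRigidPair (V P : FM k A) : Prop :=
  IsTauRigid V ∧ Module.Projective A P.X ∧ HomZero A P.X V.X

/-- `A` is `τ`-tilting finite -/
def TauTiltingFinite (k A : Type u) [Field k] [Ring A] [Algebra k A] : Prop :=
  ∃ (n : ℕ) (W : Fin n → FM k A), ∀ V : FM k A, Indec A V.X → IsTauRigid V →
    ∃ i, Nonempty (V.X ≃ₗ[A] (W i).X)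

/-- `g` is the `g`-vector `[P₀] - [P₁]` of `V` -/
def ProjBasis.IsGVec (B : ProjBasis k A ι) (V : FM k A) (g : ι → ℤ) : Prop :=
  ∃ (S : MinPres V) (a b : ι → ℕ), B.HasClass S.P₀ a ∧ B.HasClass S.P₁ b ∧
    ∀ i, g i = (a i : ℤ) - b i

/-- the cone `C(V, P)`: all `∑ αᵢ g(Vᵢ) - ∑ βⱼ g(Pⱼ)` with `α, β ≥ 0`, for decompositions
`V ≅ ⊕ Vᵢ`, `P ≅ ⊕ Pⱼ` into indecomposable modules -/
def ProjBasis.cone (B : ProjBasis k A ι) (V P : FM k A) : Set (ι → ℝ) :=
  {x | ∃ (J J' : Type) (_ : Fintype J) (_ : Fintype J') (V' : J → FM k A) (P' : J' → FM k A)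
    (g : J → ι → ℤ) (h : J' → ι → ℤ) (α : J → ℝ) (β : J' → ℝ),
    (∀ i, Indec A (V' i).X) ∧ Nonempty (V.X ≃ₗ[A] ((i : J) → (V' i).X)) ∧
    (∀ i, B.IsGVec (V' i) (g i)) ∧
    (∀ j, Indec A (P' j).X) ∧ Nonempty (P.X ≃ₗ[A] ((j : J') → (P' j).X)) ∧
    (∀ j, B.IsGVec (P' j) (h j)) ∧
    (∀ i, 0 ≤ α i) ∧ (∀ j, 0 ≤ β j) ∧
    ∀ l, x l = ∑ i, α i * (g i l : ℝ) - ∑ j, β j * (h j l : ℝ)}

/-- the `g`-vector fan `Σ(A)`: the union of the cones of the `τ`-rigid pairs -/
def ProjBasis.gFan (B : ProjBasis k A ι) : Set (ι → ℝ) :=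
  {x | ∃ V P : FM k A, IsTauRigidPair V P ∧ x ∈ B.cone V P}

end Pool.Agent.Helper391_TT
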