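import Pool.Agent.Helper391_TT.Basic

set_option autoImplicit false

/-!
Decomposition of finite dimensional modules into indecomposable ones.
-/

namespace Pool.Agent.Helper391_TT

universe u

variable {k A : Type u} [Field k] [Ring A] [Algebra k A]

theorem exists_decomp_aux (n : ℕ) : ∀ M : FM k A, Module.finrank k M.X ≤ n →
    ∃ (J : Type) (_ : Fintype J) (V : J → FM k A), (∀ j, Indec A (V j).X) ∧
      Nonempty (M.X ≃ₗ[A] ((j : J) → (V j).X)) := by
  induction n with
  | zero =>
    intro M hM
    have h0 : Subsingleton M.X := Module.finrank_zero_iff.mp (Nat.le_zero.mp hM)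
    refine ⟨Empty, inferInstance, fun j => j.elim, fun j => j.elim, ⟨?_⟩⟩
    exact { toFun := fun _ j => j.elim
            map_add' := fun _ _ => funext fun j => j.elim
            map_smul' := fun _ _ => funext fun j => j.elim
            invFun := fun _ => 0
            left_inv := fun x => Subsingleton.elim _ _
            right_inv := fun x => funext fun j => j.elim }
  | succ n ih =>
    intro M hM
    by_cases hnt : Nontrivial M.X
    · by_cases hI : Indec A M.X
      · refine ⟨Unit, inferInstance, fun _ => M, fun _ => hI, ⟨?_⟩⟩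
        exact (LinearEquiv.funUnique Unit A M.X).symm
      · unfold Indec at hI
        push Not at hI
        obtain ⟨N₁, N₂, hc, h1, h2⟩ := hI hnt
        have hfr : Module.finrank k N₁ + Module.finrank k N₂ = Module.finrank k M.X := by
          rw [← Module.finrank_prod]
          exact LinearEquiv.finrank_eq
            ((Submodule.prodEquivOfIsCompl N₁ N₂ hc).restrictScalars k)
        have hp1 : 0 < Module.finrank k N₁ := by
          rw [Module.finrank_pos_iff]
          exact (Submodule.nontrivial_iff_ne_bot).mpr h1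
        have hp2 : 0 < Module.finrank k N₂ := by
          rw [Module.finrank_pos_iff]
          exact (Submodule.nontrivial_iff_ne_bot).mpr h2
        obtain ⟨J₁, i₁, V₁, hV₁, ⟨e₁⟩⟩ := ih ⟨N₁⟩ (by change Module.finrank k N₁ ≤ n; omega)
        obtain ⟨J₂, i₂, V₂, hV₂, ⟨e₂⟩⟩ := ih ⟨N₂⟩ (by change Module.finrank k N₂ ≤ n; omega)
        refine ⟨J₁ ⊕ J₂, inferInstance, Sum.elim V₁ V₂, ?_, ⟨?_⟩⟩
        · rintro (j | j)
          · exact hV₁ j
          · exact hV₂ j
        · refine (Submodule.prodEquivOfIsCompl N₁ N₂ hc).symm ≪≫ₗ ?_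
          refine (LinearEquiv.prodCongr e₁ e₂) ≪≫ₗ ?_
          exact (LinearEquiv.sumPiEquivProdPi A J₁ J₂ (fun j => (Sum.elim V₁ V₂ j).X)).symm
    · have h0 : Subsingleton M.X := not_nontrivial_iff_subsingleton.mp hnt
      exact ih M (by rw [Module.finrank_zero_iff.mpr h0]; omega)

theorem exists_decomp (M : FM k A) :
    ∃ (J : Type) (_ : Fintype J) (V : J → FM k A), (∀ j, Indec A (V j).X) ∧
      Nonempty (M.X ≃ₗ[A] ((j : J) → (V j).X)) :=
  exists_decomp_aux _ M le_rfl

end Pool.Agent.Helper391_TT
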