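import Pool.Agent.Helper391_TT.Split

set_option autoImplicit false

/-!
Classes of projective modules; integral points of the cones.
-/

namespace Pool.Agent.Helper391_TT

universe u

variable {k A : Type u} [Field k] [Ring A] [Algebra k A]

/-- over a brick, dimensions of Hom spaces are divisible by the dimension of the
endomorphism ring -/
theorem dvd_dd (X : FM k A) (h0 : Nontrivial X.X)
    (hb : ∀ φ : X.X →ₗ[A] X.X, φ = 0 ∨ Function.Bijective φ) (P : FM k A) :
    dd X X ∣ dd P X := by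
  let E := Module.End A X.X
  have : Nontrivial E := inferInstance
  let _ : DivisionRing E := DivisionRing.ofIsUnitOrEqZero (fun a => by
    rcases hb a with h | h
    · exact Or.inr h
    · exact Or.inl ((Module.End.isUnit_iff _).mpr h))
  have : IsScalarTower k E (P.X →ₗ[A] X.X) := ⟨fun c f φ => rfl⟩
  exact Module.finrank_dvd_finrank_right k E (P.X →ₗ[A] X.X)

variable {ι : Type}

theorem ProjBasis.HasClass.dd_eq [Fintype ι] {B : ProjBasis k A ι} {Q : FM k A} {a : ι → ℕ}
    (h : B.HasClass Q a) (X : FM k A) : dd Q X = ∑ i, a i * dd (B.P i) X := by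
  classical
  obtain ⟨n, c, ⟨e⟩, ha⟩ := h
  rw [dd_congr_left (V := Q) (W := FM.pi fun j => B.P (c j)) e, dd_pi_left]
  rw [← Finset.sum_fiberwise (s := Finset.univ) (g := c)]
  refine Finset.sum_congr rfl fun i _ => ?_
  rw [Finset.sum_congr rfl (g := fun _ => dd (B.P i) X)]
  · rw [Finset.sum_const, smul_eq_mul, ha i, Nat.card_eq_fintype_card, Fintype.card_subtype]
  · intro j hj
    rw [(Finset.mem_filter.mp hj).2]

theorem proj_of_retract {V W : FM k A} [Module.Projective A W.X] (h : Retract A V.X W.X) :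
    Module.Projective A V.X := by
  obtain ⟨i, r, hir⟩ := h
  exact Module.Projective.of_split i r hir

theorem exists_decomp_fin (M : FM k A) :
    ∃ (n : ℕ) (V : Fin n → FM k A), (∀ j, Indec A (V j).X) ∧
      Nonempty (M.X ≃ₗ[A] ((j : Fin n) → (V j).X)) := by
  obtain ⟨J, iJ, V, hV, ⟨e⟩⟩ := exists_decomp M
  let g : J ≃ Fin (Fintype.card J) := Fintype.equivFin J
  refine ⟨Fintype.card J, fun i => V (g.symm i), fun i => hV _, ⟨?_⟩⟩
  exact e ≪≫ₗ LinearEquiv.piCongrLeft' A (fun j => (V j).X) g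

theorem retract_pi {J : Type} [DecidableEq J] (V : J → FM k A) (j : J) :
    Retract A (V j).X ((i : J) → (V i).X) := by
  refine ⟨LinearMap.single A (fun i => (V i).X) j, LinearMap.proj j, ?_⟩
  ext x
  simp

/-- every finitely generated projective module has a class -/
theorem ProjBasis.exists_class (B : ProjBasis k A ι) (Q : FM k A) (hQ : Module.Projective A Q.X) :
    ∃ a, B.HasClass Q a := by
  obtain ⟨n, V, hV, ⟨e⟩⟩ := exists_decomp_fin Q
  have h1 : ∀ j, ∃ i, Nonempty ((V j).X ≃ₗ[A] (B.P i).X) := fun j =>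
    B.all (V j) (proj_of_retract ((retract_pi V j).trans (Retract.of_equiv e.symm))) (hV j)
  choose c hc using h1
  refine ⟨_, n, c, ⟨e ≪≫ₗ LinearEquiv.piCongrRight fun j => Classical.choice (hc j)⟩,
    fun i => rfl⟩

/-- `x ↦ ∑ xᵢ dim Hom(Pᵢ, -)` is injective -/
theorem ProjBasis.inj_real [Fintype ι] (B : ProjBasis k A ι) (x : ι → ℝ)
    (h : ∀ X : FM k A, ∑ i, x i * (dd (B.P i) X : ℝ) = 0) (i : ι) : x i = 0 := by
  classical
  by_contra hi
  let L := {i : ι // x i ≠ 0}
  have : Nonempty L := ⟨⟨i, hi⟩⟩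
  obtain ⟨j₀, hj₀⟩ := exists_radd_ne_top (fun i : L => B.P i.1) fun i => B.indec i.1
  let X₀ : FM k A := (B.P j₀.1).quo (radd (fun i : L => B.P i.1) (B.P j₀.1))
  have hnt : Nontrivial X₀.X := Submodule.Quotient.nontrivial_iff.mpr hj₀
  have h0 : ∀ i : L, i ≠ j₀ → dd (B.P i.1) X₀ = 0 := by
    intro i hij
    apply dd_eq_zero_of
    intro φ
    have := B.proj i.1
    obtain ⟨ψ, hψ⟩ := Module.projective_lifting_property
      (radd (fun i : L => B.P i.1) (B.P j₀.1)).mkQ φ (Submodule.mkQ_surjective _)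
    have hnb : ¬ Function.Bijective ψ := by
      intro hb
      exact hij (Subtype.ext (B.inj _ _ ⟨LinearEquiv.ofBijective ψ hb⟩))
    have hle := le_radd (fun i : L => B.P i.1) (B.P j₀.1) i ψ hnb
    refine LinearMap.ext fun y => ?_
    rw [← hψ]
    exact (Submodule.Quotient.mk_eq_zero _).mpr (hle ⟨y, rfl⟩)
  have h1 : dd (B.P j₀.1) X₀ ≠ 0 := by
    have := dd_pos_of_ne (X := B.P j₀.1) (Y := X₀)
      (radd (fun i : L => B.P i.1) (B.P j₀.1)).mkQ (by
        intro h2
        obtain ⟨y, hy⟩ := exists_ne (0 : X₀.X)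
        obtain ⟨z, rfl⟩ := Submodule.mkQ_surjective _ y
        exact hy (LinearMap.congr_fun h2 z))
    omega
  have h2 := h X₀
  rw [Finset.sum_eq_single j₀.1] at h2
  · rcases mul_eq_zero.mp h2 with h3 | h3
    · exact j₀.2 h3
    · exact h1 (by exact_mod_cast h3)
  · intro i _ hij
    by_cases hx : x i = 0
    · rw [hx, zero_mul]
    · rw [h0 ⟨i, hx⟩ (fun h => hij (congrArg Subtype.val h))]
      simp
  · simp

end Pool.Agent.Helper391_TT
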