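import Pool.Agent.Helper391_TT.Integ

set_option autoImplicit false

/-!
Integral points in the real cone of a compatible family have natural coefficients.
-/

namespace Pool.Agent.Helper391_TT

universe u

variable {k A : Type u} [Field k] [Ring A] [Algebra k A]

/-- lifting along a quotient whose kernel has no `E` -/
theorem lift_of_ee (F : Obj k A) (X : FM k A) (N : Submodule A X.X) (h : ee F (X.sub N) = 0)
    (φ : F.M.X →ₗ[A] (X.quo N).X) : ∃ ψ : F.M.X →ₗ[A] X.X, N.mkQ ∘ₗ ψ = φ := by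
  obtain ⟨χ, hχ⟩ := Module.projective_lifting_property N.mkQ (φ ∘ₗ F.pr) N.mkQ_surjective
  have hd : ∀ q, (χ ∘ₗ F.f) q ∈ N := by
    intro q
    rw [← Submodule.Quotient.mk_eq_zero]
    have h2 : N.mkQ (χ (F.f q)) = φ (F.pr (F.f q)) := LinearMap.congr_fun hχ (F.f q)
    have h3 : F.pr (F.f q) = 0 := LinearMap.congr_fun F.pr_comp q
    rw [h3, map_zero] at h2
    exact h2
  obtain ⟨θ, hθ⟩ := (ee_eq_zero_iff F (X.sub N)).mp h ((χ ∘ₗ F.f).codRestrict N hd)
  obtain ⟨ψ, hψ⟩ := F.exists_desc (χ - N.subtype ∘ₗ θ) (by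
    ext q
    have h4 : N.subtype (θ (F.f q)) = χ (F.f q) :=
      congrArg Subtype.val (LinearMap.congr_fun hθ q)
    simp only [LinearMap.comp_apply, LinearMap.sub_apply, LinearMap.zero_apply]
    rw [h4, sub_self])
  refine ⟨ψ, LinearMap.ext fun y => ?_⟩
  obtain ⟨p, rfl⟩ := F.pr_surj y
  have h5 : N.mkQ (χ p) = φ (F.pr p) := LinearMap.congr_fun hχ p
  have h6 : ψ (F.pr p) = χ p - N.subtype (θ p) := LinearMap.congr_fun hψ p
  have h7 : N.mkQ (N.subtype (θ p)) = 0 := (Submodule.Quotient.mk_eq_zero _).mpr (θ p).2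
  rw [LinearMap.comp_apply, h6, map_sub, h7, sub_zero, h5]

theorem MinPres.lift {V : FM k A} (S : MinPres V) (X : FM k A) (N : Submodule A X.X)
    (h : ee S.obj (X.sub N) = 0) (φ : V.X →ₗ[A] (X.quo N).X) :
    ∃ ψ : V.X →ₗ[A] X.X, N.mkQ ∘ₗ ψ = φ := by
  obtain ⟨ψ, hψ⟩ := lift_of_ee S.obj X N h (φ ∘ₗ S.iso.toLinearMap)
  refine ⟨ψ ∘ₗ S.iso.symm.toLinearMap, LinearMap.ext fun y => ?_⟩
  have h1 := LinearMap.congr_fun hψ (S.iso.symm y)
  have h2 : S.iso (S.iso.symm y) = y := S.iso.apply_symm_apply y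
  have h3 : N.mkQ (ψ (S.iso.symm y)) = φ (S.iso (S.iso.symm y)) := h1
  rw [h2] at h3
  exact h3

theorem MinPres.chi_eq {V : FM k A} (S : MinPres V) (X : FM k A) (h : ee S.obj X = 0) :
    chi S.obj X = dd V X := by
  have h1 := hh_sub_ee S.obj X
  rw [h, hh_eq, dd_congr_left (V := S.obj.M) (W := V) S.iso] at h1
  rw [← h1]
  simp

theorem MinPres.chi_unique {V W : FM k A} (S : MinPres V) (T : MinPres W) (e : V.X ≃ₗ[A] W.X)
    (X : FM k A) : chi S.obj X = chi T.obj X := by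
  obtain ⟨⟨e0⟩, ⟨e1⟩⟩ := S.unique T e
  unfold chi
  rw [dd_congr_left (V := S.obj.P) (W := T.obj.P) e0, dd_congr_left (V := S.obj.Q)
    (W := T.obj.Q) e1]

variable {ι : Type} [Fintype ι]

/-- the class of an object is an integral combination of the classes of the `Pᵢ` -/
theorem ProjBasis.exists_chi (B : ProjBasis k A ι) (F : Obj k A) :
    ∃ g : ι → ℤ, ∀ X, chi F X = ∑ i, g i * (dd (B.P i) X : ℤ) := by
  obtain ⟨a, ha⟩ := B.exists_class F.P F.pP
  obtain ⟨b, hb⟩ := B.exists_class F.Q F.pQ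
  refine ⟨fun i => a i - b i, fun X => ?_⟩
  unfold chi
  rw [ha.dd_eq, hb.dd_eq]
  push_cast
  rw [← Finset.sum_sub_distrib]
  exact Finset.sum_congr rfl fun i _ => by ring

/-- the brick of a split summand -/
theorem exists_brick {J : Type} (V : J → FM k A) (hV : ∀ j, Indec A (V j).X)
    (S : (j : J) → MinPres (V j)) (hcmp : ∀ i j, ee (S i).obj (V j) = 0)
    (s : Finset J) (hs : s.Nonempty) :
    ∃ j₀ ∈ s, ∃ X₀ : FM k A, dd (V j₀) X₀ ≠ 0 ∧ (∀ j, ee (S j).obj X₀ = 0) ∧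
      (∀ j ∈ s, ¬ Nonempty ((V j).X ≃ₗ[A] (V j₀).X) → dd (V j) X₀ = 0) ∧
      (∀ P : FM k A, dd (V j₀) X₀ ∣ dd P X₀) ∧
      (∀ P : FM k A, Module.Projective A P.X → dd P (V j₀) = 0 → dd P X₀ = 0) := by
  classical
  let V' : {j // j ∈ s} → FM k A := fun j => V j.1
  have : Nonempty {j // j ∈ s} := hs.to_subtype
  obtain ⟨j₀, hj₀⟩ := exists_radd_ne_top V' fun j => hV j.1
  let R := radd V' (V' j₀)
  let X₀ : FM k A := (V j₀.1).quo R
  have hnt : Nontrivial X₀.X := Submodule.Quotient.nontrivial_iff.mpr hj₀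
  have hR : ∀ j, ee (S j).obj ((V j₀.1).sub R) = 0 := fun j =>
    ee_radd (S j).obj V' (V' j₀) fun i => hcmp j i.1
  have hX : ∀ j, ee (S j).obj X₀ = 0 := by
    intro j
    have h1 := ee_le_of_surj (S j).obj (X := V j₀.1) (Y := X₀) R.mkQ R.mkQ_surjective
    rw [hcmp] at h1
    exact Nat.le_zero.mp h1
  -- non-isomorphisms vanish
  have hzero : ∀ (j : {j // j ∈ s}) (ψ : (V j.1).X →ₗ[A] (V j₀.1).X), ¬ Function.Bijective ψ →
      R.mkQ ∘ₗ ψ = 0 := by
    intro j ψ hψ
    refine LinearMap.ext fun y => ?_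
    exact (Submodule.Quotient.mk_eq_zero _).mpr (le_radd V' (V' j₀) j ψ hψ ⟨y, rfl⟩)
  -- automorphisms preserve `R`
  have hpres : ∀ ψ : (V j₀.1).X →ₗ[A] (V j₀.1).X, Function.Bijective ψ → R ≤ R.comap ψ := by
    intro ψ hψ
    refine iSup_le fun p => ?_
    rintro _ ⟨y, rfl⟩
    have h1 : ¬ Function.Bijective (ψ ∘ₗ p.2.1) := by
      intro hb
      apply p.2.2
      refine ⟨Function.Injective.of_comp (f := ψ) hb.1, fun z => ?_⟩
      obtain ⟨w, hw⟩ := hb.2 (ψ z)
      exact ⟨w, hψ.1 hw⟩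
    exact le_radd V' (V' j₀) p.1 (ψ ∘ₗ p.2.1) h1 ⟨y, rfl⟩
  -- endomorphisms of `X₀` are zero or bijective
  have hker : ∀ φ : (V j₀.1).X →ₗ[A] X₀.X, φ = 0 ∨
      ∃ ψ : (V j₀.1).X →ₗ[A] (V j₀.1).X, Function.Bijective ψ ∧ R.mkQ ∘ₗ ψ = φ := by
    intro φ
    obtain ⟨ψ, hψ⟩ := (S j₀.1).lift (V j₀.1) R (hR j₀.1) φ
    by_cases hb : Function.Bijective ψ
    · exact Or.inr ⟨ψ, hb, hψ⟩
    · left
      rw [← hψ]
      exact hzero j₀ ψ hb
  have hbr : ∀ φ : X₀.X →ₗ[A] X₀.X, φ = 0 ∨ Function.Bijective φ := by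
    intro φ
    rcases hker (φ ∘ₗ R.mkQ) with h | ⟨ψ, hb, hψ⟩
    · left
      refine LinearMap.ext fun y => ?_
      obtain ⟨z, rfl⟩ := R.mkQ_surjective y
      exact LinearMap.congr_fun h z
    · right
      apply bij_of_surj
      intro y
      obtain ⟨z, rfl⟩ := R.mkQ_surjective y
      obtain ⟨w, rfl⟩ := hb.2 z
      exact ⟨R.mkQ w, (LinearMap.congr_fun hψ w).symm⟩
  have hend : dd (V j₀.1) X₀ = dd X₀ X₀ := by
    refine le_antisymm ?_ (dd_le_of_surj (X := V j₀.1) (Y := X₀) R.mkQ R.mkQ_surjective)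
    let T : (X₀.X →ₗ[A] X₀.X) →ₗ[k] ((V j₀.1).X →ₗ[A] X₀.X) :=
      { toFun := fun φ => φ ∘ₗ R.mkQ
        map_add' := fun _ _ => LinearMap.add_comp _ _ _
        map_smul' := fun c φ => rfl }
    refine LinearMap.finrank_le_finrank_of_surjective (f := T) ?_
    intro φ
    have h1 : R ≤ LinearMap.ker φ := by
      rcases hker φ with h | ⟨ψ, hb, hψ⟩
      · rw [h]; intro x _; simp
      · intro x hx
        rw [← hψ]
        exact (Submodule.Quotient.mk_eq_zero _).mpr (hpres ψ hb hx)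
    exact ⟨R.liftQ φ h1, R.liftQ_mkQ φ h1⟩
  refine ⟨j₀.1, j₀.2, X₀, ?_, hX, ?_, ?_, ?_⟩
  · have := dd_pos_of_ne (X := V j₀.1) (Y := X₀) R.mkQ (by
        intro h2
        obtain ⟨y, hy⟩ := exists_ne (0 : X₀.X)
        obtain ⟨z, rfl⟩ := R.mkQ_surjective y
        exact hy (LinearMap.congr_fun h2 z))
    omega
  · intro j hj hne
    apply dd_eq_zero_of
    intro φ
    obtain ⟨ψ, hψ⟩ := (S j).lift (V j₀.1) R (hR j) φ
    rw [← hψ]
    exact hzero ⟨j, hj⟩ ψ fun hb => hne ⟨LinearEquiv.ofBijective ψ hb⟩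
  · intro P
    rw [hend]
    exact dvd_dd X₀ hnt hbr P
  · intro P hP h
    apply dd_eq_zero_of
    intro φ
    obtain ⟨ψ, hψ⟩ := Module.projective_lifting_property R.mkQ φ R.mkQ_surjective
    rw [← hψ, dd_eq_zero h ψ, LinearMap.comp_zero]

theorem integral_aux (B : ProjBasis k A ι) {J : Type} (V : J → FM k A)
    (hV : ∀ j, Indec A (V j).X) (S : (j : J) → MinPres (V j))
    (hcmp : ∀ i j, ee (S i).obj (V j) = 0) (α : J → ℝ) (hα : ∀ j, 0 ≤ α j)
    (β : ι → ℝ) (hβ : ∀ i, 0 ≤ β i) (hβ0 : ∀ i, β i ≠ 0 → ∀ j, dd (B.P i) (V j) = 0)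
    (n : ℕ) : ∀ (s : Finset J) (x : ι → ℤ), s.card ≤ n →
    (∀ X : FM k A, ∑ i, (x i : ℝ) * (dd (B.P i) X : ℝ) =
      ∑ j ∈ s, α j * (chi (S j).obj X : ℝ) - ∑ i, β i * (dd (B.P i) X : ℝ)) →
    ∃ (c : J → ℕ) (m : ι → ℕ), (∀ i, m i ≠ 0 → β i ≠ 0) ∧
      ∀ X : FM k A, ∑ i, x i * (dd (B.P i) X : ℤ) =
        ∑ j ∈ s, (c j : ℤ) * chi (S j).obj X - ∑ i, (m i : ℤ) * (dd (B.P i) X : ℤ) := by
  classical
  induction n with
  | zero =>
    intro s x hs hx
    have hs' : s = ∅ := Finset.card_eq_zero.mp (Nat.le_zero.mp hs)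
    subst hs'
    have h1 : ∀ i, (x i : ℝ) + β i = 0 := by
      intro i
      refine B.inj_real (fun i => (x i : ℝ) + β i) (fun X => ?_) i
      have := hx X
      rw [Finset.sum_empty, zero_sub] at this
      rw [Finset.sum_congr rfl (fun i _ => add_mul (x i : ℝ) (β i) (dd (B.P i) X : ℝ)),
        Finset.sum_add_distrib, this]
      ring
    have h2 : ∀ i, ((-(x i)).toNat : ℤ) = - x i := by
      intro i
      apply Int.toNat_of_nonneg
      have h3 : (0 : ℝ) ≤ -(x i : ℝ) := by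
        have := hβ i
        have := h1 i
        linarith
      exact_mod_cast h3
    refine ⟨fun _ => 0, fun i => (-(x i)).toNat, fun i hi hb => hi ?_, fun X => ?_⟩
    · have h3 := h1 i
      rw [hb, add_zero] at h3
      have h4 : x i = 0 := by exact_mod_cast h3
      simp [h4]
    · rw [Finset.sum_empty, zero_sub, ← Finset.sum_neg_distrib]
      refine Finset.sum_congr rfl fun i _ => ?_
      rw [h2]
      ring
  | succ n ih =>
    intro s x hs hx
    by_cases hne : s.Nonempty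
    · obtain ⟨j₀, hj₀, X₀, hpos, hee, hoff, hdvd, hproj⟩ := exists_brick V hV S hcmp s hne
      let s' := s.filter fun j => ¬ Nonempty ((V j).X ≃ₗ[A] (V j₀).X)
      let t := s.filter fun j => Nonempty ((V j).X ≃ₗ[A] (V j₀).X)
      have hsum : ∀ f : J → ℝ, ∑ j ∈ s, f j = ∑ j ∈ t, f j + ∑ j ∈ s', f j := fun f =>
        (Finset.sum_filter_add_sum_filter_not s _ f).symm
      have hsumZ : ∀ f : J → ℤ, ∑ j ∈ s, f j = ∑ j ∈ t, f j + ∑ j ∈ s', f j := fun f =>
        (Finset.sum_filter_add_sum_filter_not s _ f).symm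
      have hj₀t : j₀ ∈ t := Finset.mem_filter.mpr ⟨hj₀, ⟨LinearEquiv.refl _ _⟩⟩
      have hcard : s'.card ≤ n := by
        have h1 : s'.card + t.card = s.card := by
          have := Finset.card_filter_add_card_filter_not (s := s)
            (fun j => Nonempty ((V j).X ≃ₗ[A] (V j₀).X))
          change t.card + s'.card = s.card at this
          omega
        have h2 : 0 < t.card := Finset.card_pos.mpr ⟨j₀, hj₀t⟩
        omega
      have hchit : ∀ j ∈ t, ∀ X, chi (S j).obj X = chi (S j₀).obj X := by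
        intro j hj X
        obtain ⟨e⟩ := (Finset.mem_filter.mp hj).2
        exact (S j).chi_unique (S j₀) e X
      -- evaluate at the brick
      have hev := hx X₀
      rw [hsum, Finset.sum_eq_zero (s := s')] at hev
      swap
      · intro j hj
        obtain ⟨h1, h2⟩ := Finset.mem_filter.mp hj
        rw [(S j).chi_eq X₀ (hee j), hoff j h1 h2]
        simp
      rw [Finset.sum_eq_zero (s := Finset.univ) (f := fun i => β i * (dd (B.P i) X₀ : ℝ))] at hev
      swap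
      · intro i _
        by_cases hb : β i = 0
        · rw [hb, zero_mul]
        · rw [hproj _ (B.proj i) (hβ0 i hb j₀)]
          simp
      rw [add_zero, sub_zero] at hev
      have hδ : ∀ j ∈ t, (chi (S j).obj X₀ : ℝ) = (dd (V j₀) X₀ : ℝ) := by
        intro j hj
        rw [hchit j hj, (S j₀).chi_eq X₀ (hee j₀)]
        simp
      have hsum2 : ∑ j ∈ t, α j * (chi (S j).obj X₀ : ℝ) =
          (∑ j ∈ t, α j) * (dd (V j₀) X₀ : ℝ) := by
        rw [Finset.sum_mul]
        exact Finset.sum_congr rfl fun j hj => by rw [hδ j hj]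
      rw [hsum2] at hev
      choose q hq using fun i => hdvd (B.P i)
      let N : ℤ := ∑ i, x i * (q i : ℤ)
      have hN : (N : ℝ) = ∑ j ∈ t, α j := by
        have h1 : ∑ i, (x i : ℝ) * (dd (B.P i) X₀ : ℝ) = (N : ℝ) * (dd (V j₀) X₀ : ℝ) := by
          change _ = ((∑ i, x i * (q i : ℤ) : ℤ) : ℝ) * _
          push_cast
          rw [Finset.sum_mul]
          refine Finset.sum_congr rfl fun i _ => ?_
          rw [hq i]
          push_cast
          ring
        rw [h1] at hev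
        have h2 : (dd (V j₀) X₀ : ℝ) ≠ 0 := by exact_mod_cast hpos
        exact mul_right_cancel₀ h2 hev
      have hN0 : 0 ≤ N := by
        have h1 : (0 : ℝ) ≤ (N : ℝ) := by
          rw [hN]
          exact Finset.sum_nonneg fun j _ => hα j
        exact_mod_cast h1
      obtain ⟨g, hg⟩ := B.exists_chi (S j₀).obj
      obtain ⟨c, m, hm, hcm⟩ := ih s' (fun i => x i - N * g i) hcard (by
        intro X
        have h1 : ∑ i, ((x i - N * g i : ℤ) : ℝ) * (dd (B.P i) X : ℝ) =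
            ∑ i, (x i : ℝ) * (dd (B.P i) X : ℝ) - N * (chi (S j₀).obj X : ℝ) := by
          rw [hg X]
          push_cast
          rw [Finset.mul_sum, ← Finset.sum_sub_distrib]
          exact Finset.sum_congr rfl fun i _ => by ring
        rw [h1, hx X, hsum, hN, Finset.sum_mul]
        rw [Finset.sum_congr (s₁ := t) rfl (fun j hj => by rw [hchit j hj])]
        ring)
      refine ⟨fun j => if j ∈ s' then c j else if j = j₀ then N.toNat else 0, m, hm, fun X => ?_⟩
      have h1 : ∑ i, (x i - N * g i) * (dd (B.P i) X : ℤ) =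
          ∑ i, x i * (dd (B.P i) X : ℤ) - N * chi (S j₀).obj X := by
        rw [hg X, Finset.mul_sum, ← Finset.sum_sub_distrib]
        exact Finset.sum_congr rfl fun i _ => by ring
      have h2 := hcm X
      rw [h1] at h2
      rw [hsumZ]
      have h3 : ∑ j ∈ s', (((if j ∈ s' then c j else if j = j₀ then N.toNat else 0 : ℕ) : ℤ)) *
          chi (S j).obj X = ∑ j ∈ s', (c j : ℤ) * chi (S j).obj X :=
        Finset.sum_congr rfl fun j hj => by rw [if_pos hj]
      have h4 : ∑ j ∈ t, (((if j ∈ s' then c j else if j = j₀ then N.toNat else 0 : ℕ) : ℤ)) *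
          chi (S j).obj X = N * chi (S j₀).obj X := by
        rw [Finset.sum_eq_single_of_mem j₀ hj₀t]
        · have h5 : j₀ ∉ s' := fun h => (Finset.mem_filter.mp h).2 ⟨LinearEquiv.refl _ _⟩
          rw [if_neg h5, if_pos rfl, Int.toNat_of_nonneg hN0]
        · intro j hj hjj
          have h5 : j ∉ s' := fun h => (Finset.mem_filter.mp h).2 (Finset.mem_filter.mp hj).2
          rw [if_neg h5, if_neg hjj]
          simp
      rw [h3, h4]
      linarith
    · rw [Finset.not_nonempty_iff_eq_empty] at hne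
      exact ih s x (by rw [hne]; simp) hx

end Pool.Agent.Helper391_TT
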