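import Pool.Agent.Helper391_TT.Nak

set_option autoImplicit false

/-!
Rigid objects; the two inequalities for mediants; rigid objects with the same class.
-/

namespace Pool.Agent.Helper391_TT

universe u

variable {k A : Type u} [Field k] [Ring A] [Algebra k A]

/-- `Hom(f, f[1]) = 0` -/
def Rigid (F : Obj k A) : Prop := ee F F.M = 0

theorem dd_pos_of_ne {X Y : FM k A} (φ : X.X →ₗ[A] Y.X) (h : φ ≠ 0) : 1 ≤ dd X Y := by
  unfold dd
  rw [Nat.one_le_iff_ne_zero]
  intro h0
  rw [Module.finrank_zero_iff] at h0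
  exact h (Subsingleton.elim _ _)

theorem dd_eq_zero {X Y : FM k A} (h : dd X Y = 0) (φ : X.X →ₗ[A] Y.X) : φ = 0 := by
  unfold dd at h
  rw [Module.finrank_zero_iff] at h
  exact Subsingleton.elim _ _

theorem dd_eq_zero_of {X Y : FM k A} (h : ∀ φ : X.X →ₗ[A] Y.X, φ = 0) : dd X Y = 0 := by
  unfold dd
  rw [Module.finrank_zero_iff]
  exact ⟨fun a b => (h a).trans (h b).symm⟩

theorem dd_le_sub (X Y : FM k A) (N : Submodule A Y.X) : dd X (Y.sub N) ≤ dd X Y := by
  let S : (X.X →ₗ[A] (Y.sub N).X) →ₗ[k] (X.X →ₗ[A] Y.X) :=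
    { toFun := fun φ => N.subtype ∘ₗ φ
      map_add' := fun _ _ => LinearMap.comp_add _ _ _
      map_smul' := fun c φ => by ext x; rfl }
  refine LinearMap.finrank_le_finrank_of_injective (f := S) ?_
  intro a b hab
  ext x
  exact LinearMap.congr_fun hab x

theorem dd_le_of_surj {X Y Z : FM k A} (π : X.X →ₗ[A] Y.X) (h : Function.Surjective π) :
    dd Y Z ≤ dd X Z := by
  let S : (Y.X →ₗ[A] Z.X) →ₗ[k] (X.X →ₗ[A] Z.X) :=
    { toFun := fun φ => φ ∘ₗ π
      map_add' := fun _ _ => LinearMap.add_comp _ _ _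
      map_smul' := fun c φ => rfl }
  refine LinearMap.finrank_le_finrank_of_injective (f := S) ?_
  intro a b hab
  refine LinearMap.ext fun y => ?_
  obtain ⟨x, rfl⟩ := h y
  exact LinearMap.congr_fun hab x

/-- a quotient of a power of `Y` lies in the torsion class of `F` if `Y` does -/
theorem ee_zero_of_power (F : Obj k A) {J : Type} [Fintype J] {Y Z : FM k A}
    (π : (J → Y.X) →ₗ[A] Z.X) (hπ : Function.Surjective π) (h : ee F Y = 0) : ee F Z = 0 := by
  have h1 : ee F (FM.pi fun _ : J => Y) = 0 := ee_pi_zero F _ fun _ => h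
  exact Nat.le_zero.mp (h1 ▸ ee_le_of_surj F (X := FM.pi fun _ : J => Y) π hπ)

/-- a finite family of generators for `Hom(S, X)`: the universal map from a power of `S` -/
theorem exists_univ (S X : FM k A) :
    ∃ (r : ℕ) (π : (Fin r → S.X) →ₗ[A] X.X),
      ∀ φ : S.X →ₗ[A] X.X, ∃ θ : S.X →ₗ[A] (Fin r → S.X), π ∘ₗ θ = φ := by
  let b := Module.finBasis k (S.X →ₗ[A] X.X)
  refine ⟨_, ∑ i, (b i) ∘ₗ LinearMap.proj i, fun φ => ?_⟩
  let θ : S.X →ₗ[A] (Fin (Module.finrank k (S.X →ₗ[A] X.X)) → S.X) :=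
    LinearMap.pi fun i =>
      { toFun := fun x => b.repr φ i • x
        map_add' := fun _ _ => smul_add _ _ _
        map_smul' := fun a x => by
          rw [RingHom.id_apply, smul_comm] }
  refine ⟨θ, ?_⟩
  ext x
  have h1 := b.sum_repr φ
  have h2 := LinearMap.congr_fun h1 x
  rw [← h2]
  simp only [LinearMap.comp_apply, LinearMap.sum_apply, LinearMap.smul_apply,
    LinearMap.proj_apply]
  refine Finset.sum_congr rfl fun i _ => ?_
  change (b i) (b.repr φ i • x) = _
  rw [← algebraMap_smul A (b.repr φ i) x, map_smul, algebraMap_smul]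

/-- the torsion part: a submodule `K` with `E(f, K) = 0` and `Hom(f, M/K) = 0` -/
theorem exists_torsion (H : Obj k A) (hH : Rigid H) (M : FM k A) :
    ∃ K : Submodule A M.X, ee H (M.sub K) = 0 ∧ hh H (M.quo K) = 0 := by
  classical
  let S : Set ℕ := {n | ∃ K : Submodule A M.X, ee H (M.sub K) = 0 ∧ Module.finrank k K = n}
  have hne : S.Nonempty := by
    refine ⟨_, ⊥, ?_, rfl⟩
    rw [ee_eq_zero_iff]
    intro φ
    refine ⟨0, ?_⟩
    refine LinearMap.ext fun x => ?_
    exact Subsingleton.elim (α := (⊥ : Submodule A M.X)) _ _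
  have hbd : BddAbove S := by
    refine ⟨Module.finrank k M.X, ?_⟩
    rintro n ⟨K, -, rfl⟩
    exact LinearMap.finrank_le_finrank_of_injective (f := K.subtype.restrictScalars k)
      K.subtype_injective
  obtain ⟨K, hK, hmax⟩ := Nat.sSup_mem hne hbd
  refine ⟨K, hK, ?_⟩
  rw [hh_eq]
  apply dd_eq_zero_of
  intro φ
  -- the preimage of the image of `φ`
  let I : Submodule A (M.X ⧸ K) := LinearMap.range φ
  let K' : Submodule A M.X := I.comap K.mkQ
  have hKK' : K ≤ K' := by
    intro x hx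
    change K.mkQ x ∈ I
    have : K.mkQ x = 0 := (Submodule.Quotient.mk_eq_zero _).mpr hx
    rw [this]
    exact I.zero_mem
  have hI : ee H ((M.quo K).sub I) = 0 := by
    have : ee H ((M.quo K).sub I) ≤ ee H H.M :=
      ee_le_of_surj H (X := H.M) (Y := (M.quo K).sub I) φ.rangeRestrict φ.surjective_rangeRestrict
    unfold Rigid at hH
    omega
  have hK' : ee H (M.sub K') = 0 := by
    let N : Submodule A K' := K.comap K'.subtype
    refine ee_zero_of_ext H (M.sub K') N ?_ ?_
    · have e : N ≃ₗ[A] K := Submodule.comapSubtypeEquivOfLe hKK'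
      have := ee_congr H (X := (M.sub K').sub N) (Y := M.sub K) e
      rw [this]; exact hK
    · -- the quotient is isomorphic to `I`
      let g : K' →ₗ[A] I := (K.mkQ ∘ₗ K'.subtype).codRestrict I (fun x => x.2)
      have hg : Function.Surjective g := by
        rintro ⟨y, hy⟩
        obtain ⟨x, rfl⟩ := K.mkQ_surjective y
        exact ⟨⟨x, hy⟩, rfl⟩
      have hker : LinearMap.ker g = N := by
        ext x
        rw [LinearMap.mem_ker]
        constructor
        · intro h
          have h2 : K.mkQ (x : M.X) = 0 := congrArg Subtype.val h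
          change (x : M.X) ∈ K
          exact (Submodule.Quotient.mk_eq_zero K).mp h2
        · intro h
          apply Subtype.ext
          exact (Submodule.Quotient.mk_eq_zero _).mpr h
      have e : (K' ⧸ N) ≃ₗ[A] I :=
        (Submodule.quotEquivOfEq _ _ hker.symm) ≪≫ₗ (LinearMap.quotKerEquivOfSurjective g hg)
      have := ee_congr H (X := (M.sub K').quo N) (Y := (M.quo K).sub I) e
      rw [this]; exact hI
  have hle : Module.finrank k K' ≤ Module.finrank k K := by
    rw [hmax]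
    exact le_csSup hbd ⟨K', hK', rfl⟩
  have heq : K.restrictScalars k = K'.restrictScalars k :=
    Submodule.eq_of_le_of_finrank_le (fun x hx => hKK' hx) hle
  have heq' : K = K' := by
    ext x
    exact Submodule.ext_iff.mp heq x
  refine LinearMap.ext fun x => ?_
  obtain ⟨y, hy⟩ := K.mkQ_surjective (φ x)
  have h1 : y ∈ K' := by
    change K.mkQ y ∈ I
    rw [hy]
    exact ⟨x, rfl⟩
  rw [← heq'] at h1
  rw [← hy]
  exact (Submodule.Quotient.mk_eq_zero _).mpr h1

/-- the formula for `E(h, M)` for rigid `h` -/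
theorem ee_formula (H : Obj k A) (hH : Rigid H) (M : FM k A) :
    ∃ K : Submodule A M.X, (ee H M : ℤ) ≤ - chi H (M.quo K) ∧ hh H (M.quo K) = 0 := by
  obtain ⟨K, h1, h2⟩ := exists_torsion H hH M
  refine ⟨K, ?_, h2⟩
  have h3 := ee_le_quo H M K h1
  have h4 := hh_sub_ee H (M.quo K)
  omega

/-- `E(h, M) = 0` as soon as the class of `h` is nonnegative on the quotients of `M` -/
theorem ee_zero_of_chi (H : Obj k A) (hH : Rigid H) (M : FM k A)
    (h : ∀ K : Submodule A M.X, 0 ≤ chi H (M.quo K)) : ee H M = 0 := by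
  obtain ⟨K, h1, -⟩ := ee_formula H hH M
  have := h K
  omega

/-- first inequality for mediants -/
theorem lemA (F G H : Obj k A) (hF : Rigid F) (hH : Rigid H)
    (hc : ∀ X, chi H X = chi F X + chi G X) :
    ee H F.M = 0 ∨ ee H F.M + 1 ≤ ee G F.M := by
  obtain ⟨K, h1, -⟩ := ee_formula H hH F.M
  by_cases h0 : ee H F.M = 0
  · exact Or.inl h0
  right
  have h2 : ee F (F.M.quo K) = 0 := by
    have := ee_le_of_surj F (X := F.M) (Y := F.M.quo K) K.mkQ K.mkQ_surjective
    unfold Rigid at hF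
    omega
  have h3 : 1 ≤ hh F (F.M.quo K) := by
    rw [hh_eq]
    refine dd_pos_of_ne (X := F.M) (Y := F.M.quo K) K.mkQ ?_
    intro hz
    -- then the quotient is zero
    have hK : ∀ X : FM k A, ∀ φ : X.X →ₗ[A] (F.M.quo K).X, φ = 0 := by
      intro X φ
      refine LinearMap.ext fun x => ?_
      obtain ⟨y, hy⟩ := K.mkQ_surjective (φ x)
      rw [← hy, hz]
      rfl
    have h5 : chi H (F.M.quo K) = 0 := by
      unfold chi
      rw [dd_eq_zero_of (hK H.P), dd_eq_zero_of (hK H.Q)]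
      simp
    omega
  have h4 := hh_sub_ee F (F.M.quo K)
  have h5 := hh_sub_ee G (F.M.quo K)
  have h6 := hc (F.M.quo K)
  have h7 : ee G (F.M.quo K) ≤ ee G F.M :=
    ee_le_of_surj G (X := F.M) (Y := F.M.quo K) K.mkQ K.mkQ_surjective
  omega

/-- subadditivity in the first variable -/
theorem subA (F G H : Obj k A) (hH : Rigid H)
    (hc : ∀ X, chi H X = chi F X + chi G X) (M : FM k A) :
    ee H M ≤ ee F M + ee G M := by
  obtain ⟨K, h1, -⟩ := ee_formula H hH M
  have h4 := hh_sub_ee F (M.quo K)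
  have h5 := hh_sub_ee G (M.quo K)
  have h6 := hc (M.quo K)
  have h7 : ee G (M.quo K) ≤ ee G M :=
    ee_le_of_surj G (X := M) (Y := M.quo K) K.mkQ K.mkQ_surjective
  have h8 : ee F (M.quo K) ≤ ee F M :=
    ee_le_of_surj F (X := M) (Y := M.quo K) K.mkQ K.mkQ_surjective
  omega

/-- the formula for `Hom(h, N)` for rigid `h` -/
theorem hh_formula (H : Obj k A) (hH : Rigid H) (N : FM k A) :
    ∃ L : Submodule A N.X, (hh H N : ℤ) ≤ chi H (N.sub L) ∧ ee H (N.sub L) = 0 := by
  obtain ⟨r, π, hπ⟩ := exists_univ H.M N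
  let L : Submodule A N.X := LinearMap.range π
  have h1 : ee H (N.sub L) = 0 :=
    ee_zero_of_power H (J := Fin r) (Y := H.M) (Z := N.sub L) π.rangeRestrict
      π.surjective_rangeRestrict hH
  refine ⟨L, ?_, h1⟩
  have h2 := hh_sub_ee H (N.sub L)
  have h3 : hh H N ≤ hh H (N.sub L) := by
    rw [hh_eq, hh_eq]
    let S : (H.M.X →ₗ[A] (N.sub L).X) →ₗ[k] (H.M.X →ₗ[A] N.X) :=
      { toFun := fun φ => L.subtype ∘ₗ φ
        map_add' := fun _ _ => LinearMap.comp_add _ _ _
        map_smul' := fun c φ => by ext x; rfl }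
    refine LinearMap.finrank_le_finrank_of_surjective (f := S) ?_
    intro φ
    obtain ⟨θ, hθ⟩ := hπ φ
    refine ⟨π.rangeRestrict ∘ₗ θ, ?_⟩
    rw [← hθ]
    rfl
  omega

variable [Module.Finite k A]

/-- second inequality for mediants -/
theorem lemB (F G H : Obj k A) (hF : Rigid F) (hH : Rigid H)
    (hc : ∀ X, chi H X = chi F X + chi G X) :
    ee F H.M = 0 ∨ ee F H.M + 1 ≤ ee F G.M := by
  obtain ⟨L, h1, h2⟩ := hh_formula H hH F.N
  rw [hh_eq, ← ee_eq_dd] at h1
  by_cases h0 : ee F H.M = 0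
  · exact Or.inl h0
  right
  have h3 : hh F (F.N.sub L) = 0 := by
    have : hh F (F.N.sub L) ≤ dd F.M F.N := by
      rw [hh_eq]
      exact dd_le_sub F.M F.N L
    rw [← ee_eq_dd] at this
    unfold Rigid at hF
    omega
  have h4 : 1 ≤ ee F (F.N.sub L) := by
    rw [ee_eq_dd]
    refine dd_pos_of_ne (X := F.N.sub L) (Y := F.N) L.subtype ?_
    intro hz
    have hK : ∀ X : FM k A, ∀ φ : X.X →ₗ[A] (F.N.sub L).X, φ = 0 := by
      intro X φ
      refine LinearMap.ext fun x => ?_
      apply L.subtype_injective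
      rw [hz]
      rfl
    have h5 : chi H (F.N.sub L) = 0 := by
      unfold chi
      rw [dd_eq_zero_of (hK H.P), dd_eq_zero_of (hK H.Q)]
      simp
    omega
  have h5 := hh_sub_ee F (F.N.sub L)
  have h6 := hh_sub_ee G (F.N.sub L)
  have h7 := hc (F.N.sub L)
  have h8 : hh G (F.N.sub L) ≤ ee F G.M := by
    rw [hh_eq, ee_eq_dd]
    exact dd_le_sub G.M F.N L
  omega

/-- subadditivity in the second variable -/
theorem subB (F G H : Obj k A) (hH : Rigid H)
    (hc : ∀ X, chi H X = chi F X + chi G X) (U : Obj k A) :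
    ee U H.M ≤ ee U F.M + ee U G.M := by
  obtain ⟨L, h1, h2⟩ := hh_formula H hH U.N
  rw [hh_eq, ← ee_eq_dd] at h1
  have h5 := hh_sub_ee F (U.N.sub L)
  have h6 := hh_sub_ee G (U.N.sub L)
  have h7 := hc (U.N.sub L)
  have h8 : hh G (U.N.sub L) ≤ ee U G.M := by
    rw [hh_eq, ee_eq_dd]
    exact dd_le_sub G.M U.N L
  have h9 : hh F (U.N.sub L) ≤ ee U F.M := by
    rw [hh_eq, ee_eq_dd]
    exact dd_le_sub F.M U.N L
  omega

end Pool.Agent.Helper391_TT
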