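import Pool.Agent.Helper391_TT.Pres

set_option autoImplicit false

/-!
The Nakayama functor `D Hom_A(-, A)` and the Auslander-Reiten translation.
-/

namespace Pool.Agent.Helper391_TT

universe u

section dual

variable {k A : Type u} [Field k] [Ring A] [Algebra k A]

instance [Module.Finite k A] (Q : FM k A) : Module.Finite k (Nu k A Q.X) :=
  inferInstanceAs (Module.Finite k (Module.Dual k (Q.X →ₗ[A] A)))

/-- `N_f`, the kernel of `D Hom_A(Q, A) → D Hom_A(P, A)` -/
abbrev Obj.N [Module.Finite k A] (F : Obj k A) : FM k A := ⟨tauSub k F.f⟩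

/-- finite dual bases -/
theorem exists_dual_basis [Module.Finite k A] (Q : FM k A) [Module.Projective A Q.X] :
    ∃ (n : ℕ) (e : Fin n → Q.X) (c : Fin n → (Q.X →ₗ[A] A)), ∀ q, q = ∑ i, c i q • e i := by
  have : Module.Finite A Q.X := Module.Finite.of_restrictScalars_finite k A Q.X
  obtain ⟨n, f, g, -, -, hfg⟩ := Module.Finite.exists_comp_eq_id_of_projective A Q.X
  refine ⟨n, fun i => f (Pi.single i 1), fun i => LinearMap.proj i ∘ₗ g, fun q => ?_⟩
  have h1 : f (g q) = q := LinearMap.congr_fun hfg q
  conv_lhs => rw [← h1]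
  have h2 : g q = ∑ i, (g q i) • (Pi.single i (1 : A) : Fin n → A) := by
    ext j
    rw [Finset.sum_apply]
    simp [Pi.single_apply]
  conv_lhs => rw [h2, map_sum]
  refine Finset.sum_congr rfl fun i _ => ?_
  rw [map_smul]
  rfl

theorem ee_eq_dd [Module.Finite k A] (F : Obj k A) (X : FM k A) : ee F X = dd X F.N := by
  obtain ⟨n, e, c, hec⟩ := exists_dual_basis F.Q
  obtain ⟨m, e', c', hec'⟩ := exists_dual_basis F.P
  have hpk : ∀ (s : k) (x : X.X) (a : A), a • (s • x) = s • (a • x) := by
    intro s x a
    rw [smul_comm]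
  let R := LinearMap.range (pre F X)
  let Θ : Module.Dual k ((F.Q.X →ₗ[A] X.X) ⧸ R) →ₗ[k] (X.X →ₗ[A] F.N.X) :=
    { toFun := fun ζ =>
        { toFun := fun x => ⟨(show Module.Dual k (F.Q.X →ₗ[A] A) from
            { toFun := fun h => ζ (Submodule.Quotient.mk ((LinearMap.toSpanSingleton A X.X x) ∘ₗ h))
              map_add' := by
                intro h h'
                rw [← map_add, ← Submodule.Quotient.mk_add, LinearMap.comp_add]
              map_smul' := by
                intro s h
                rw [RingHom.id_apply, ← map_smul, ← Submodule.Quotient.mk_smul]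
                congr 2
                ext q
                simp }), by
              intro g
              change ζ (Submodule.Quotient.mk
                ((LinearMap.toSpanSingleton A X.X x) ∘ₗ (g ∘ₗ F.f))) = 0
              have : (Submodule.Quotient.mk ((LinearMap.toSpanSingleton A X.X x) ∘ₗ (g ∘ₗ F.f)) :
                  (F.Q.X →ₗ[A] X.X) ⧸ R) = 0 := by
                rw [Submodule.Quotient.mk_eq_zero]
                exact ⟨(LinearMap.toSpanSingleton A X.X x) ∘ₗ g, rfl⟩
              rw [this, map_zero]⟩
          map_add' := by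
            intro x y
            apply Subtype.ext
            refine LinearMap.ext fun h => ?_
            change ζ (Submodule.Quotient.mk _) = ζ (Submodule.Quotient.mk _) +
              ζ (Submodule.Quotient.mk _)
            rw [← map_add, ← Submodule.Quotient.mk_add]
            congr 2
            ext q
            simp
          map_smul' := by
            intro a x
            apply Subtype.ext
            refine LinearMap.ext fun h => ?_
            change ζ (Submodule.Quotient.mk _) = ζ (Submodule.Quotient.mk _)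
            congr 2
            ext q
            simp [rmul_apply, mul_smul] }
      map_add' := by
        intro ζ ξ
        rfl
      map_smul' := by
        intro s ζ
        rfl }
  have hΘ : ∀ ζ x h, (show Module.Dual k (F.Q.X →ₗ[A] A) from (Θ ζ x).1) h =
      ζ (Submodule.Quotient.mk ((LinearMap.toSpanSingleton A X.X x) ∘ₗ h)) := fun _ _ _ => rfl
  have hinj : Function.Injective Θ := by
    rw [← LinearMap.ker_eq_bot, eq_bot_iff]
    intro ζ hζ
    rw [Submodule.mem_bot]
    refine LinearMap.ext fun y => ?_
    obtain ⟨φ, rfl⟩ := Submodule.Quotient.mk_surjective _ y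
    have h1 : φ = ∑ i, (LinearMap.toSpanSingleton A X.X (φ (e i))) ∘ₗ (c i) := by
      ext q
      conv_lhs => rw [hec q]
      simp
    have h2 : ∀ i, ζ (Submodule.Quotient.mk
        ((LinearMap.toSpanSingleton A X.X (φ (e i))) ∘ₗ (c i))) = 0 := by
      intro i
      rw [← hΘ]
      have : Θ ζ = 0 := hζ
      rw [this]
      rfl
    have h3 : (Submodule.Quotient.mk φ : (F.Q.X →ₗ[A] X.X) ⧸ R) =
        ∑ i, Submodule.Quotient.mk ((LinearMap.toSpanSingleton A X.X (φ (e i))) ∘ₗ (c i)) := by
      conv_lhs => rw [h1]
      exact map_sum R.mkQ _ _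
    rw [h3, map_sum, LinearMap.zero_apply]
    exact Finset.sum_eq_zero fun i _ => h2 i
  have hsurj : Function.Surjective Θ := by
    intro ψ
    let ψ' : X.X → Module.Dual k (F.Q.X →ₗ[A] A) := fun x => (ψ x).1
    have hψadd : ∀ x y h, ψ' (x + y) h = ψ' x h + ψ' y h := by
      intro x y h
      change (show Module.Dual k (F.Q.X →ₗ[A] A) from (ψ (x + y)).1) h = _
      rw [map_add]
      rfl
    have hψs : ∀ (a : A) x h, ψ' (a • x) h = ψ' x (rmul k F.Q.X a h) := by
      intro a x h
      change (show Module.Dual k (F.Q.X →ₗ[A] A) from (ψ (a • x)).1) h = _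
      rw [map_smul]
      rfl
    have hψk : ∀ (s : k) x h, ψ' (s • x) h = s • ψ' x h := by
      intro s x h
      rw [← algebraMap_smul A s x, hψs, ← map_smul]
      congr 1
      ext q
      rw [rmul_apply, LinearMap.smul_apply, ← Algebra.commutes, Algebra.smul_def]
    have hψ0 : ∀ x (g : F.P.X →ₗ[A] A), ψ' x (g ∘ₗ F.f) = 0 := fun x g => (ψ x).2 g
    let ζ₀ : (F.Q.X →ₗ[A] X.X) →ₗ[k] k :=
      { toFun := fun φ => ∑ i, ψ' (φ (e i)) (c i)
        map_add' := by
          intro φ φ'
          rw [← Finset.sum_add_distrib]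
          exact Finset.sum_congr rfl fun i _ => hψadd _ _ _
        map_smul' := by
          intro s φ
          rw [RingHom.id_apply, Finset.smul_sum]
          exact Finset.sum_congr rfl fun i _ => hψk _ _ _ }
    have hζ₀ : ∀ x (h : F.Q.X →ₗ[A] A), ζ₀ ((LinearMap.toSpanSingleton A X.X x) ∘ₗ h) = ψ' x h := by
      intro x h
      change ∑ i, ψ' (h (e i) • x) (c i) = ψ' x h
      have : h = ∑ i, rmul k F.Q.X (h (e i)) (c i) := by
        ext q
        conv_lhs => rw [hec q]
        simp [rmul_apply]
      conv_rhs => rw [this, map_sum]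
      exact Finset.sum_congr rfl fun i _ => hψs _ _ _
    have hR : R ≤ LinearMap.ker ζ₀ := by
      rintro _ ⟨χ, rfl⟩
      rw [LinearMap.mem_ker]
      have : pre F X χ = ∑ i, (LinearMap.toSpanSingleton A X.X (χ (e' i))) ∘ₗ (c' i ∘ₗ F.f) := by
        rw [pre_apply]
        ext q
        simp only [LinearMap.comp_apply, LinearMap.sum_apply]
        conv_lhs => rw [hec' (F.f q)]
        simp
      rw [this, map_sum]
      refine Finset.sum_eq_zero fun i _ => ?_
      rw [hζ₀, hψ0]
    refine ⟨R.liftQ ζ₀ hR, ?_⟩
    refine LinearMap.ext fun x => Subtype.ext (LinearMap.ext fun h => ?_)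
    exact (hΘ _ _ _).trans (hζ₀ x h)
  have h1 := LinearEquiv.finrank_eq (LinearEquiv.ofBijective Θ ⟨hinj, hsurj⟩)
  rw [Subspace.dual_finrank_eq] at h1
  exact h1

end dual

end Pool.Agent.Helper391_TT
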