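import Pool.Agent.Helper391_TT.Cone

set_option autoImplicit false

/-!
The descent in a planar cone: the pieces of a Stern–Brocot subdivision.
-/

namespace Pool.Agent.Helper391_TT

universe u

variable {k A : Type u} [Field k] [Ring A] [Algebra k A]

/-- mutual compatibility -/
def Cmp (F G : Obj k A) : Prop := ee F G.M = 0 ∧ ee G F.M = 0

/-- a pair of compatible rigid objects with classes in the monoid generated by `[F]`, `[G]` -/
structure Piece (F G : Obj k A) where
  F' : Obj k A
  G' : Obj k A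
  a : ℕ
  b : ℕ
  c : ℕ
  d : ℕ
  rF : Rigid F'
  rG : Rigid G'
  cmp : Cmp F' G'
  hF : ∀ X, chi F' X = a * chi F X + b * chi G X
  hG : ∀ X, chi G' X = c * chi F X + d * chi G X

/-- the planar cone is covered by finitely many pieces -/
def Cov (F G : Obj k A) : Prop :=
  ∃ L : List (Piece F G), ∀ s t : ℝ, 0 ≤ s → 0 ≤ t → ∃ p ∈ L, ∃ s' t' : ℝ, 0 ≤ s' ∧ 0 ≤ t' ∧
    s = s' * p.a + t' * p.c ∧ t = s' * p.b + t' * p.d

/-- the mediants of level at most `n` are realised by rigid objects -/
def Med : ℕ → Obj k A → Obj k A → Prop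
  | 0, _, _ => True
  | n + 1, F, G => ∃ H : Obj k A, Rigid H ∧ (∀ X, chi H X = chi F X + chi G X) ∧
      Med n F H ∧ Med n H G

theorem cov_of_med [Module.Finite k A] (n : ℕ) : ∀ F G : Obj k A, Rigid F → Rigid G → Med n F G →
    ee F G.M ≤ n → ee G F.M ≤ n → Cov F G := by
  induction n with
  | zero =>
    intro F G hF hG _ h1 h2
    refine ⟨[⟨F, G, 1, 0, 0, 1, hF, hG, ⟨Nat.le_zero.mp h1, Nat.le_zero.mp h2⟩,
      fun X => by push_cast; ring, fun X => by push_cast; ring⟩], fun s t hs ht => ?_⟩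
    refine ⟨_, List.mem_singleton.mpr rfl, s, t, hs, ht, ?_, ?_⟩ <;> simp
  | succ n ih =>
    intro F G hF hG hm h1 h2
    obtain ⟨H, hH, hc, m1, m2⟩ := hm
    have hc' : ∀ X, chi H X = chi G X + chi F X := fun X => by rw [hc, add_comm]
    have a1 : ee F H.M ≤ n := by
      rcases lemB F G H hF hH hc with h | h <;> omega
    have a2 : ee H F.M ≤ n := by
      rcases lemA F G H hF hH hc with h | h <;> omega
    have a3 : ee G H.M ≤ n := by
      rcases lemB G F H hG hH hc' with h | h <;> omega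
    have a4 : ee H G.M ≤ n := by
      rcases lemA G F H hG hH hc' with h | h <;> omega
    obtain ⟨L1, hL1⟩ := ih F H hF hH m1 a1 a2
    obtain ⟨L2, hL2⟩ := ih H G hH hG m2 a4 a3
    let T1 : Piece F H → Piece F G := fun p =>
      { F' := p.F', G' := p.G', a := p.a + p.b, b := p.b, c := p.c + p.d, d := p.d
        rF := p.rF, rG := p.rG, cmp := p.cmp
        hF := fun X => by rw [p.hF, hc]; push_cast; ring
        hG := fun X => by rw [p.hG, hc]; push_cast; ring }
    let T2 : Piece H G → Piece F G := fun p =>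
      { F' := p.F', G' := p.G', a := p.a, b := p.a + p.b, c := p.c, d := p.c + p.d
        rF := p.rF, rG := p.rG, cmp := p.cmp
        hF := fun X => by rw [p.hF, hc]; push_cast; ring
        hG := fun X => by rw [p.hG, hc]; push_cast; ring }
    refine ⟨L1.map T1 ++ L2.map T2, fun s t hs ht => ?_⟩
    rcases le_total t s with h | h
    · obtain ⟨p, hp, s', t', hs', ht', e1, e2⟩ := hL1 (s - t) t (by linarith) ht
      refine ⟨T1 p, List.mem_append_left _ (List.mem_map_of_mem hp), s', t', hs', ht', ?_, ?_⟩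
      · change s = s' * ((p.a + p.b : ℕ) : ℝ) + t' * ((p.c + p.d : ℕ) : ℝ)
        push_cast
        linarith
      · exact e2
    · obtain ⟨p, hp, s', t', hs', ht', e1, e2⟩ := hL2 s (t - s) hs (by linarith)
      refine ⟨T2 p, List.mem_append_right _ (List.mem_map_of_mem hp), s', t', hs', ht', ?_, ?_⟩
      · exact e1
      · change t = s' * ((p.a + p.b : ℕ) : ℝ) + t' * ((p.c + p.d : ℕ) : ℝ)
        push_cast
        linarith

theorem med_of_all (n : ℕ) : ∀ F G : Obj k A,
    (∀ a b : ℕ, ∃ H : Obj k A, Rigid H ∧ ∀ X, chi H X = a * chi F X + b * chi G X) →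
    Med n F G := by
  induction n with
  | zero => intro F G _; trivial
  | succ n ih =>
    intro F G h
    obtain ⟨H, hH, hc⟩ := h 1 1
    have hc' : ∀ X, chi H X = chi F X + chi G X := fun X => by rw [hc]; push_cast; ring
    refine ⟨H, hH, hc', ih F H fun a b => ?_, ih H G fun a b => ?_⟩
    · obtain ⟨K, hK, hcK⟩ := h (a + b) b
      exact ⟨K, hK, fun X => by rw [hcK, hc']; push_cast; ring⟩
    · obtain ⟨K, hK, hcK⟩ := h a (a + b)
      exact ⟨K, hK, fun X => by rw [hcK, hc']; push_cast; ring⟩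

/-- if all classes in the monoid are rigid, the planar cone has a finite cover -/
theorem cov_of_all [Module.Finite k A] (F G : Obj k A) (hF : Rigid F) (hG : Rigid G)
    (h : ∀ a b : ℕ, ∃ H : Obj k A, Rigid H ∧ ∀ X, chi H X = a * chi F X + b * chi G X) :
    Cov F G :=
  cov_of_med (ee F G.M + ee G F.M) F G hF hG (med_of_all _ F G h) (by omega) (by omega)

/-- compatibility is inherited by rigid objects in the monoid -/
theorem ee_comb_left (F G H M' : Obj k A) (hH : Rigid H) (a b : ℕ)
    (hc : ∀ X, chi H X = a * chi F X + b * chi G X) (h1 : ee F M'.M = 0) (h2 : ee G M'.M = 0) :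
    ee H M'.M = 0 := by
  have h := subA (Obj.pi fun _ : Fin a => F) (Obj.pi fun _ : Fin b => G) H hH (fun X => by
    rw [hc, chi_pi, chi_pi]; simp) M'.M
  have e1 : ee (Obj.pi fun _ : Fin a => F) M'.M = 0 := (ee_pi_iff _ _).mpr fun _ => h1
  have e2 : ee (Obj.pi fun _ : Fin b => G) M'.M = 0 := (ee_pi_iff _ _).mpr fun _ => h2
  omega

theorem ee_comb_right [Module.Finite k A] (F G H U : Obj k A) (hH : Rigid H) (a b : ℕ)
    (hc : ∀ X, chi H X = a * chi F X + b * chi G X) (h1 : ee U F.M = 0) (h2 : ee U G.M = 0) :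
    ee U H.M = 0 := by
  have h := subB (Obj.pi fun _ : Fin a => F) (Obj.pi fun _ : Fin b => G) H hH (fun X => by
    rw [hc, chi_pi, chi_pi]; simp) U
  have e1 : ee U (Obj.pi fun _ : Fin a => F).M = 0 := ee_M_pi_zero _ U fun _ => h1
  have e2 : ee U (Obj.pi fun _ : Fin b => G).M = 0 := ee_M_pi_zero _ U fun _ => h2
  omega

theorem cmp_comb [Module.Finite k A] (F G H U : Obj k A) (hH : Rigid H) (a b : ℕ)
    (hc : ∀ X, chi H X = a * chi F X + b * chi G X) (h1 : Cmp U F) (h2 : Cmp U G) :
    Cmp U H :=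
  ⟨ee_comb_right F G H U hH a b hc h1.1 h2.1, ee_comb_left F G H U hH a b hc h1.2 h2.2⟩

/-- Adding `U` often enough makes any family of rigid objects compatible with `U`. -/
theorem cmp_stab [Module.Finite k A] (U : Obj k A) (hU : Rigid U) (n : ℕ) : ∀ F : Obj k A,
    Rigid F → ee F U.M ≤ n → ee U F.M ≤ n →
    (∀ a : ℕ, ∃ H : Obj k A, Rigid H ∧ ∀ X, chi H X = chi F X + a * chi U X) →
    ∃ (N : ℕ) (H : Obj k A), Rigid H ∧ Cmp U H ∧ ∀ X, chi H X = chi F X + N * chi U X := by
  induction n with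
  | zero =>
    intro F hF h1 h2 _
    exact ⟨0, F, hF, ⟨Nat.le_zero.mp h2, Nat.le_zero.mp h1⟩, fun X => by push_cast; ring⟩
  | succ n ih =>
    intro F hF h1 h2 h
    obtain ⟨H, hH, hc⟩ := h 1
    have hc' : ∀ X, chi H X = chi U X + chi F X := fun X => by rw [hc]; push_cast; ring
    have a1 : ee U H.M ≤ n := by
      rcases lemB U F H hU hH hc' with h | h <;> omega
    have a2 : ee H U.M ≤ n := by
      rcases lemA U F H hU hH hc' with h | h <;> omega
    obtain ⟨N, K, hK, hcmp, hcK⟩ := ih H hH a2 a1 (fun a => by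
      obtain ⟨L, hL, hcL⟩ := h (a + 1)
      exact ⟨L, hL, fun X => by rw [hcL, hc]; push_cast; ring⟩)
    exact ⟨N + 1, K, hK, hcmp, fun X => by rw [hcK, hc]; push_cast; ring⟩

end Pool.Agent.Helper391_TT
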