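import Pool.Agent.Helper391_TT.Decomp

set_option autoImplicit false

/-!
Two-term complexes of projective modules `f : Q → P`, seen as presentations of their cokernels;
the spaces `Hom(f, X)` and `E(f, X)`.
-/

namespace Pool.Agent.Helper391_TT

universe u

variable {k A : Type u} [Field k] [Ring A] [Algebra k A]

/-- a submodule, as an object -/
abbrev FM.sub (X : FM k A) (N : Submodule A X.X) : FM k A := ⟨N⟩

/-- a quotient module, as an object -/
abbrev FM.quo (X : FM k A) (N : Submodule A X.X) : FM k A := ⟨X.X ⧸ N⟩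

/-- a finite product, as an object -/
abbrev FM.pi {J : Type} [Fintype J] (V : J → FM k A) : FM k A := ⟨(j : J) → (V j).X⟩

/-- dimension of the space of homomorphisms -/
noncomputable def dd (P X : FM k A) : ℕ := Module.finrank k (P.X →ₗ[A] X.X)

variable (k A) in
/-- a morphism `f : Q → P` between finitely generated projective modules -/
structure Obj : Type (u + 1) where
  Q : FM k A
  P : FM k A
  f : Q.X →ₗ[A] P.X
  pQ : Module.Projective A Q.X
  pP : Module.Projective A P.X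

attribute [instance] Obj.pQ Obj.pP

/-- the cokernel -/
abbrev Obj.M (F : Obj k A) : FM k A := ⟨F.P.X ⧸ LinearMap.range F.f⟩

/-- the projection onto the cokernel -/
def Obj.pr (F : Obj k A) : F.P.X →ₗ[A] F.M.X := (LinearMap.range F.f).mkQ

theorem Obj.pr_surj (F : Obj k A) : Function.Surjective F.pr :=
  (LinearMap.range F.f).mkQ_surjective

theorem Obj.pr_comp (F : Obj k A) : F.pr ∘ₗ F.f = 0 := by
  ext x
  simp only [LinearMap.comp_apply, LinearMap.zero_apply]
  exact (Submodule.Quotient.mk_eq_zero _).mpr ⟨x, rfl⟩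

theorem Obj.pr_ker (F : Obj k A) (x : F.P.X) (h : F.pr x = 0) : ∃ y, F.f y = x :=
  (Submodule.Quotient.mk_eq_zero _).mp h

/-- factor through the cokernel -/
theorem Obj.exists_desc (F : Obj k A) {X : Type u} [AddCommGroup X] [Module A X]
    (φ : F.P.X →ₗ[A] X) (h : φ ∘ₗ F.f = 0) : ∃ ψ : F.M.X →ₗ[A] X, ψ ∘ₗ F.pr = φ := by
  refine ⟨(LinearMap.range F.f).liftQ φ ?_, (LinearMap.range F.f).liftQ_mkQ φ ?_⟩ <;>
  · rintro _ ⟨y, rfl⟩
    exact LinearMap.congr_fun h y

/-- composition with `f` -/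
def pre (F : Obj k A) (X : FM k A) : (F.P.X →ₗ[A] X.X) →ₗ[k] (F.Q.X →ₗ[A] X.X) where
  toFun φ := φ ∘ₗ F.f
  map_add' _ _ := LinearMap.add_comp _ _ _
  map_smul' _ _ := rfl

theorem pre_apply (F : Obj k A) (X : FM k A) (φ : F.P.X →ₗ[A] X.X) : pre F X φ = φ ∘ₗ F.f := rfl

/-- dimension of `E(f, X)` -/
noncomputable def ee (F : Obj k A) (X : FM k A) : ℕ :=
  Module.finrank k ((F.Q.X →ₗ[A] X.X) ⧸ LinearMap.range (pre F X))

/-- dimension of `Hom(f, X)` -/
noncomputable def hh (F : Obj k A) (X : FM k A) : ℕ :=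
  Module.finrank k (LinearMap.ker (pre F X))

/-- the class of `f`, as a function on modules -/
noncomputable def chi (F : Obj k A) (X : FM k A) : ℤ := (dd F.P X : ℤ) - dd F.Q X

theorem hh_sub_ee (F : Obj k A) (X : FM k A) : (hh F X : ℤ) - ee F X = chi F X := by
  have h1 := LinearMap.finrank_range_add_finrank_ker (pre F X)
  have h2 := Submodule.finrank_quotient_add_finrank (LinearMap.range (pre F X))
  unfold hh ee chi dd
  omega

theorem ee_eq_zero_iff (F : Obj k A) (X : FM k A) :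
    ee F X = 0 ↔ ∀ φ : F.Q.X →ₗ[A] X.X, ∃ ψ : F.P.X →ₗ[A] X.X, ψ ∘ₗ F.f = φ := by
  unfold ee
  rw [Module.finrank_zero_iff, Submodule.Quotient.subsingleton_iff, LinearMap.range_eq_top]
  rfl

theorem hh_eq (F : Obj k A) (X : FM k A) : hh F X = dd F.M X := by
  unfold hh dd
  let e : (F.M.X →ₗ[A] X.X) →ₗ[k] LinearMap.ker (pre F X) :=
    { toFun := fun ψ => ⟨ψ ∘ₗ F.pr, by
        rw [LinearMap.mem_ker, pre_apply, LinearMap.comp_assoc, F.pr_comp, LinearMap.comp_zero]⟩
      map_add' := fun _ _ => rfl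
      map_smul' := fun _ _ => rfl }
  refine (LinearEquiv.finrank_eq (LinearEquiv.ofBijective e ⟨?_, ?_⟩)).symm
  · intro a b hab
    have h1 : a ∘ₗ F.pr = b ∘ₗ F.pr := congrArg Subtype.val hab
    refine LinearMap.ext fun x => ?_
    obtain ⟨y, rfl⟩ := F.pr_surj x
    exact LinearMap.congr_fun h1 y
  · rintro ⟨φ, hφ⟩
    obtain ⟨ψ, hψ⟩ := F.exists_desc φ hφ
    exact ⟨ψ, Subtype.ext hψ⟩

/-- right exactness -/
theorem ee_le_of_surj (F : Obj k A) {X Y : FM k A} (π : X.X →ₗ[A] Y.X)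
    (hπ : Function.Surjective π) : ee F Y ≤ ee F X := by
  have hpk : ∀ (c : k) (x : X.X), π (c • x) = c • π x := by
    intro c x
    rw [← algebraMap_smul A c x, map_smul, algebraMap_smul]
  let T : (F.Q.X →ₗ[A] X.X) →ₗ[k] (F.Q.X →ₗ[A] Y.X) :=
    { toFun := fun φ => π ∘ₗ φ
      map_add' := fun _ _ => LinearMap.comp_add _ _ _
      map_smul' := fun c φ => by ext x; exact hpk c (φ x) }
  have hT : LinearMap.range (pre F X) ≤ (LinearMap.range (pre F Y)).comap T := by
    rintro _ ⟨φ, rfl⟩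
    exact ⟨π ∘ₗ φ, rfl⟩
  refine LinearMap.finrank_le_finrank_of_surjective
    (f := (LinearMap.range (pre F X)).mapQ (LinearMap.range (pre F Y)) T hT) ?_
  intro y
  obtain ⟨φ, rfl⟩ := Submodule.Quotient.mk_surjective _ y
  obtain ⟨ψ, hψ⟩ := Module.projective_lifting_property π φ hπ
  exact ⟨Submodule.Quotient.mk ψ, by rw [Submodule.mapQ_apply]; exact congrArg _ hψ⟩

theorem ee_congr (F : Obj k A) {X Y : FM k A} (e : X.X ≃ₗ[A] Y.X) : ee F X = ee F Y :=
  le_antisymm (ee_le_of_surj F e.symm.toLinearMap e.symm.surjective)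
    (ee_le_of_surj F e.toLinearMap e.surjective)

/-- half exactness -/
theorem ee_le_quo (F : Obj k A) (X : FM k A) (N : Submodule A X.X) (h : ee F (X.sub N) = 0) :
    ee F X ≤ ee F (X.quo N) := by
  have hpk : ∀ (c : k) (x : X.X), N.mkQ (c • x) = c • N.mkQ x := by
    intro c x
    rw [← algebraMap_smul A c x, map_smul, algebraMap_smul]
  let T : (F.Q.X →ₗ[A] X.X) →ₗ[k] (F.Q.X →ₗ[A] (X.quo N).X) :=
    { toFun := fun φ => N.mkQ ∘ₗ φ
      map_add' := fun _ _ => LinearMap.comp_add _ _ _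
      map_smul' := fun c φ => by ext x; exact hpk c (φ x) }
  have hT : LinearMap.range (pre F X) ≤ (LinearMap.range (pre F (X.quo N))).comap T := by
    rintro _ ⟨φ, rfl⟩
    exact ⟨N.mkQ ∘ₗ φ, rfl⟩
  refine LinearMap.finrank_le_finrank_of_injective
    (f := (LinearMap.range (pre F X)).mapQ (LinearMap.range (pre F (X.quo N))) T hT) ?_
  rw [← LinearMap.ker_eq_bot, eq_bot_iff]
  intro y hy
  obtain ⟨φ, rfl⟩ := Submodule.Quotient.mk_surjective _ y
  rw [LinearMap.mem_ker, Submodule.mapQ_apply, Submodule.Quotient.mk_eq_zero] at hy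
  obtain ⟨χ, hχ⟩ := hy
  have hχ' : χ ∘ₗ F.f = N.mkQ ∘ₗ φ := hχ
  obtain ⟨ψ, hψ⟩ := Module.projective_lifting_property N.mkQ χ N.mkQ_surjective
  -- the difference lands in `N`
  have hd : ∀ q, (φ - ψ ∘ₗ F.f) q ∈ N := by
    intro q
    rw [← Submodule.Quotient.mk_eq_zero]
    have h1 : N.mkQ (φ q) = χ (F.f q) := (LinearMap.congr_fun hχ' q).symm
    have h2 : N.mkQ (ψ (F.f q)) = χ (F.f q) := LinearMap.congr_fun hψ (F.f q)
    have : N.mkQ ((φ - ψ ∘ₗ F.f) q) = 0 := by
      rw [LinearMap.sub_apply, map_sub, LinearMap.comp_apply, h1, h2, sub_self]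
    exact this
  obtain ⟨θ, hθ⟩ := (ee_eq_zero_iff F (X.sub N)).mp h ((φ - ψ ∘ₗ F.f).codRestrict N hd)
  rw [Submodule.mem_bot, Submodule.Quotient.mk_eq_zero]
  refine ⟨ψ + N.subtype ∘ₗ θ, ?_⟩
  rw [pre_apply]
  ext q
  have h3 : (θ (F.f q) : X.X) = (φ - ψ ∘ₗ F.f) q := by
    have := LinearMap.congr_fun hθ q
    exact congrArg Subtype.val this
  simp only [LinearMap.comp_apply, LinearMap.add_apply]
  have h4 : N.subtype (θ (F.f q)) = (φ - ψ ∘ₗ F.f) q := h3
  rw [h4]
  simp

theorem ee_zero_of_ext (F : Obj k A) (X : FM k A) (N : Submodule A X.X)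
    (h : ee F (X.sub N) = 0) (h' : ee F (X.quo N) = 0) : ee F X = 0 :=
  Nat.le_zero.mp (h' ▸ ee_le_quo F X N h)

/-- `Hom(P, -)` is exact for projective `P` -/
theorem dd_add (P : FM k A) [Module.Projective A P.X] (X : FM k A) (N : Submodule A X.X) :
    dd P X = dd P (X.sub N) + dd P (X.quo N) := by
  have hpk : ∀ (c : k) (x : X.X), N.mkQ (c • x) = c • N.mkQ x := by
    intro c x
    rw [← algebraMap_smul A c x, map_smul, algebraMap_smul]
  have hsk : ∀ (c : k) (x : N), N.subtype (c • x) = c • N.subtype x := by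
    intro c x
    rfl
  let T : (P.X →ₗ[A] X.X) →ₗ[k] (P.X →ₗ[A] (X.quo N).X) :=
    { toFun := fun φ => N.mkQ ∘ₗ φ
      map_add' := fun _ _ => LinearMap.comp_add _ _ _
      map_smul' := fun c φ => by ext x; exact hpk c (φ x) }
  let S : (P.X →ₗ[A] (X.sub N).X) →ₗ[k] (P.X →ₗ[A] X.X) :=
    { toFun := fun φ => N.subtype ∘ₗ φ
      map_add' := fun _ _ => LinearMap.comp_add _ _ _
      map_smul' := fun c φ => by ext x; exact hsk c (φ x) }
  have hT : Function.Surjective T := by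
    intro φ
    obtain ⟨ψ, hψ⟩ := Module.projective_lifting_property N.mkQ φ N.mkQ_surjective
    exact ⟨ψ, hψ⟩
  have hS : Function.Injective S := by
    intro a b hab
    ext x
    exact LinearMap.congr_fun hab x
  have hker : LinearMap.ker T = LinearMap.range S := by
    ext φ
    rw [LinearMap.mem_ker]
    constructor
    · intro h
      have hd : ∀ x, φ x ∈ N := by
        intro x
        rw [← Submodule.Quotient.mk_eq_zero]
        exact LinearMap.congr_fun h x
      exact ⟨φ.codRestrict N hd, by ext x; rfl⟩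
    · rintro ⟨ψ, rfl⟩
      ext x
      exact (Submodule.Quotient.mk_eq_zero _).mpr (ψ x).2
  have h1 := LinearMap.finrank_range_add_finrank_ker T
  rw [hker, LinearMap.finrank_range_of_inj hS, LinearMap.range_eq_top.mpr hT, finrank_top] at h1
  unfold dd
  omega

theorem chi_add (F : Obj k A) (X : FM k A) (N : Submodule A X.X) :
    chi F X = chi F (X.sub N) + chi F (X.quo N) := by
  unfold chi
  rw [dd_add F.P X N, dd_add F.Q X N]
  push_cast
  ring

theorem ee_pi_zero (F : Obj k A) {J : Type} [Fintype J] (V : J → FM k A)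
    (h : ∀ j, ee F (V j) = 0) : ee F (FM.pi V) = 0 := by
  rw [ee_eq_zero_iff]
  intro φ
  have h1 : ∀ j, ∃ ψ : F.P.X →ₗ[A] (V j).X, ψ ∘ₗ F.f = LinearMap.proj j ∘ₗ φ :=
    fun j => (ee_eq_zero_iff F (V j)).mp (h j) (LinearMap.proj j ∘ₗ φ)
  choose ψ hψ using h1
  refine ⟨LinearMap.pi ψ, ?_⟩
  ext q j
  exact LinearMap.congr_fun (hψ j) q

end Pool.Agent.Helper391_TT
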