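import Pool.Agent.Helper391_TT.Planar

set_option autoImplicit false

/-!
Superfluous submodules, minimal projective presentations.
-/

namespace Pool.Agent.Helper391_TT

universe u

section small

variable {A : Type u} [Ring A]

variable {M M' : Type u} [AddCommGroup M] [Module A M] [AddCommGroup M'] [Module A M']

theorem Small.mono {N N' : Submodule A M} (h : Small N) (hN : N' ≤ N) : Small N' := by
  intro K hK
  apply h K
  rw [eq_top_iff, ← hK]
  exact sup_le_sup_right hN K

theorem small_bot : Small (⊥ : Submodule A M) := by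
  intro K hK
  rwa [bot_sup_eq] at hK

theorem Small.sup {N N' : Submodule A M} (h : Small N) (h' : Small N') : Small (N ⊔ N') := by
  intro K hK
  rw [sup_assoc] at hK
  exact h' K (h _ hK)

theorem Small.map {N : Submodule A M} (h : Small N) (f : M →ₗ[A] M') : Small (N.map f) := by
  intro K hK
  have h1 : K.comap f = ⊤ := by
    apply h
    rw [eq_top_iff]
    intro m _
    have h2 : f m ∈ N.map f ⊔ K := by rw [hK]; trivial
    obtain ⟨_, ⟨n, hn, rfl⟩, y, hy, hs⟩ := Submodule.mem_sup.mp h2
    refine Submodule.mem_sup.mpr ⟨n, hn, m - n, ?_, by abel⟩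
    change f (m - n) ∈ K
    rw [map_sub, ← hs]
    simpa using hy
  have h3 : N.map f ≤ K := by
    rintro _ ⟨n, -, rfl⟩
    have : n ∈ K.comap f := by rw [h1]; trivial
    exact this
  rwa [sup_eq_right.mpr h3] at hK

theorem small_iSup {J : Type} [Fintype J] (N : J → Submodule A M) (h : ∀ j, Small (N j)) :
    Small (⨆ j, N j) := by
  classical
  have h1 : ∀ s : Finset J, Small (⨆ j ∈ s, N j) := by
    intro s
    induction s using Finset.induction_on with
    | empty => simpa using small_bot
    | insert a s _ ih =>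
      rw [Finset.iSup_insert]
      exact (h a).sup ih
  simpa using h1 Finset.univ

/-- a submodule of a finite product whose components are superfluous is superfluous -/
theorem small_pi {J : Type} [Fintype J] {V : J → Type u} [∀ j, AddCommGroup (V j)]
    [∀ j, Module A (V j)] (N : (j : J) → Submodule A (V j)) (h : ∀ j, Small (N j))
    (S : Submodule A ((j : J) → V j)) (hS : ∀ x ∈ S, ∀ j, x j ∈ N j) : Small S := by
  classical
  refine (small_iSup (fun j => (N j).map (LinearMap.single A V j))
    (fun j => (h j).map _)).mono ?_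
  intro x hx
  have h2 : x = ∑ j, LinearMap.single A V j (x j) := by
    ext i
    rw [Finset.sum_apply]
    simp only [LinearMap.coe_single]
    rw [Finset.sum_eq_single i]
    · simp
    · intro b _ hb
      rw [Pi.single_eq_of_ne (Ne.symm hb)]
    · simp
  rw [h2]
  refine Submodule.sum_mem _ fun j _ => ?_
  exact Submodule.mem_iSup_of_mem j ⟨x j, hS x hx j, rfl⟩

/-- a map which is surjective modulo a superfluous kernel is surjective -/
theorem surj_of_small {L : Type u} [AddCommGroup L] [Module A L] (π : M →ₗ[A] M')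
    (hπ : Small (LinearMap.ker π)) (a : L →ₗ[A] M)
    (h : Function.Surjective (π ∘ₗ a)) : Function.Surjective a := by
  rw [← LinearMap.range_eq_top]
  apply hπ
  rw [eq_top_iff]
  intro m _
  obtain ⟨l, hl⟩ := h (π m)
  refine Submodule.mem_sup.mpr ⟨m - a l, ?_, a l, ⟨l, rfl⟩, by abel⟩
  rw [LinearMap.mem_ker, map_sub]
  have : π (a l) = π m := hl
  rw [this, sub_self]

end small

variable {k A : Type u} [Field k] [Ring A] [Algebra k A]

/-- a surjective endomorphism is bijective -/
theorem bij_of_surj (M : FM k A) (f : M.X →ₗ[A] M.X) (h : Function.Surjective f) :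
    Function.Bijective f := by
  have := noeth k (A := A) M.X
  exact IsNoetherian.bijective_of_surjective_endomorphism f h

theorem bij_of_inj (M : FM k A) (f : M.X →ₗ[A] M.X) (h : Function.Injective f) :
    Function.Bijective f := by
  have := artin k (A := A) M.X
  exact IsArtinian.bijective_of_injective_endomorphism f h

/-- projective covers exist -/
theorem exists_cover [Module.Finite k A] (M : FM k A) :
    ∃ (P : FM k A) (π : P.X →ₗ[A] M.X), Module.Projective A P.X ∧ Function.Surjective π ∧
      Small (LinearMap.ker π) := by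
  classical
  let S : Set ℕ := {n | ∃ (P : FM k A) (π : P.X →ₗ[A] M.X), Module.Projective A P.X ∧
    Function.Surjective π ∧ Module.finrank k P.X = n}
  have hne : S.Nonempty := by
    have : Module.Finite A M.X := Module.Finite.of_restrictScalars_finite k A M.X
    obtain ⟨n, f, hf⟩ := Module.Finite.exists_fin' A M.X
    exact ⟨_, ⟨Fin n → A⟩, f, inferInstance, hf, rfl⟩
  obtain ⟨P, π, hP, hπ, hn⟩ := Nat.sInf_mem hne
  refine ⟨P, π, hP, hπ, ?_⟩
  intro K hK
  -- `π` restricted to `K` is surjective
  have h1 : Function.Surjective (π ∘ₗ K.subtype) := by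
    intro m
    obtain ⟨p, rfl⟩ := hπ m
    have : p ∈ LinearMap.ker π ⊔ K := by rw [hK]; trivial
    obtain ⟨y, hy, z, hz, hs⟩ := Submodule.mem_sup.mp this
    refine ⟨⟨z, hz⟩, ?_⟩
    change π z = π p
    rw [← hs, map_add, LinearMap.mem_ker.mp hy, zero_add]
  obtain ⟨b, hb⟩ := Module.projective_lifting_property (π ∘ₗ K.subtype) π h1
  let e : Module.End A P.X := K.subtype ∘ₗ b
  have he : ∀ x, π (e x) = π x := fun x => LinearMap.congr_fun hb x
  have hen : ∀ (n : ℕ) (x : P.X), π ((e ^ n) x) = π x := by
    intro n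
    induction n with
    | zero => intro x; simp
    | succ n ih => intro x; rw [pow_succ, Module.End.mul_apply, ih, he]
  have := noeth k (A := A) P.X
  have := artin k (A := A) P.X
  have h := LinearMap.eventually_isCompl_ker_pow_range_pow (R := A) (M := P.X) e
  obtain ⟨n, hn'⟩ := Filter.eventually_atTop.mp h
  have hc := hn' (n + 1) (by omega)
  let P'' : Submodule A P.X := LinearMap.range (e ^ (n + 1))
  have hpr : Module.Projective A P'' := by
    refine Module.Projective.of_split P''.subtype (P''.projectionOnto _ hc.symm) ?_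
    ext x
    simp
  have hs : Function.Surjective (π ∘ₗ P''.subtype) := by
    intro m
    obtain ⟨p, rfl⟩ := hπ m
    refine ⟨⟨(e ^ (n + 1)) p, ⟨p, rfl⟩⟩, ?_⟩
    exact hen (n + 1) p
  have hle : sInf S ≤ Module.finrank k P'' := Nat.sInf_le ⟨⟨P''⟩, _, hpr, hs, rfl⟩
  have htop : P'' = ⊤ := by
    have h2 : Module.finrank k P.X ≤ Module.finrank k P'' := hn ▸ hle
    have h3 : (P''.restrictScalars k) = ⊤ := by
      apply Submodule.eq_top_of_finrank_eq
      exact le_antisymm (Submodule.finrank_le _) h2
    rw [eq_top_iff]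
    intro x _
    have : x ∈ P''.restrictScalars k := by rw [h3]; trivial
    exact this
  rw [eq_top_iff, ← htop]
  rintro _ ⟨x, rfl⟩
  rw [pow_succ', Module.End.mul_apply]
  exact (b _).2

theorem exists_minPres [Module.Finite k A] (V : FM k A) : Nonempty (MinPres V) := by
  obtain ⟨P₀, π, hP₀, hπ, h0⟩ := exists_cover V
  obtain ⟨P₁, ρ, hP₁, hρ, h1⟩ := exists_cover (P₀.sub (LinearMap.ker π))
  refine ⟨⟨P₁, P₀, hP₁, hP₀, (LinearMap.ker π).subtype ∘ₗ ρ, π, hπ, ?_, h0, ?_⟩⟩
  · ext x
    constructor
    · rintro ⟨y, rfl⟩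
      exact (ρ y).2
    · intro hx
      obtain ⟨y, hy⟩ := hρ ⟨x, hx⟩
      exact ⟨y, by rw [LinearMap.comp_apply, hy]; rfl⟩
  · refine h1.mono ?_
    intro x hx
    have h2 : (LinearMap.ker π).subtype (ρ x) = 0 := hx
    have h3 : ρ x = 0 := (LinearMap.ker π).subtype_injective (by rw [h2, map_zero])
    exact h3

/-- the object given by a minimal presentation -/
abbrev MinPres.obj {V : FM k A} (S : MinPres V) : Obj k A where
  Q := S.P₁
  P := S.P₀
  f := S.f
  pQ := S.pP₁
  pP := S.pP₀

/-- a cokernel -/
noncomputable def MinPres.iso {V : FM k A} (S : MinPres V) : S.obj.M.X ≃ₗ[A] V.X :=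
  (Submodule.quotEquivOfEq _ _ S.exact) ≪≫ₗ (LinearMap.quotKerEquivOfSurjective S.π S.surj)

theorem MinPres.iso_pr {V : FM k A} (S : MinPres V) (x : S.P₀.X) :
    S.iso (S.obj.pr x) = S.π x := rfl

/-- finite sums of minimal presentations -/
def MinPres.pi {J : Type} [Fintype J] {V : J → FM k A} (S : (j : J) → MinPres (V j)) :
    MinPres (FM.pi V) where
  P₁ := FM.pi fun j => (S j).P₁
  P₀ := FM.pi fun j => (S j).P₀
  pP₁ := inferInstance
  pP₀ := inferInstance
  f := LinearMap.pi fun j => (S j).f ∘ₗ LinearMap.proj j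
  π := LinearMap.pi fun j => (S j).π ∘ₗ LinearMap.proj j
  surj := by
    intro y
    choose x hx using fun j => (S j).surj (y j)
    exact ⟨x, funext hx⟩
  exact := by
    ext x
    constructor
    · rintro ⟨y, rfl⟩
      rw [LinearMap.mem_ker]
      ext j
      have : (S j).f (y j) ∈ LinearMap.ker (S j).π := (S j).exact ▸ ⟨y j, rfl⟩
      exact this
    · intro hx
      rw [LinearMap.mem_ker] at hx
      have h1 : ∀ j, ∃ y, (S j).f y = x j := by
        intro j
        have : x j ∈ LinearMap.ker (S j).π := congrFun hx j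
        rw [← (S j).exact] at this
        exact this
      choose y hy using h1
      exact ⟨y, funext hy⟩
  min₀ := small_pi _ (fun j => (S j).min₀) _ fun x hx j => congrFun (LinearMap.mem_ker.mp hx) j
  min₁ := small_pi _ (fun j => (S j).min₁) _ fun x hx j => congrFun (LinearMap.mem_ker.mp hx) j

/-- a minimal presentation of an isomorphic module -/
def MinPres.congr {V W : FM k A} (S : MinPres V) (e : V.X ≃ₗ[A] W.X) : MinPres W where
  P₁ := S.P₁
  P₀ := S.P₀
  pP₁ := S.pP₁
  pP₀ := S.pP₀
  f := S.f
  π := e.toLinearMap ∘ₗ S.π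
  surj := e.surjective.comp S.surj
  exact := by
    rw [S.exact, LinearMap.ker_comp]
    simp
  min₀ := by
    refine S.min₀.mono ?_
    intro x hx
    have : e (S.π x) = 0 := hx
    rw [LinearMap.mem_ker]
    exact e.map_eq_zero_iff.mp this
  min₁ := S.min₁

end Pool.Agent.Helper391_TT
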