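import Pool.Agent.Helper391_TT.Chain

set_option autoImplicit false

/-!
Sums of images of non-isomorphisms; a member of a finite family of indecomposable modules which
is not generated by the non-isomorphisms from the family.
-/

namespace Pool.Agent.Helper391_TT

universe u

variable {k A : Type u} [Field k] [Ring A] [Algebra k A]

theorem bij_of_comp {V W : FM k A} (hV : Indec A V.X) (hW : Indec A W.X)
    (φ : V.X →ₗ[A] W.X) (ψ : W.X →ₗ[A] V.X) (h : Function.Bijective (ψ ∘ₗ φ)) :
    Function.Bijective φ := by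
  have hinj : Function.Injective φ := Function.Injective.of_comp (f := ψ) h.1
  let e := LinearEquiv.ofBijective (ψ ∘ₗ φ) h
  have hr : Retract A V.X W.X := by
    refine ⟨φ, e.symm.toLinearMap ∘ₗ ψ, ?_⟩
    ext x
    have h2 : e x = ψ (φ x) := rfl
    have h3 := e.symm_apply_apply x
    rw [h2] at h3
    exact h3
  obtain ⟨g⟩ := hr.equiv hW hV.1
  have h4 : Function.Bijective (g.symm.toLinearMap ∘ₗ φ) :=
    bij_of_inj V _ (g.symm.injective.comp hinj)
  refine ⟨hinj, fun y => ?_⟩
  obtain ⟨x, hx⟩ := h4.2 (g.symm y)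
  exact ⟨x, g.symm.injective hx⟩

/-- the sum of the images of the non-isomorphisms `Vⱼ → W` -/
def radd {J : Type} (V : J → FM k A) (W : FM k A) : Submodule A W.X :=
  ⨆ p : (Σ j : J, {φ : (V j).X →ₗ[A] W.X // ¬ Function.Bijective φ}), LinearMap.range p.2.1

theorem le_radd {J : Type} (V : J → FM k A) (W : FM k A) (j : J) (φ : (V j).X →ₗ[A] W.X)
    (h : ¬ Function.Bijective φ) : LinearMap.range φ ≤ radd V W :=
  le_iSup (fun p : (Σ j : J, {φ : (V j).X →ₗ[A] W.X // ¬ Function.Bijective φ}) =>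
    LinearMap.range p.2.1) ⟨j, φ, h⟩

theorem ee_sup (F : Obj k A) (X : FM k A) (N₁ N₂ : Submodule A X.X) (h1 : ee F (X.sub N₁) = 0)
    (h2 : ee F (X.sub N₂) = 0) : ee F (X.sub (N₁ ⊔ N₂)) = 0 := by
  let π : ((X.sub N₁).prod (X.sub N₂)).X →ₗ[A] (X.sub (N₁ ⊔ N₂)).X :=
    LinearMap.coprod (Submodule.inclusion le_sup_left) (Submodule.inclusion le_sup_right)
  have hπ : Function.Surjective π := by
    rintro ⟨x, hx⟩
    obtain ⟨a, ha, b, hb, hab⟩ := Submodule.mem_sup.mp hx
    exact ⟨(⟨a, ha⟩, ⟨b, hb⟩), Subtype.ext hab⟩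
  have h3 : ee F ((X.sub N₁).prod (X.sub N₂)) = 0 := by
    rw [ee_eq_zero_iff] at h1 h2 ⊢
    intro φ
    obtain ⟨ψ₁, hψ₁⟩ := h1 (LinearMap.fst A (X.sub N₁).X (X.sub N₂).X ∘ₗ φ)
    obtain ⟨ψ₂, hψ₂⟩ := h2 (LinearMap.snd A (X.sub N₁).X (X.sub N₂).X ∘ₗ φ)
    refine ⟨ψ₁.prod ψ₂, ?_⟩
    refine LinearMap.ext fun q => Prod.ext ?_ ?_
    · exact LinearMap.congr_fun hψ₁ q
    · exact LinearMap.congr_fun hψ₂ q
  have h4 := ee_le_of_surj F (X := (X.sub N₁).prod (X.sub N₂)) (Y := X.sub (N₁ ⊔ N₂)) π hπ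
  omega

theorem ee_radd (F : Obj k A) {J : Type} (V : J → FM k A) (W : FM k A)
    (h : ∀ j, ee F (V j) = 0) : ee F (W.sub (radd V W)) = 0 := by
  classical
  have := noeth k (A := A) W.X
  obtain ⟨t, ht, hs⟩ := CompleteLattice.WellFoundedGT.isSupFiniteCompact (Submodule A W.X)
    (Set.range fun p : (Σ j : J, {φ : (V j).X →ₗ[A] W.X // ¬ Function.Bijective φ}) =>
      LinearMap.range p.2.1)
  have h1 : radd V W = t.sup id := hs
  rw [h1]
  refine Finset.sup_induction (p := fun N => ee F (W.sub N) = 0) ?_ ?_ ?_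
  · rw [ee_eq_zero_iff]
    intro φ
    refine ⟨0, ?_⟩
    ext q
  · intro N₁ h1 N₂ h2
    exact ee_sup F W N₁ N₂ h1 h2
  · intro N hN
    obtain ⟨p, hp⟩ := ht hN
    have h5 : LinearMap.range p.2.1 = N := hp
    change ee F (W.sub N) = 0
    rw [← h5]
    have h6 := ee_le_of_surj F (X := V p.1) (Y := W.sub (LinearMap.range p.2.1))
      p.2.1.rangeRestrict p.2.1.surjective_rangeRestrict
    rw [h p.1] at h6
    exact Nat.le_zero.mp h6

theorem exists_radd_ne_top {J : Type} [Fintype J] [Nonempty J] (V : J → FM k A)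
    (hV : ∀ j, Indec A (V j).X) : ∃ j, radd V (V j) ≠ ⊤ := by
  classical
  by_contra hcon
  push Not at hcon
  let M := (j : J) → (V j).X
  let E := Module.End A M
  have htow : IsScalarTower k E M := ⟨fun c f m => rfl⟩
  have hfin : Module.Finite E M := Module.Finite.of_restrictScalars_finite k E M
  have hjac : ∀ (i j : J) (φ : (V i).X →ₗ[A] (V j).X), ¬ Function.Bijective φ →
      (LinearMap.single A (fun j => (V j).X) j ∘ₗ φ ∘ₗ LinearMap.proj i : E) ∈
        Ring.jacobson E := by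
    intro i j φ hφ
    rw [← Ideal.jacobson_bot, Ideal.mem_jacobson_iff]
    intro y
    let a : (V i).X →ₗ[A] M := y ∘ₗ LinearMap.single A (fun j => (V j).X) j ∘ₗ φ
    let b : M →ₗ[A] (V i).X := LinearMap.proj i
    have hnb : ¬ Function.Bijective (b ∘ₗ a) := by
      intro hb
      exact hφ (bij_of_comp (hV i) (hV j) φ
        (b ∘ₗ y ∘ₗ LinearMap.single A (fun j => (V j).X) j) hb)
    have hnil : IsNilpotent (b ∘ₗ a : Module.End A (V i).X) :=
      (bij_or_nil k (hV i) (b ∘ₗ a)).resolve_left hnb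
    obtain ⟨c, hc⟩ := (hnil.isUnit_one_add).exists_left_inv
    have hc' : ∀ v, c (v + b (a v)) = v := fun v => LinearMap.congr_fun hc v
    refine ⟨1 - (a ∘ₗ c ∘ₗ b : M →ₗ[A] M), ?_⟩
    rw [Submodule.mem_bot]
    refine LinearMap.ext fun v => ?_
    have h1 : (LinearMap.single A (fun j => (V j).X) j ∘ₗ φ ∘ₗ LinearMap.proj i : E) v =
        LinearMap.single A (fun j => (V j).X) j (φ (b v)) := rfl
    have h2 : y ((LinearMap.single A (fun j => (V j).X) j ∘ₗ φ ∘ₗ LinearMap.proj i : E) v) =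
        a (b v) := rfl
    have h3 : ∀ w, (1 - (a ∘ₗ c ∘ₗ b : M →ₗ[A] M) : E) w = w - a (c (b w)) := fun w => rfl
    simp only [LinearMap.sub_apply, LinearMap.add_apply, Module.End.mul_apply,
      Module.End.one_apply, LinearMap.zero_apply]
    change (a (b v) - a (c (b (a (b v))))) + (v - a (c (b v))) - v = 0
    have h4 : a (c (b v + b (a (b v)))) = a (b v) := by rw [hc']
    rw [map_add, map_add] at h4
    have h5 : a (b v) - a (c (b (a (b v)))) = a (c (b v)) := by
      rw [sub_eq_iff_eq_add]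
      exact h4.symm
    rw [h5]
    abel
  have hnt : Nontrivial M := by
    obtain ⟨j⟩ := ‹Nonempty J›
    have := (hV j).1
    exact Pi.nontrivial_at j
  have hlt := Submodule.jacobson_smul_lt_top (R := E) (M := M) ⊤
  refine hlt.ne (eq_top_iff.mpr fun m _ => ?_)
  have h2 : m = ∑ j, LinearMap.single A (fun j => (V j).X) j (m j) := by
    ext i
    rw [Finset.sum_apply]
    simp only [LinearMap.coe_single]
    rw [Finset.sum_eq_single i]
    · simp
    · intro b _ hb
      rw [Pi.single_eq_of_ne (Ne.symm hb)]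
    · simp
  rw [h2]
  refine Submodule.sum_mem _ fun j _ => ?_
  have h3 : m j ∈ radd V (V j) := by rw [hcon j]; trivial
  unfold radd at h3
  refine Submodule.iSup_induction _ (motive := fun w =>
    LinearMap.single A (fun j => (V j).X) j w ∈ (Ring.jacobson E • (⊤ : Submodule E M)))
    h3 ?_ ?_ ?_
  · rintro ⟨i, φ, hφ⟩ _ ⟨y, rfl⟩
    have h4 := Submodule.smul_mem_smul (hjac i j φ hφ)
      (Submodule.mem_top : (LinearMap.single A (fun j => (V j).X) i y : M) ∈ (⊤ : Submodule E M))
    have h5 : (LinearMap.single A (fun j => (V j).X) j ∘ₗ φ ∘ₗ LinearMap.proj i : E) •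
        (LinearMap.single A (fun j => (V j).X) i y : M) =
        LinearMap.single A (fun j => (V j).X) j (φ y) := by
      have h6 : (LinearMap.single A (fun j => (V j).X) i y : M) i = y := by
        simp only [LinearMap.coe_single, Pi.single_eq_same]
      change LinearMap.single A (fun j => (V j).X) j
        (φ ((LinearMap.single A (fun j => (V j).X) i y : M) i)) = _
      rw [h6]
    rw [h5] at h4
    exact h4
  · rw [map_zero]
    exact Submodule.zero_mem _
  · intro x y hx hy
    rw [map_add]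
    exact Submodule.add_mem _ hx hy

end Pool.Agent.Helper391_TT
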