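import Pool.Agent.Helper391_TT.Uniq

set_option autoImplicit false

/-!
Finite direct sums of objects.
-/

namespace Pool.Agent.Helper391_TT

universe u

variable {k A : Type u} [Field k] [Ring A] [Algebra k A]

instance projPi {J : Type} [Fintype J] (V : J → Type u) [∀ j, AddCommGroup (V j)]
    [∀ j, Module A (V j)] [∀ j, Module.Projective A (V j)] :
    Module.Projective A ((j : J) → V j) := by
  classical
  refine Module.Projective.of_equiv (DirectSum.linearEquivFunOnFintype A J V)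

/-- direct sum of objects -/
abbrev Obj.pi {J : Type} [Fintype J] (Z : J → Obj k A) : Obj k A where
  Q := FM.pi fun j => (Z j).Q
  P := FM.pi fun j => (Z j).P
  f := LinearMap.pi fun j => (Z j).f ∘ₗ LinearMap.proj j
  pQ := inferInstance
  pP := inferInstance

theorem dd_pi_left {J : Type} [Fintype J] (V : J → FM k A) (X : FM k A) :
    dd (FM.pi V) X = ∑ j, dd (V j) X := by
  classical
  unfold dd
  rw [← Module.finrank_pi_fintype k]
  exact (LinearEquiv.finrank_eq (LinearMap.lsum A (fun j => (V j).X) k)).symm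

theorem chi_pi {J : Type} [Fintype J] (Z : J → Obj k A) (X : FM k A) :
    chi (Obj.pi Z) X = ∑ j, chi (Z j) X := by
  unfold chi
  rw [dd_pi_left, dd_pi_left, Finset.sum_sub_distrib]
  push_cast
  rfl

theorem ee_pi_iff {J : Type} [Fintype J] (Z : J → Obj k A) (X : FM k A) :
    ee (Obj.pi Z) X = 0 ↔ ∀ j, ee (Z j) X = 0 := by
  classical
  simp only [ee_eq_zero_iff]
  constructor
  · intro h j φ
    obtain ⟨ψ, hψ⟩ := h (φ ∘ₗ LinearMap.proj j)
    refine ⟨ψ ∘ₗ LinearMap.single A (fun j => (Z j).P.X) j, ?_⟩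
    refine LinearMap.ext fun q => ?_
    have h1 := LinearMap.congr_fun hψ (LinearMap.single A (fun j => (Z j).Q.X) j q)
    simp only [LinearMap.comp_apply, LinearMap.proj_apply, LinearMap.coe_single,
      Pi.single_eq_same] at h1
    rw [← h1, LinearMap.comp_apply, LinearMap.comp_apply]
    congr 1
    ext i
    simp only [LinearMap.coe_single, LinearMap.pi_apply, LinearMap.comp_apply,
      LinearMap.proj_apply]
    by_cases hij : i = j
    · subst hij; simp
    · rw [Pi.single_eq_of_ne hij, Pi.single_eq_of_ne hij, map_zero]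
  · intro h φ
    have h1 : ∀ j, ∃ ψ : (Z j).P.X →ₗ[A] X.X,
        ψ ∘ₗ (Z j).f = φ ∘ₗ LinearMap.single A (fun j => (Z j).Q.X) j := fun j => h j _
    choose ψ hψ using h1
    refine ⟨∑ j, ψ j ∘ₗ LinearMap.proj j, ?_⟩
    refine LinearMap.ext fun q => ?_
    have h2 : q = ∑ j, LinearMap.single A (fun j => (Z j).Q.X) j (q j) := by
      ext i
      rw [Finset.sum_apply]
      simp only [LinearMap.coe_single]
      rw [Finset.sum_eq_single i]
      · simp
      · intro b _ hb
        rw [Pi.single_eq_of_ne (Ne.symm hb)]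
      · simp
    conv_rhs => rw [h2, map_sum]
    simp only [LinearMap.comp_apply, LinearMap.sum_apply, LinearMap.pi_apply,
      LinearMap.proj_apply]
    exact Finset.sum_congr rfl fun j _ => LinearMap.congr_fun (hψ j) (q j)

/-- the cokernel of a direct sum -/
theorem pi_M {J : Type} [Fintype J] (Z : J → Obj k A) :
    Nonempty ((Obj.pi Z).M.X ≃ₗ[A] ((j : J) → (Z j).M.X)) := by
  classical
  let g : (Obj.pi Z).P.X →ₗ[A] ((j : J) → (Z j).M.X) :=
    LinearMap.pi fun j => (Z j).pr ∘ₗ LinearMap.proj j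
  have hg : Function.Surjective g := by
    intro y
    choose x hx using fun j => (Z j).pr_surj (y j)
    exact ⟨x, funext hx⟩
  have hker : LinearMap.ker g = LinearMap.range (Obj.pi Z).f := by
    ext x
    rw [LinearMap.mem_ker]
    constructor
    · intro h
      have h1 : ∀ j, ∃ y, (Z j).f y = x j := fun j => (Z j).pr_ker _ (congrFun h j)
      choose y hy using h1
      exact ⟨y, funext hy⟩
    · rintro ⟨y, rfl⟩
      ext j
      exact LinearMap.congr_fun (Z j).pr_comp (y j)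
  exact ⟨(Submodule.quotEquivOfEq _ _ hker.symm) ≪≫ₗ
    (LinearMap.quotKerEquivOfSurjective g hg)⟩

theorem ee_M_pi_zero {J : Type} [Fintype J] (Z : J → Obj k A) (U : Obj k A)
    (h : ∀ j, ee U (Z j).M = 0) : ee U (Obj.pi Z).M = 0 := by
  obtain ⟨e⟩ := pi_M Z
  rw [ee_congr U (Y := FM.pi fun j => (Z j).M) e]
  exact ee_pi_zero U _ h

theorem rigid_pi {J : Type} [Fintype J] (Z : J → Obj k A)
    (h : ∀ i j, ee (Z i) (Z j).M = 0) : Rigid (Obj.pi Z) := by
  unfold Rigid
  rw [ee_pi_iff]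
  intro i
  exact ee_M_pi_zero Z (Z i) (h i)

theorem rigid_pi_iff {J : Type} [Fintype J] (Z : J → Obj k A) :
    Rigid (Obj.pi Z) ↔ ∀ i j, ee (Z i) (Z j).M = 0 := by
  classical
  refine ⟨fun h i j => ?_, rigid_pi Z⟩
  unfold Rigid at h
  rw [ee_pi_iff] at h
  have h1 := h i
  obtain ⟨e⟩ := pi_M Z
  have h2 : ee (Z i) (Z j).M ≤ ee (Z i) (Obj.pi Z).M := by
    refine ee_le_of_surj (Z i) (X := (Obj.pi Z).M) (Y := (Z j).M)
      ((LinearMap.proj j) ∘ₗ e.toLinearMap) ?_
    intro y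
    refine ⟨e.symm (Pi.single j y), ?_⟩
    simp
  omega

/-- the sum `⊕ Zᵢ^{nᵢ}` -/
abbrev Obj.comb {I : Type} [Fintype I] (Z : I → Obj k A) (n : I → ℕ) : Obj k A :=
  Obj.pi fun j : (Σ i : I, Fin (n i)) => Z j.1

theorem chi_comb {I : Type} [Fintype I] (Z : I → Obj k A) (n : I → ℕ) (X : FM k A) :
    chi (Obj.comb Z n) X = ∑ i, (n i : ℤ) * chi (Z i) X := by
  rw [chi_pi, Fintype.sum_sigma]
  refine Finset.sum_congr rfl fun i _ => ?_
  simp

theorem rigid_comb {I : Type} [Fintype I] (Z : I → Obj k A) (n : I → ℕ)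
    (h : ∀ i j, ee (Z i) (Z j).M = 0) : Rigid (Obj.comb Z n) :=
  rigid_pi _ fun i j => h i.1 j.1

/-- an indecomposable retract of a power of a direct sum is a retract of a summand -/
theorem retract_comb {I : Type} [Fintype I] (Z : I → Obj k A) (n : I → ℕ) (V : FM k A)
    (hV : Indec A V.X) (r : ℕ) (h : Retract A V.X (Fin r → (Obj.comb Z n).M.X)) :
    ∃ i, n i ≠ 0 ∧ Retract A V.X (Z i).M.X := by
  obtain ⟨i₁, r₁, h₁⟩ := h
  obtain ⟨-, hr⟩ := Retract.of_pi k hV i₁ r₁ h₁
  obtain ⟨e⟩ := pi_M fun j : (Σ i : I, Fin (n i)) => Z j.1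
  obtain ⟨i₂, r₂, h₂⟩ := hr.trans (Retract.of_equiv e)
  obtain ⟨j, hj⟩ := Retract.of_pi k hV i₂ r₂ h₂
  refine ⟨j.1, ?_, hj⟩
  intro h0
  have := j.2.2
  omega

end Pool.Agent.Helper391_TT
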