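import Pool.Agent.Helper391_TT.LemAB

set_option autoImplicit false

/-!
Rigid objects with the same class have the same indecomposable summands.
-/

namespace Pool.Agent.Helper391_TT

universe u

variable {k A : Type u} [Field k] [Ring A] [Algebra k A]

theorem chi_quo_nonneg (F H : Obj k A) (hc : ∀ X, chi F X = chi H X) (M : FM k A)
    (h : ee H M = 0) (K : Submodule A M.X) : 0 ≤ chi F (M.quo K) := by
  rw [hc]
  have h1 := hh_sub_ee H (M.quo K)
  have h2 := ee_le_of_surj H (X := M) (Y := M.quo K) K.mkQ K.mkQ_surjective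
  omega

theorem ee_zero_of_same (F H : Obj k A) (hF : Rigid F) (hc : ∀ X, chi F X = chi H X)
    (M : FM k A) (h : ee H M = 0) : ee F M = 0 :=
  ee_zero_of_chi F hF M (chi_quo_nonneg F H hc M h)

/-- if the torsion classes of `H` and `F` are related, the summands of `M_F` occur in `M_H` -/
theorem retract_of (F H : Obj k A) (hF : Rigid F) (hH : Rigid H)
    (h1 : ee H F.M = 0) (hT' : ∀ X, ee H X = 0 → ee F X = 0)
    (h0 : ∀ X, ee H X = 0 → hh H X = 0 → hh F X = 0) :
    ∃ r : ℕ, Retract A F.M.X (Fin r → H.M.X) := by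
  obtain ⟨r, π, hπ⟩ := exists_univ H.M F.M
  -- surjectivity of `π`
  let T : Submodule A F.M.X := LinearMap.range π
  have hT : ee H (F.M.sub T) = 0 :=
    ee_zero_of_power H (J := Fin r) (Y := H.M) (Z := F.M.sub T) π.rangeRestrict
      π.surjective_rangeRestrict hH
  have hY : dd H.M (F.M.quo T) = 0 := by
    apply dd_eq_zero_of
    intro φ
    -- lift `φ` to `F.M`
    obtain ⟨χ, hχ⟩ := Module.projective_lifting_property T.mkQ (φ ∘ₗ H.pr) T.mkQ_surjective
    have hd : ∀ q, (χ ∘ₗ H.f) q ∈ T := by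
      intro q
      rw [← Submodule.Quotient.mk_eq_zero]
      have h2 : T.mkQ (χ (H.f q)) = φ (H.pr (H.f q)) := LinearMap.congr_fun hχ (H.f q)
      have h3 : H.pr (H.f q) = 0 := LinearMap.congr_fun H.pr_comp q
      rw [h3, map_zero] at h2
      exact h2
    obtain ⟨θ, hθ⟩ := (ee_eq_zero_iff H (F.M.sub T)).mp hT ((χ ∘ₗ H.f).codRestrict T hd)
    obtain ⟨ψ, hψ⟩ := H.exists_desc (χ - T.subtype ∘ₗ θ) (by
      ext q
      have h4 : T.subtype (θ (H.f q)) = χ (H.f q) :=
        congrArg Subtype.val (LinearMap.congr_fun hθ q)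
      simp only [LinearMap.comp_apply, LinearMap.sub_apply, LinearMap.zero_apply]
      rw [h4, sub_self])
    obtain ⟨ρ, hρ⟩ := hπ ψ
    refine LinearMap.ext fun y => ?_
    obtain ⟨p, rfl⟩ := H.pr_surj y
    have h5 : T.mkQ (χ p) = φ (H.pr p) := LinearMap.congr_fun hχ p
    have h6 : ψ (H.pr p) = χ p - T.subtype (θ p) := LinearMap.congr_fun hψ p
    have h7 : ψ (H.pr p) ∈ T := by
      rw [← hρ]
      exact ⟨_, rfl⟩
    have h8 : χ p ∈ T := by
      have : χ p = ψ (H.pr p) + T.subtype (θ p) := by rw [h6]; abel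
      rw [this]
      exact T.add_mem h7 (θ p).2
    rw [← h5]
    exact (Submodule.Quotient.mk_eq_zero _).mpr h8
  have hY' : dd F.M (F.M.quo T) = 0 := by
    rw [← hh_eq]
    refine h0 _ ?_ (by rw [hh_eq]; exact hY)
    have e5 := ee_le_of_surj H (X := F.M) (Y := F.M.quo T) T.mkQ T.mkQ_surjective
    omega
  have hsurj : Function.Surjective π := by
    have h2 := dd_eq_zero hY' (T.mkQ)
    intro x
    have h3 : T.mkQ x = 0 := LinearMap.congr_fun h2 x
    exact (Submodule.Quotient.mk_eq_zero _).mp h3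
  -- the kernel
  let E : FM k A := FM.pi fun _ : Fin r => H.M
  let K : Submodule A E.X := LinearMap.ker π
  have hK : ee H (E.sub K) = 0 := by
    rw [ee_eq_zero_iff]
    intro φ
    have hE : ee H E = 0 := ee_pi_zero H _ fun _ => hH
    obtain ⟨χ, hχ⟩ := (ee_eq_zero_iff H E).mp hE (K.subtype ∘ₗ φ)
    obtain ⟨ψ, hψ⟩ := H.exists_desc (π ∘ₗ χ) (by
      ext q
      have h4 : χ (H.f q) = K.subtype (φ q) := LinearMap.congr_fun hχ q
      simp only [LinearMap.comp_apply, LinearMap.zero_apply]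
      rw [h4]
      exact (φ q).2)
    obtain ⟨ρ, hρ⟩ := hπ ψ
    have hd : ∀ p, (χ - ρ ∘ₗ H.pr) p ∈ K := by
      intro p
      have h5 : ψ (H.pr p) = π (χ p) := LinearMap.congr_fun hψ p
      have h6 : π (ρ (H.pr p)) = ψ (H.pr p) := LinearMap.congr_fun hρ _
      change π ((χ - ρ ∘ₗ H.pr) p) = 0
      rw [LinearMap.sub_apply, map_sub, LinearMap.comp_apply, h6, h5, sub_self]
    refine ⟨(χ - ρ ∘ₗ H.pr).codRestrict K hd, ?_⟩
    refine LinearMap.ext fun q => K.subtype_injective ?_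
    have h4 : χ (H.f q) = K.subtype (φ q) := LinearMap.congr_fun hχ q
    have h7 : H.pr (H.f q) = 0 := LinearMap.congr_fun H.pr_comp q
    change (χ - ρ ∘ₗ H.pr) (H.f q) = K.subtype (φ q)
    rw [LinearMap.sub_apply, LinearMap.comp_apply, h7, map_zero, sub_zero, h4]
  have hK' : ee F (E.sub K) = 0 := hT' _ hK
  -- splitting
  obtain ⟨χ, hχ⟩ := Module.projective_lifting_property π F.pr hsurj
  have hd : ∀ q, (χ ∘ₗ F.f) q ∈ K := by
    intro q
    have h4 : π (χ (F.f q)) = F.pr (F.f q) := LinearMap.congr_fun hχ (F.f q)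
    have h5 : F.pr (F.f q) = 0 := LinearMap.congr_fun F.pr_comp q
    change π (χ (F.f q)) = 0
    rw [h4, h5]
  obtain ⟨θ, hθ⟩ := (ee_eq_zero_iff F (E.sub K)).mp hK' ((χ ∘ₗ F.f).codRestrict K hd)
  obtain ⟨σ, hσ⟩ := F.exists_desc (χ - K.subtype ∘ₗ θ) (by
    refine LinearMap.ext fun q => ?_
    have h4 : K.subtype (θ (F.f q)) = χ (F.f q) :=
      congrArg Subtype.val (LinearMap.congr_fun hθ q)
    simp only [LinearMap.comp_apply, LinearMap.sub_apply, LinearMap.zero_apply]
    rw [h4, sub_self])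
  refine ⟨r, σ, π, ?_⟩
  refine LinearMap.ext fun y => ?_
  obtain ⟨p, rfl⟩ := F.pr_surj y
  have h6 : σ (F.pr p) = χ p - K.subtype (θ p) := LinearMap.congr_fun hσ p
  have h8 : π (K.subtype (θ p)) = 0 := (θ p).2
  have h9 : π (χ p) = F.pr p := LinearMap.congr_fun hχ p
  rw [LinearMap.comp_apply, h6, map_sub, h8, sub_zero, h9]
  rfl

theorem retract_of_same (F H : Obj k A) (hF : Rigid F) (hH : Rigid H)
    (hc : ∀ X, chi F X = chi H X) :
    ∃ r : ℕ, Retract A F.M.X (Fin r → H.M.X) := by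
  have hc' : ∀ X, chi H X = chi F X := fun X => (hc X).symm
  refine retract_of F H hF hH (ee_zero_of_same H F hH hc' F.M hF)
    (fun X h => ee_zero_of_same F H hF hc X h) fun X h h' => ?_
  have e1 := hh_sub_ee F X
  have e2 := hh_sub_ee H X
  have e3 := hc X
  have e4 := ee_zero_of_same F H hF hc X h
  omega

end Pool.Agent.Helper391_TT
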